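import Pool.Agent.Helper11.ZP.Rational

open Polynomial

namespace Pool.Agent.Helper11.ZP

/-- The curve in `Y(1)ⁿ` parametrized by the rational functions `Aᵢ(t) / Bᵢ(t)`. -/
def ratCurve {n : ℕ} (A B : Fin n → ℚ[X]) : Set (Fin n → ℂ) :=
  {y | ∃ t : ℂ, (∀ i, aeval t (B i) ≠ 0) ∧ ∀ i, y i = aeval t (A i) / aeval t (B i)}

section

variable {n : ℕ} (A B : Fin n → ℚ[X])

/-- The product of the denominators. -/
noncomputable def DD : ℂ[X] := ∏ i, (B i).map (algebraMap ℚ ℂ)

lemma DD_ne_zero (hB : ∀ i, B i ≠ 0) : DD B ≠ 0 := by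
  rw [DD, Finset.prod_ne_zero_iff]
  intro i _
  rw [Ne, Polynomial.map_eq_zero_iff (algebraMap ℚ ℂ).injective]
  exact hB i

/-- The inverses of the denominators. -/
noncomputable def binv (i : Fin n) : Localization.Away (DD B) :=
  algebraMap ℂ[X] _ (∏ j ∈ Finset.univ.erase i, (B j).map (algebraMap ℚ ℂ)) *
    IsLocalization.Away.invSelf (DD B)

lemma mul_binv (i : Fin n) :
    algebraMap ℂ[X] (Localization.Away (DD B)) ((B i).map (algebraMap ℚ ℂ)) * binv B i = 1 := by
  have h := Finset.mul_prod_erase Finset.univ (fun j => (B j).map (algebraMap ℚ ℂ)) (Finset.mem_univ i)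
  rw [binv, ← mul_assoc, ← map_mul, h]
  exact IsLocalization.Away.mul_invSelf (DD B)

/-- The coordinates. -/
noncomputable def xR (i : Fin n) : Localization.Away (DD B) :=
  algebraMap ℂ[X] _ ((A i).map (algebraMap ℚ ℂ)) * binv B i

variable {K : Type*} [Field K] [CharZero K] [Algebra ℂ K]

lemma aeval_map_rat (t : K) (f : ℚ[X]) : aeval t (f.map (algebraMap ℚ ℂ)) = aeval t f := by
  rw [aeval_def, eval₂_map, aeval_def]
  congr 1
  exact Subsingleton.elim _ _

lemma aeval_DD (t : K) : aeval t (DD B) = ∏ i, aeval t (B i) := by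
  rw [DD, map_prod]
  exact Finset.prod_congr rfl fun i _ => aeval_map_rat t (B i)

lemma aeval_DD_ne_zero {t : K} : aeval t (DD B) ≠ 0 ↔ ∀ i, aeval t (B i) ≠ 0 := by
  rw [aeval_DD, Finset.prod_ne_zero_iff]
  simp

lemma evD_binv (t : K) (ht : aeval t (DD B) ≠ 0) (i : Fin n) :
    evD (DD B) t ht (binv B i) = (aeval t (B i))⁻¹ := by
  have h2 := congrArg (evD (DD B) t ht) (mul_binv B i)
  rw [map_mul, evD_algebraMap, map_one, aeval_map_rat] at h2
  exact eq_inv_of_mul_eq_one_right h2

lemma evD_xR (t : K) (ht : aeval t (DD B) ≠ 0) (i : Fin n) :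
    evD (DD B) t ht (xR A B i) = aeval t (A i) / aeval t (B i) := by
  rw [xR, map_mul, evD_binv, evD_algebraMap, aeval_map_rat, div_eq_mul_inv]

omit K in
lemma ratCurve_eq : ratCurve A B = curveOf (xR A B) := by
  ext y
  constructor
  · rintro ⟨t, h0, h⟩
    refine ⟨t, (aeval_DD_ne_zero B).2 h0, fun i => ?_⟩
    rw [h, evD_xR]
  · rintro ⟨t, ht, h⟩
    refine ⟨t, (aeval_DD_ne_zero B).1 ht, fun i => ?_⟩
    rw [h, evD_xR]

omit K in
/-- Integrality of all functions over the coordinates: if `t` has a pole at a pole of one of the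
coordinates and the numerators and denominators are coprime. -/
lemma isIntegral_xR (i₀ : Fin n) (hN : (B i₀).natDegree < (A i₀).natDegree)
    (hcop : ∀ i, IsCoprime ((A i).map (algebraMap ℚ ℂ)) ((B i).map (algebraMap ℚ ℂ))) :
    (MvPolynomial.aeval (xR A B) : MvPolynomial (Fin n) ℂ →ₐ[ℂ] _).toRingHom.IsIntegral := by
  classical
  set φ := (MvPolynomial.aeval (xR A B) : MvPolynomial (Fin n) ℂ →ₐ[ℂ] Localization.Away (DD B)) with hφ
  have hφX : ∀ i, φ (MvPolynomial.X i) = xR A B i := fun i => by rw [hφ, MvPolynomial.aeval_X]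
  -- the parameter is integral
  have hX : φ.toRingHom.IsIntegralElem (algebraMap ℂ[X] (Localization.Away (DD B)) X) := by
    let P₁ : (MvPolynomial (Fin n) ℂ)[X] := ((A i₀).map (algebraMap ℚ ℂ)).map MvPolynomial.C
    let P₂ : (MvPolynomial (Fin n) ℂ)[X] :=
      C (MvPolynomial.X i₀) * (((B i₀).map (algebraMap ℚ ℂ)).map MvPolynomial.C)
    let a : ℂ := ((A i₀).leadingCoeff : ℂ)
    have hA0 : A i₀ ≠ 0 := by
      intro h
      rw [h, natDegree_zero] at hN
      omega
    have ha : a ≠ 0 := by
      simp only [a, ne_eq, Rat.cast_eq_zero]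
      exact leadingCoeff_ne_zero.2 hA0
    have hdegP1 : P₁.natDegree ≤ (A i₀).natDegree := natDegree_map_le.trans natDegree_map_le
    have hdegP2 : P₂.natDegree < (A i₀).natDegree :=
      lt_of_le_of_lt ((natDegree_C_mul_le _ _).trans (natDegree_map_le.trans natDegree_map_le)) hN
    refine ⟨C (MvPolynomial.C a⁻¹) * (P₁ - P₂), ?_, ?_⟩
    · refine monic_of_natDegree_le_of_coeff_eq_one (A i₀).natDegree ?_ ?_
      · refine (natDegree_C_mul_le _ _).trans ?_
        exact (natDegree_sub_le_of_le hdegP1 hdegP2.le).trans (le_of_eq (max_self _))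
      · rw [coeff_C_mul, coeff_sub, coeff_eq_zero_of_natDegree_lt hdegP2, sub_zero, coeff_map,
          coeff_map]
        have : (algebraMap ℚ ℂ) ((A i₀).coeff (A i₀).natDegree) = a := rfl
        rw [this, ← MvPolynomial.C_mul, inv_mul_cancel₀ ha, MvPolynomial.C_1]
    · have hcomp : φ.toRingHom.comp MvPolynomial.C =
          (algebraMap ℂ[X] (Localization.Away (DD B))).comp C := by
        ext a
        have := φ.commutes a
        rw [IsScalarTower.algebraMap_apply ℂ ℂ[X] (Localization.Away (DD B))] at this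
        exact this
      rw [eval₂_mul, eval₂_sub]
      have h1 : eval₂ φ.toRingHom (algebraMap ℂ[X] (Localization.Away (DD B)) X) P₁ =
          algebraMap ℂ[X] (Localization.Away (DD B)) ((A i₀).map (algebraMap ℚ ℂ)) := by
        rw [eval₂_map, hcomp, ← hom_eval₂, eval₂_C_X]
      have h2 : eval₂ φ.toRingHom (algebraMap ℂ[X] (Localization.Away (DD B)) X) P₂ =
          xR A B i₀ *
            algebraMap ℂ[X] (Localization.Away (DD B)) ((B i₀).map (algebraMap ℚ ℂ)) := by
        rw [eval₂_mul, eval₂_C, eval₂_map, hcomp, ← hom_eval₂, eval₂_C_X]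
        have h3 : φ.toRingHom (MvPolynomial.X i₀) = xR A B i₀ := hφX i₀
        rw [h3]
      have h5 : xR A B i₀ *
            algebraMap ℂ[X] (Localization.Away (DD B)) ((B i₀).map (algebraMap ℚ ℂ)) =
          algebraMap ℂ[X] (Localization.Away (DD B)) ((A i₀).map (algebraMap ℚ ℂ)) := by
        have := mul_binv B i₀
        rw [xR]
        linear_combination (algebraMap ℂ[X] (Localization.Away (DD B)) ((A i₀).map (algebraMap ℚ ℂ))) * this
      rw [h1, h2, h5, sub_self, mul_zero]
  have hpoly : ∀ f : ℂ[X], φ.toRingHom.IsIntegralElem (algebraMap ℂ[X] (Localization.Away (DD B)) f) := by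
    intro f
    induction f using Polynomial.induction_on' with
    | add f g hf hg =>
      rw [map_add]
      exact RingHom.IsIntegralElem.add _ hf hg
    | monomial k a =>
      rw [← C_mul_X_pow_eq_monomial, map_mul, map_pow]
      refine RingHom.IsIntegralElem.mul _ ?_ ?_
      · have h1 : algebraMap ℂ[X] (Localization.Away (DD B)) (C a) = φ.toRingHom (MvPolynomial.C a) := by
          have := φ.commutes a
          rw [IsScalarTower.algebraMap_apply ℂ ℂ[X] (Localization.Away (DD B))] at this
          exact this.symm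
        rw [h1]
        exact RingHom.isIntegralElem_map _
      · induction k with
        | zero => rw [pow_zero]; exact RingHom.isIntegralElem_one _
        | succ k ih => rw [pow_succ]; exact RingHom.IsIntegralElem.mul _ ih hX
  have hbinv : ∀ i, φ.toRingHom.IsIntegralElem (binv B i) := by
    intro i
    obtain ⟨U, V, hUV⟩ := hcop i
    have h1 : binv B i = algebraMap ℂ[X] (Localization.Away (DD B)) U * xR A B i +
        algebraMap ℂ[X] (Localization.Away (DD B)) V := by
      have h2 := mul_binv B i
      have h3 := congrArg (algebraMap ℂ[X] (Localization.Away (DD B))) hUV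
      rw [map_add, map_mul, map_mul, map_one] at h3
      rw [xR]
      linear_combination (-binv B i) * h3 + (algebraMap ℂ[X] (Localization.Away (DD B)) V) * h2
    rw [h1]
    refine RingHom.IsIntegralElem.add _ (RingHom.IsIntegralElem.mul _ (hpoly U) ?_) (hpoly V)
    rw [← hφX]
    exact RingHom.isIntegralElem_map _
  refine isIntegral_of_gens φ hX ?_
  have h1 : (IsLocalization.Away.invSelf (DD B) : Localization.Away (DD B)) = ∏ i, binv B i := by
    have h2 : algebraMap ℂ[X] (Localization.Away (DD B)) (DD B) * ∏ i, binv B i = 1 := by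
      change algebraMap ℂ[X] (Localization.Away (DD B)) (∏ i, (B i).map (algebraMap ℚ ℂ)) * _ = 1
      rw [map_prod, ← Finset.prod_mul_distrib]
      exact Finset.prod_eq_one fun i _ => mul_binv B i
    have h3 : algebraMap ℂ[X] (Localization.Away (DD B)) (DD B) *
      IsLocalization.Away.invSelf (DD B) = 1 := IsLocalization.Away.mul_invSelf (DD B)
    linear_combination (IsLocalization.Away.invSelf (DD B) : Localization.Away (DD B)) * (-h2) +
      (∏ i, binv B i) * h3
  rw [h1]
  have h4 : ∀ s : Finset (Fin n), φ.toRingHom.IsIntegralElem (∏ i ∈ s, binv B i) := by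
    intro s
    induction s using Finset.induction_on with
    | empty => rw [Finset.prod_empty]; exact RingHom.isIntegralElem_one _
    | insert i s hi ih =>
      rw [Finset.prod_insert hi]
      exact RingHom.IsIntegralElem.mul _ (hbinv i) ih
  exact h4 _

end

end Pool.Agent.Helper11.ZP
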