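import Pool.Agent.Helper11.ZP.Key

open UpperHalfPlane

namespace Pool.Agent.Helper11.ZP

lemma exists_moebius_preimage {g : Matrix (Fin 2) (Fin 2) ℤ} (hg : 0 < g.det) (τ' : ℍ) :
    ∃ τ : ℍ, (τ' : ℂ) * (g 1 0 * (τ : ℂ) + g 1 1) = g 0 0 * (τ : ℂ) + g 0 1 := by
  refine ⟨(toGL hg ⟨g, rfl⟩)⁻¹ • τ', ?_⟩
  set τ := (toGL hg ⟨g, rfl⟩)⁻¹ • τ' with hτ
  have h1 : toGL hg ⟨g, rfl⟩ • τ = τ' := by rw [hτ, smul_inv_smul]
  have h2 : ((toGL hg ⟨g, rfl⟩ • τ : ℍ) : ℂ) = (τ' : ℂ) := by rw [h1]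
  rw [coe_smul_of_det_pos (det_toGL_pos hg (⟨g, rfl⟩ : DM g.det)), div_eq_iff (denom_ne_zero _ _)] at h2
  change ((((g 0 0 : ℤ) : ℝ) : ℂ) * (τ : ℂ) + (((g 0 1 : ℤ) : ℝ) : ℂ)) =
    (τ' : ℂ) * ((((g 1 0 : ℤ) : ℝ) : ℂ) * (τ : ℂ) + (((g 1 1 : ℤ) : ℝ) : ℂ)) at h2
  push_cast at h2
  exact h2.symm

/-- Matrices act on the upper half plane. -/
lemma exists_moebius_image {g : Matrix (Fin 2) (Fin 2) ℤ} (hg : 0 < g.det) (τ : ℍ) :
    ∃ τ' : ℍ, (τ' : ℂ) * (g 1 0 * (τ : ℂ) + g 1 1) = g 0 0 * (τ : ℂ) + g 0 1 := by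
  refine ⟨toGL hg ⟨g, rfl⟩ • τ, ?_⟩
  have h2 := coe_smul_of_det_pos (det_toGL_pos hg (⟨g, rfl⟩ : DM g.det)) τ
  rw [eq_div_iff (denom_ne_zero _ _)] at h2
  change ((toGL hg ⟨g, rfl⟩ • τ : ℍ) : ℂ) * ((((g 1 0 : ℤ) : ℝ) : ℂ) * (τ : ℂ) + (((g 1 1 : ℤ) : ℝ) : ℂ)) =
    ((((g 0 0 : ℤ) : ℝ) : ℂ) * (τ : ℂ) + (((g 0 1 : ℤ) : ℝ) : ℂ)) at h2
  push_cast at h2
  exact h2

open MvPolynomial in
/-- The dimension of a special subvariety is at least (in fact equal to) its number of classes. -/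
theorem SpecialData.le_dim {n : ℕ} (S : SpecialData n) : S.r ≤ dim S.carrier := by
  classical
  choose idx hidx using S.surj
  have hpt : ∀ z : Fin S.r → ℂ, ∃ y ∈ S.carrier, ∀ s, y (idx s) = z s := by
    intro z
    choose σ hσ using fun s => jInv_surjective (z s)
    choose τ hτ using fun s => exists_moebius_preimage (S.hg (idx s)) (σ s)
    choose ρ hρ using fun (s : Fin S.r) (i : Fin n) => exists_moebius_image (S.hg i) (τ s)
    refine ⟨fun i => match S.cls i with
      | none => S.c i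
      | some s => if i = idx s then z s else jInv (ρ s i), ⟨fun i hi => by simp only [hi], fun s =>
        ⟨τ s, fun i hi => ?_⟩⟩, fun s => by simp only [hidx, if_true]⟩
    by_cases h : i = idx s
    · refine ⟨σ s, ?_, ?_⟩
      · rw [h]; exact hτ s
      · simp only [hi, if_pos h]
        exact (hσ s).symm
    · refine ⟨ρ s i, hρ s i, ?_⟩
      simp only [hi, if_neg h]
  set B := MvPolynomial (Fin n) ℂ ⧸ vanishingIdeal ℂ S.carrier with hB
  have hind : AlgebraicIndependent ℂ (fun s : Fin S.r =>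
      Ideal.Quotient.mk (vanishingIdeal ℂ S.carrier) (X (idx s))) := by
    rw [algebraicIndependent_iff]
    intro q hq
    apply MvPolynomial.funext
    intro z
    obtain ⟨y, hy, hyz⟩ := hpt z
    rw [map_zero]
    have h1 : (aeval (fun s : Fin S.r => Ideal.Quotient.mk (vanishingIdeal ℂ S.carrier) (X (idx s))) :
        MvPolynomial (Fin S.r) ℂ →ₐ[ℂ] B) q =
        Ideal.Quotient.mk (vanishingIdeal ℂ S.carrier) (rename idx q) := by
      have h2 : (aeval (fun s : Fin S.r => Ideal.Quotient.mk (vanishingIdeal ℂ S.carrier) (X (idx s))) :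
        MvPolynomial (Fin S.r) ℂ →ₐ[ℂ] B) =
        (Ideal.Quotient.mkₐ ℂ (vanishingIdeal ℂ S.carrier)).comp (rename idx) := by
        apply MvPolynomial.algHom_ext
        intro i
        simp
      rw [h2]
      rfl
    rw [h1, Ideal.Quotient.eq_zero_iff_mem] at hq
    have h3 := hq y hy
    rw [aeval_eq_eval, eval_rename] at h3
    have h4 : y ∘ idx = z := funext hyz
    rw [h4] at h3
    exact h3
  have h1 := hind.lift_cardinalMk_le_trdeg
  simp only [Cardinal.mk_fintype, Fintype.card_fin, Cardinal.lift_id] at h1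
  have h2 : Algebra.trdeg ℂ B < Cardinal.aleph0 := trdeg_lt_aleph0_of_finiteType
  have h3 := Cardinal.toNat_le_toNat h1 h2
  rw [dim]
  simpa using h3

open MvPolynomial in
/-- If all patterns are excluded for `F`, then no subvariety of the zero locus of `F` of
codimension at most `k + 1` has an atypical subvariety. -/
theorem no_atypical {n k : ℕ} {F : Set (MvPolynomial (Fin n) ℂ)}
    (hF : ∀ c : Fin n → Option (Fin k), Excluded F c) {V : Set (Fin n → ℂ)}
    (hV : V ⊆ {y | ∀ f ∈ F, eval y f = 0}) (hdim : n ≤ dim V + (k + 1)) (A : Set (Fin n → ℂ)) :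
    ¬ IsAtypical V A := by
  rintro ⟨S, ⟨hA, hAVS, _⟩, hlt⟩
  have h1 := key hF hA (fun y hy f hf => hV (hAVS hy).1 f hf) S (fun y hy => (hAVS hy).2)
  have h2 := S.le_dim
  omega

open MvPolynomial in
/-- If all patterns are excluded for `F`, then the zero locus of `F` meets no special subvariety
of dimension at most `k`. -/
theorem no_unlikely {n k : ℕ} {F : Set (MvPolynomial (Fin n) ℂ)}
    (hF : ∀ c : Fin n → Option (Fin k), Excluded F c) {y : Fin n → ℂ}
    (hy : ∀ f ∈ F, eval y f = 0) (S : SpecialData n) (hS : y ∈ S.carrier) : k < dim S.carrier := by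
  have hA : IsSubvariety ({y} : Set (Fin n → ℂ)) := by
    refine ⟨vanishingIdeal ℂ {y}, ?_, ?_⟩
    · exact (MvPolynomial.isMaximal_iff_eq_vanishingIdeal_singleton.2 ⟨y, rfl⟩).isPrime
    · apply Set.Subset.antisymm
      · exact zeroLocus_vanishingIdeal_le _
      · intro z hz
        rw [Set.mem_singleton_iff]
        funext i
        have h1 : X i - C (y i) ∈ vanishingIdeal ℂ ({y} : Set (Fin n → ℂ)) := by
          intro w hw
          rw [Set.mem_singleton_iff.1 hw]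
          simp
        have h2 := hz _ h1
        simpa [sub_eq_zero] using h2
  have h1 := key hF hA (by rintro z rfl; exact hy) S (by rintro z rfl; exact hS)
  have h2 := S.le_dim
  omega

end Pool.Agent.Helper11.ZP
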