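import Pool.Agent.Helper11.ZP.Density
import Pool.Agent.Helper11.ZP.Conseq

open Finset

namespace Pool.Agent.Helper11.ZP

/-- The local conditions: coordinate by coordinate. -/
def piSet {ι : Type} (p : ℕ) (A : ι → Set (ZMod p × ZMod p)) : Set (ι → ZMod p × ZMod p) :=
  {x | ∀ j, x j ∈ A j}

lemma card_piSet {ι : Type} [Fintype ι] (p : ℕ) (A : ι → Set (ZMod p × ZMod p)) :
    Nat.card (piSet p A) = ∏ j, Nat.card (A j) := by
  rw [← Nat.card_pi]
  exact Nat.card_congr (Equiv.subtypePiEquivPi (p := fun j z => z ∈ A j))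

lemma card_units {p : ℕ} (hp : p.Prime) :
    Nat.card {z : ZMod p × ZMod p | z.1 ≠ 0 ∧ z.2 ≠ 0} = (p - 1) ^ 2 := by
  have : Fact p.Prime := ⟨hp⟩
  have e : {z : ZMod p × ZMod p | z.1 ≠ 0 ∧ z.2 ≠ 0} =
      ((univ.erase (0 : ZMod p) ×ˢ univ.erase (0 : ZMod p) : Finset _) : Set (ZMod p × ZMod p)) := by
    ext z
    simp
  rw [e]
  simp only [coe_sort_coe, Nat.card_eq_fintype_card, Fintype.card_coe, card_product,
    card_erase_of_mem (mem_univ _), card_univ, ZMod.card]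
  ring

lemma card_pole {p : ℕ} (hp : p.Prime) :
    Nat.card {z : ZMod p × ZMod p | z.1 ≠ 0 ∧ z.2 = 0} = p - 1 := by
  have : Fact p.Prime := ⟨hp⟩
  have e : {z : ZMod p × ZMod p | z.1 ≠ 0 ∧ z.2 = 0} =
      ((univ.erase (0 : ZMod p) ×ˢ {(0 : ZMod p)} : Finset _) : Set (ZMod p × ZMod p)) := by
    ext z
    simp only [Set.mem_ofPred_eq, mem_coe, mem_product, mem_erase, mem_univ, and_true,
      mem_singleton, ne_eq]
  rw [e]
  simp only [coe_sort_coe, Nat.card_eq_fintype_card, Fintype.card_coe, card_product,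
    card_erase_of_mem (mem_univ _), card_univ, ZMod.card, card_singleton, mul_one]

open Classical in
/-- The local condition: a pole at `κ`, units elsewhere. -/
def poleSet {ι : Type} (κ : ι) (p : ℕ) : Set (ι → ZMod p × ZMod p) :=
  piSet p fun j => if j = κ then {z | z.1 ≠ 0 ∧ z.2 = 0} else {z | z.1 ≠ 0 ∧ z.2 ≠ 0}

lemma card_poleSet {ι : Type} [Fintype ι] (κ : ι) {p : ℕ} (hp : p.Prime) :
    (1 / 2 : ℝ) ^ (2 * Fintype.card ι) / p ≤
      (Nat.card (poleSet κ p) : ℝ) / (p : ℝ) ^ (2 * Fintype.card ι) := by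
  classical
  have hp0 : (0 : ℝ) < p := by exact_mod_cast hp.pos
  have hp2 : (2 : ℝ) ≤ p := by exact_mod_cast hp.two_le
  have h1 : ∀ j : ι, (Nat.card ((if j = κ then {z | z.1 ≠ 0 ∧ z.2 = 0} else
      {z | z.1 ≠ 0 ∧ z.2 ≠ 0} : Set (ZMod p × ZMod p))) : ℝ) =
      (if j = κ then 1 / ((p : ℝ) - 1) else 1) * ((p : ℝ) - 1) ^ 2 := by
    intro j
    have hc : ((p - 1 : ℕ) : ℝ) = (p : ℝ) - 1 := by
      rw [Nat.cast_sub hp.one_le]; simp
    have hne : (p : ℝ) - 1 ≠ 0 := by linarith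
    by_cases hj : j = κ
    · rw [if_pos hj, if_pos hj, card_pole hp, hc]
      field_simp
    · rw [if_neg hj, if_neg hj, card_units hp]
      push_cast
      rw [hc, one_mul]
  have h2 : (Nat.card (poleSet κ p) : ℝ) = 1 / ((p : ℝ) - 1) * (((p : ℝ) - 1) ^ 2) ^ Fintype.card ι := by
    rw [poleSet, card_piSet]
    push_cast
    simp only [h1]
    rw [prod_mul_distrib, prod_const, card_univ, prod_ite_eq' univ κ, if_pos (mem_univ _)]
  rw [h2, div_le_div_iff₀ hp0 (by positivity)]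
  have h3 : (1 / 2 : ℝ) ^ (2 * Fintype.card ι) * (p : ℝ) ^ (2 * Fintype.card ι) ≤
      (((p : ℝ) - 1) ^ 2) ^ Fintype.card ι := by
    rw [← mul_pow, pow_mul]
    refine pow_le_pow_left₀ (by positivity) ?_ _
    refine pow_le_pow_left₀ (by positivity) ?_ _
    linarith
  have h4 : (1 : ℝ) ≤ 1 / ((p : ℝ) - 1) * p := by
    have : (0 : ℝ) < (p : ℝ) - 1 := by linarith
    rw [one_div, inv_mul_eq_div, one_le_div this]
    linarith
  calc (1 / 2 : ℝ) ^ (2 * Fintype.card ι) * (p : ℝ) ^ (2 * Fintype.card ι)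
      ≤ 1 * (((p : ℝ) - 1) ^ 2) ^ Fintype.card ι := by rw [one_mul]; exact h3
    _ ≤ (1 / ((p : ℝ) - 1) * p) * (((p : ℝ) - 1) ^ 2) ^ Fintype.card ι :=
        mul_le_mul_of_nonneg_right h4 (by positivity)
    _ = _ := by ring

lemma mem_poleSet {ι : Type} {κ : ι} {p : ℕ} {θ : ι → ℚ} :
    res p θ ∈ poleSet κ p ↔ (p ∣ (θ κ).den ∧ ¬ (p : ℤ) ∣ (θ κ).num) ∧
      ∀ j, j ≠ κ → ¬ p ∣ (θ j).den ∧ ¬ (p : ℤ) ∣ (θ j).num := by
  classical
  have hn : ∀ j, (((θ j).num : ℤ) : ZMod p) = 0 ↔ (p : ℤ) ∣ (θ j).num := fun j =>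
    ZMod.intCast_zmod_eq_zero_iff_dvd _ _
  have hd : ∀ j, (((θ j).den : ℕ) : ZMod p) = 0 ↔ p ∣ (θ j).den := fun j =>
    ZMod.natCast_eq_zero_iff _ _
  constructor
  · intro h
    refine ⟨?_, fun j hj => ?_⟩
    · have h1 := h κ
      simp only [if_true, Set.mem_ofPred_eq, res] at h1
      exact ⟨(hd κ).1 h1.2, fun h2 => h1.1 ((hn κ).2 h2)⟩
    · have h1 := h j
      simp only [if_neg hj, Set.mem_ofPred_eq, res] at h1
      exact ⟨fun h2 => h1.2 ((hd j).2 h2), fun h2 => h1.1 ((hn j).2 h2)⟩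
  · rintro ⟨⟨h1, h2⟩, h3⟩ j
    by_cases hj : j = κ
    · subst hj
      simp only [if_true, Set.mem_ofPred_eq, res]
      exact ⟨fun h => h2 ((hn j).1 h), (hd j).2 h1⟩
    · simp only [if_neg hj, Set.mem_ofPred_eq, res]
      exact ⟨fun h => (h3 j hj).2 ((hn j).1 h), fun h => (h3 j hj).1 ((hd j).1 h)⟩

open Classical in
/-- From small exceptional sets to proportion one. -/
theorem tendsto_one {ι : Type} [Fintype ι] [DecidableEq ι] {τ : Type} [Fintype τ]
    (B : τ → (ι → ℚ) → Prop) (G : (ι → ℚ) → Prop) (hG : ∀ θ, (∀ κ, ¬ B κ θ) → G θ)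
    (hB : ∀ κ, ∀ ε : ℝ, 0 < ε → ∀ᶠ H : ℕ in Filter.atTop,
      (((qBox ι H).filter (B κ)).card : ℝ) ≤ ε * ((qBox ι H).card : ℝ)) :
    Filter.Tendsto (fun H : ℕ => (((qBox ι H).filter G).card : ℝ) / ((qBox ι H).card : ℝ))
      Filter.atTop (nhds 1) := by
  rw [Metric.tendsto_atTop']
  intro ε hε
  have hev : ∀ᶠ H : ℕ in Filter.atTop, ∀ κ : τ,
      (((qBox ι H).filter (B κ)).card : ℝ) ≤ (ε / (2 * (Fintype.card τ + 1))) * ((qBox ι H).card : ℝ) :=
    Filter.eventually_all.2 fun κ => hB κ _ (by positivity)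
  obtain ⟨H₀, hH₀⟩ := Filter.eventually_atTop.1 hev
  refine ⟨max H₀ 2, fun H hH => ?_⟩
  have h1 := hH₀ H (le_of_lt (lt_of_le_of_lt (le_max_left _ _) hH))
  have hH2 : 2 ≤ H := (le_max_right H₀ 2).trans hH.le
  have hpos : (0 : ℝ) < ((qBox ι H).card : ℝ) := by
    have h2 := card_ratBox_ge H hH2
    have h3 : (0 : ℝ) < (H : ℝ) ^ 2 / 4 := by
      have : (0 : ℝ) < H := by exact_mod_cast (show 0 < H by omega)
      positivity
    have h4 : (0 : ℝ) < ((ratBox H).card : ℝ) := lt_of_lt_of_le h3 h2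
    rw [qBox, Fintype.card_piFinset]
    push_cast
    exact prod_pos fun _ _ => h4
  have h2 : (qBox ι H).card ≤ ((qBox ι H).filter G).card + ∑ κ : τ, ((qBox ι H).filter (B κ)).card := by
    have h3 : qBox ι H ⊆ (qBox ι H).filter G ∪ univ.biUnion fun κ => (qBox ι H).filter (B κ) := by
      intro θ hθ
      rw [mem_union]
      by_cases h : ∀ κ, ¬ B κ θ
      · left
        exact mem_filter.2 ⟨hθ, hG θ h⟩
      · right
        push Not at h
        obtain ⟨κ, hκ⟩ := h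
        exact mem_biUnion.2 ⟨κ, mem_univ _, mem_filter.2 ⟨hθ, hκ⟩⟩
    exact (card_le_card h3).trans ((card_union_le _ _).trans (Nat.add_le_add_left card_biUnion_le _))
  have h3 : ((qBox ι H).card : ℝ) ≤ (((qBox ι H).filter G).card : ℝ) +
      ∑ κ : τ, (((qBox ι H).filter (B κ)).card : ℝ) := by exact_mod_cast h2
  have h4 : ∑ κ : τ, (((qBox ι H).filter (B κ)).card : ℝ) ≤
      Fintype.card τ * ((ε / (2 * (Fintype.card τ + 1))) * ((qBox ι H).card : ℝ)) := by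
    refine (sum_le_sum fun κ _ => h1 κ).trans (le_of_eq ?_)
    rw [sum_const, card_univ, nsmul_eq_mul]
  have h5 : (Fintype.card τ : ℝ) * ((ε / (2 * (Fintype.card τ + 1))) * ((qBox ι H).card : ℝ)) ≤
      ε / 2 * ((qBox ι H).card : ℝ) := by
    rw [← mul_assoc]
    refine mul_le_mul_of_nonneg_right ?_ hpos.le
    have : (0 : ℝ) < (Fintype.card τ : ℝ) + 1 := by positivity
    rw [mul_div_assoc', div_le_div_iff₀ (by positivity) (by positivity)]
    nlinarith
  have h6 : ((qBox ι H).filter G).card ≤ (qBox ι H).card := card_filter_le _ _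
  have h7 : (((qBox ι H).filter G).card : ℝ) ≤ ((qBox ι H).card : ℝ) := by exact_mod_cast h6
  rw [Real.dist_eq, abs_lt]
  constructor
  · rw [neg_lt_sub_iff_lt_add]
    have h8 : (1 - ε / 2) * ((qBox ι H).card : ℝ) ≤ (((qBox ι H).filter G).card : ℝ) := by linarith
    have h9 : 1 - ε / 2 ≤ (((qBox ι H).filter G).card : ℝ) / ((qBox ι H).card : ℝ) := by
      rw [le_div_iff₀ hpos]; exact h8
    linarith
  · have h9 : (((qBox ι H).filter G).card : ℝ) / ((qBox ι H).card : ℝ) ≤ 1 := by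
      rw [div_le_one hpos]; exact h7
    linarith

end Pool.Agent.Helper11.ZP
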