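import Pool.Agent.Helper11.ZP.Poles

open Polynomial

namespace Pool.Agent.Helper11.ZP

section

variable {K : Type*} [Field K] (O : ValuationSubring K) {p : ℕ}

lemma charP_residue (hp : p.Prime) (hpO : (p : K) ∈ O.nonunits) :
    CharP (IsLocalRing.ResidueField O) p := by
  rw [CharP.charP_iff_prime_eq_zero hp]
  have h1 : (p : IsLocalRing.ResidueField O) = IsLocalRing.residue O (p : O) := by simp
  rw [h1, IsLocalRing.residue_eq_zero_iff, O.valuation_lt_one_iff]
  exact (ValuationSubring.mem_nonunits_iff O).1 hpO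

/-- `y` is the value at `t` of a polynomial reducing to `f`. -/
def Red [CharP (IsLocalRing.ResidueField O) p] (f : (ZMod p)[X]) (t : O) (y : K) : Prop :=
  ∃ z : O, (z : K) = y ∧ IsLocalRing.residue O z =
    eval₂ (ZMod.castHom (dvd_refl p) (IsLocalRing.ResidueField O)) (IsLocalRing.residue O t) f

variable [CharP (IsLocalRing.ResidueField O) p]

lemma Red.mul {f g : (ZMod p)[X]} {t : O} {y z : K} (hf : Red O f t y) (hg : Red O g t z) :
    Red O (f * g) t (y * z) := by
  obtain ⟨y', hy', hy⟩ := hf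
  obtain ⟨z', hz', hz⟩ := hg
  exact ⟨y' * z', by rw [← hy', ← hz']; rfl, by rw [map_mul, hy, hz, eval₂_mul]⟩

lemma red_int (F : ℤ[X]) (t : O) : Red O (F.map (Int.castRingHom (ZMod p))) t (aeval (t : K) F) := by
  refine ⟨aeval t F, ?_, ?_⟩
  · have : ((aeval t F : O) : K) = O.subtype (aeval t F) := rfl
    rw [this, aeval_def, hom_eval₂, aeval_def]
    congr 1
  · rw [aeval_def, hom_eval₂, eval₂_map]
    congr 1
    exact RingHom.ext_int _ _

/-- The reduction of a monic polynomial. -/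
noncomputable def redMonic {d : ℕ} (p : ℕ) (a : Fin d → ZMod p × ZMod p) : (ZMod p)[X] :=
  X ^ d + ∑ m, C ((a m).1 * (a m).2⁻¹) * X ^ (m : ℕ)

lemma red_rat [CharZero K] (hp : p.Prime) (hpO : (p : K) ∈ O.nonunits) {q : ℚ} (hq : ¬ p ∣ q.den) :
    ∃ z : O, (z : K) = q ∧ IsLocalRing.residue O z =
      ZMod.castHom (dvd_refl p) (IsLocalRing.ResidueField O)
        (((q.num : ℤ) : ZMod p) * ((q.den : ℕ) : ZMod p)⁻¹) := by
  have hle := val_rat_le O hp hpO hq
  rw [O.valuation_le_one_iff] at hle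
  refine ⟨⟨(q : K), hle⟩, rfl, ?_⟩
  have : Fact p.Prime := ⟨hp⟩
  have hden : ((q.den : ℕ) : ZMod p) ≠ 0 := by
    rw [Ne, ZMod.natCast_eq_zero_iff]
    exact hq
  set φ := ZMod.castHom (dvd_refl p) (IsLocalRing.ResidueField O)
  have h1 : IsLocalRing.residue O ⟨(q : K), hle⟩ * φ ((q.den : ℕ) : ZMod p) =
      φ ((q.num : ℤ) : ZMod p) := by
    have h2 : (⟨(q : K), hle⟩ : O) * ((q.den : ℕ) : O) = ((q.num : ℤ) : O) := by
      apply Subtype.ext
      push_cast
      exact_mod_cast congrArg (Rat.cast : ℚ → K) (Rat.mul_den_eq_num q)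
    have h3 := congrArg (IsLocalRing.residue O) h2
    rw [map_mul, map_natCast, map_intCast] at h3
    rw [map_natCast, map_intCast]
    exact h3
  have h4 : φ ((q.den : ℕ) : ZMod p) ≠ 0 := (map_ne_zero φ).2 hden
  rw [map_mul, ← h1, mul_assoc, ← map_mul, mul_inv_cancel₀ hden, map_one, mul_one]

lemma red_monic [CharZero K] (hp : p.Prime) (hpO : (p : K) ∈ O.nonunits) {d : ℕ} (a : Fin d → ℚ)
    (ha : ∀ m, ¬ p ∣ (a m).den) (t : O) :
    Red O (redMonic p fun m => (((a m).num : ZMod p), ((a m).den : ZMod p))) t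
      (aeval (t : K) (mkMonic a)) := by
  choose z hz1 hz2 using fun m => red_rat O hp hpO (ha m)
  refine ⟨t ^ d + ∑ m, z m * t ^ (m : ℕ), ?_, ?_⟩
  · rw [mkMonic, map_add, map_pow, aeval_X, map_sum]
    push_cast
    congr 1
    refine Finset.sum_congr rfl fun m _ => ?_
    rw [hz1, map_mul, map_pow, aeval_X, aeval_C]
    rfl
  · rw [map_add, map_pow, map_sum, redMonic, eval₂_add, eval₂_X_pow, eval₂_finsetSum]
    congr 1
    refine Finset.sum_congr rfl fun m _ => ?_
    rw [map_mul, map_pow, hz2, eval₂_mul, eval₂_C, eval₂_X_pow]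

lemma Red.coprime {f g : (ZMod p)[X]} {t : O} {y z : K} (hf : Red O f t y) (hg : Red O g t z)
    (hfg : IsCoprime f g) : ¬ (O.valuation y < 1 ∧ O.valuation z < 1) := by
  rintro ⟨h1, h2⟩
  obtain ⟨y', hy', hy⟩ := hf
  obtain ⟨z', hz', hz⟩ := hg
  rw [← hy', ← O.valuation_lt_one_iff, ← IsLocalRing.residue_eq_zero_iff, hy] at h1
  rw [← hz', ← O.valuation_lt_one_iff, ← IsLocalRing.residue_eq_zero_iff, hz] at h2
  obtain ⟨u, w, h⟩ := hfg
  have h3 := congrArg (eval₂ (ZMod.castHom (dvd_refl p) (IsLocalRing.ResidueField O))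
    (IsLocalRing.residue O t)) h
  rw [eval₂_add, eval₂_mul, eval₂_mul, h1, h2, mul_zero, mul_zero, add_zero, eval₂_one] at h3
  exact zero_ne_one h3

end

end Pool.Agent.Helper11.ZP
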