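import Pool.Agent.Helper11.ZP.Almost

open Finset

namespace Pool.Agent.Helper11.ZP

/-- Replace the numerator in the coordinate `j`. -/
def updNum {ι : Type} [DecidableEq ι] {p : ℕ} (x : ι → ZMod p × ZMod p) (j : ι) (v : ZMod p) :
    ι → ZMod p × ZMod p := Function.update x j (v, (x j).2)

lemma updNum_self {ι : Type} [DecidableEq ι] {p : ℕ} (x : ι → ZMod p × ZMod p) (j : ι) :
    updNum x j (x j).1 = x := by
  simp [updNum]

lemma updNum_updNum {ι : Type} [DecidableEq ι] {p : ℕ} (x : ι → ZMod p × ZMod p) (j : ι)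
    (v w : ZMod p) : updNum (updNum x j v) j w = updNum x j w := by
  simp [updNum]

lemma updNum_apply_same {ι : Type} [DecidableEq ι] {p : ℕ} (x : ι → ZMod p × ZMod p) (j : ι)
    (v : ZMod p) : updNum x j v j = (v, (x j).2) := by
  simp [updNum]

lemma updNum_apply_ne {ι : Type} [DecidableEq ι] {p : ℕ} (x : ι → ZMod p × ZMod p) {i j : ι}
    (h : i ≠ j) (v : ZMod p) : updNum x j v i = x i := by
  simp [updNum, h]

lemma updNum_mem {ι : Type} [DecidableEq ι] {p : ℕ} {κ j : ι} (hj : j ≠ κ)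
    {x : ι → ZMod p × ZMod p} (hx : x ∈ poleSet κ p) {v : ZMod p} (hv : v ≠ 0) :
    updNum x j v ∈ poleSet κ p := by
  classical
  intro i
  have h1 := hx i
  by_cases hi : i = j
  · subst hi
    rw [updNum_apply_same]
    simp only [if_neg hj] at h1 ⊢
    exact ⟨hv, h1.2⟩
  · rw [updNum_apply_ne x hi]
    exact h1

/-- A bad event with few bad numerators in one coordinate is rare. -/
lemma card_bad_le {ι : Type} [Fintype ι] [DecidableEq ι] {p : ℕ} (hp : p.Prime) {κ j : ι}
    (hj : j ≠ κ) (bad : Set (ι → ZMod p × ZMod p)) (D : ℕ)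
    (hD : ∀ x ∈ poleSet κ p, Nat.card {v : ZMod p | updNum x j v ∈ bad} ≤ D) :
    Nat.card ↥(poleSet κ p ∩ bad) * (p - 1) ≤ D * Nat.card ↥(poleSet κ p) := by
  classical
  have : Fact p.Prime := ⟨hp⟩
  -- pairs
  let T : Set ((ι → ZMod p × ZMod p) × ZMod p) :=
    {z | z.1 ∈ poleSet κ p ∧ updNum z.1 j z.2 ∈ bad}
  let S : Finset (ι → ZMod p × ZMod p) := univ.filter (fun x => x ∈ poleSet κ p)
  let Tf : Finset ((ι → ZMod p × ZMod p) × ZMod p) := univ.filter (fun z => z ∈ T)
  let Bf : Finset (ι → ZMod p × ZMod p) := univ.filter (fun x => x ∈ poleSet κ p ∩ bad)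
  have hS : Nat.card ↥(poleSet κ p) = S.card := by
    rw [Nat.card_eq_fintype_card, ← Set.toFinset_card]
    congr 1
    ext x
    simp [S]
  have hB : Nat.card ↥(poleSet κ p ∩ bad) = Bf.card := by
    rw [Nat.card_eq_fintype_card, ← Set.toFinset_card]
    congr 1
    ext x
    simp [Bf]
  have hT1 : Tf.card ≤ D * S.card := by
    refine card_le_mul_card_image_of_maps_to (f := Prod.fst) ?_ D ?_
    · intro z hz
      have := (mem_filter.1 hz).2
      exact mem_filter.2 ⟨mem_univ _, this.1⟩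
    · intro x hx
      have hx' := (mem_filter.1 hx).2
      refine le_trans ?_ (hD x hx')
      have e : Nat.card {v : ZMod p | updNum x j v ∈ bad} =
          (univ.filter (fun v : ZMod p => updNum x j v ∈ bad)).card := by
        rw [Nat.card_eq_fintype_card, ← Set.toFinset_card]
        congr 1
        ext v
        simp
      rw [e]
      refine card_le_card_of_injOn Prod.snd ?_ ?_
      · rintro ⟨y, v⟩ hz
        rw [mem_coe, mem_filter] at hz
        have h1 := (mem_filter.1 hz.1).2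
        have h2 : y = x := hz.2
        subst h2
        rw [mem_coe, mem_filter]
        exact ⟨mem_univ _, h1.2⟩
      · rintro ⟨y, v⟩ hz ⟨y', v'⟩ hz' h
        rw [mem_coe, mem_filter] at hz hz'
        have h2 : y = x := hz.2
        have h2' : y' = x := hz'.2
        rw [h2, h2']
        exact congrArg _ h
  have hT2 : Bf.card * (p - 1) ≤ Tf.card := by
    have e : (p - 1) = (univ.erase (0 : ZMod p)).card := by
      rw [card_erase_of_mem (mem_univ _), card_univ, ZMod.card]
    rw [e, ← card_product]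
    refine card_le_card_of_injOn (fun z => (updNum z.1 j z.2, (z.1 j).1)) ?_ ?_
    · rintro ⟨y, w⟩ hz
      rw [mem_coe, mem_product, mem_filter, mem_erase] at hz
      rw [mem_coe, mem_filter]
      refine ⟨mem_univ _, updNum_mem hj hz.1.2.1 hz.2.1, ?_⟩
      change updNum (updNum y j w) j (y j).1 ∈ bad
      rw [updNum_updNum, updNum_self]
      exact hz.1.2.2
    · rintro ⟨y, w⟩ _ ⟨y', w'⟩ _ h
      simp only [Prod.mk.injEq] at h
      obtain ⟨h1, h2⟩ := h
      have h3 := congrFun h1 j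
      rw [updNum_apply_same, updNum_apply_same, Prod.mk.injEq] at h3
      have h4 : y = y' := by
        have := congrArg (fun z => updNum z j (y j).1) h1
        rw [updNum_updNum, updNum_updNum, updNum_self, h2, updNum_self] at this
        exact this
      rw [h4, h3.1]
  rw [hB, hS]
  exact hT2.trans hT1

/-- The local condition together with avoiding rare events. -/
lemma card_avoid {ι : Type} [Fintype ι] [DecidableEq ι] {p : ℕ} (hp : p.Prime) {κ : ι}
    {σ : Type} [Fintype σ] (bad : σ → Set (ι → ZMod p × ZMod p)) (D : ℕ)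
    (hD : ∀ s, Nat.card ↥(poleSet κ p ∩ bad s) * (p - 1) ≤ D * Nat.card ↥(poleSet κ p))
    (hlarge : 2 * (Fintype.card σ * D) ≤ p - 1) :
    (1 / 2 : ℝ) * (1 / 2 : ℝ) ^ (2 * Fintype.card ι) / p ≤
      (Nat.card ↥{x | x ∈ poleSet κ p ∧ ∀ s, x ∉ bad s} : ℝ) / (p : ℝ) ^ (2 * Fintype.card ι) := by
  classical
  have : Fact p.Prime := ⟨hp⟩
  have hp0 : (0 : ℝ) < p := by exact_mod_cast hp.pos
  have hcard : ∀ A : Set (ι → ZMod p × ZMod p), Nat.card ↥A = (univ.filter (fun x => x ∈ A)).card := by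
    intro A
    rw [Nat.card_eq_fintype_card, ← Set.toFinset_card]
    congr 1
    ext x
    simp
  have h1 : (univ.filter (fun x : ι → ZMod p × ZMod p => x ∈ poleSet κ p)) ⊆
      (univ.filter (fun x => x ∈ {x | x ∈ poleSet κ p ∧ ∀ s, x ∉ bad s})) ∪
        univ.biUnion fun s : σ => univ.filter (fun x => x ∈ poleSet κ p ∩ bad s) := by
    intro x hx
    have hx' := (mem_filter.1 hx).2
    rw [mem_union]
    by_cases h : ∀ s, x ∉ bad s
    · left; exact mem_filter.2 ⟨mem_univ _, hx', h⟩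
    · right
      push Not at h
      obtain ⟨s, hs⟩ := h
      exact mem_biUnion.2 ⟨s, mem_univ _, mem_filter.2 ⟨mem_univ _, hx', hs⟩⟩
  have h2 := (card_le_card h1).trans ((card_union_le _ _).trans (Nat.add_le_add_left card_biUnion_le _))
  set P := Nat.card ↥(poleSet κ p) with hP
  set G := Nat.card ↥{x | x ∈ poleSet κ p ∧ ∀ s, x ∉ bad s} with hG
  have h2' : P ≤ G + ∑ s : σ, Nat.card ↥(poleSet κ p ∩ bad s) := by
    rw [hP, hG, hcard (poleSet κ p), hcard {x | x ∈ poleSet κ p ∧ ∀ s, x ∉ bad s},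
      Finset.sum_congr rfl fun s _ => hcard (poleSet κ p ∩ bad s)]
    refine h2.trans (le_of_eq ?_)
    congr!
  have h3 : (∑ s : σ, Nat.card ↥(poleSet κ p ∩ bad s)) * (p - 1) ≤ Fintype.card σ * D * P := by
    rw [sum_mul]
    refine (sum_le_sum fun s _ => hD s).trans (le_of_eq ?_)
    rw [sum_const, card_univ, smul_eq_mul, mul_assoc]
  have h4 : 2 * (∑ s : σ, Nat.card ↥(poleSet κ p ∩ bad s)) ≤ P := by
    have hp1 : 0 < p - 1 := Nat.sub_pos_of_lt hp.one_lt
    by_contra hcon
    rw [not_le] at hcon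
    have h5 : P * (p - 1) < 2 * (∑ s : σ, Nat.card ↥(poleSet κ p ∩ bad s)) * (p - 1) :=
      Nat.mul_lt_mul_of_pos_right hcon hp1
    have h6 : 2 * (∑ s : σ, Nat.card ↥(poleSet κ p ∩ bad s)) * (p - 1) ≤ P * (p - 1) := by
      calc 2 * (∑ s : σ, Nat.card ↥(poleSet κ p ∩ bad s)) * (p - 1)
          = 2 * ((∑ s : σ, Nat.card ↥(poleSet κ p ∩ bad s)) * (p - 1)) := by ring
        _ ≤ 2 * (Fintype.card σ * D * P) := Nat.mul_le_mul_left 2 h3
        _ = 2 * (Fintype.card σ * D) * P := by ring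
        _ ≤ (p - 1) * P := Nat.mul_le_mul_right P hlarge
        _ = P * (p - 1) := mul_comm _ _
    omega
  have h5 : P ≤ 2 * G := by omega
  have h6 := card_poleSet κ hp
  have h7 : (P : ℝ) ≤ 2 * G := by exact_mod_cast h5
  have h8 : (1 / 2 : ℝ) * ((P : ℝ) / (p : ℝ) ^ (2 * Fintype.card ι)) ≤
      (G : ℝ) / (p : ℝ) ^ (2 * Fintype.card ι) := by
    rw [mul_div_assoc']
    refine div_le_div_of_nonneg_right ?_ (by positivity)
    linarith
  refine le_trans ?_ h8
  rw [mul_div_assoc]
  exact mul_le_mul_of_nonneg_left h6 (by norm_num)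

end Pool.Agent.Helper11.ZP
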