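import Pool.Agent.Helper11.ZP.Domin

open Polynomial

namespace Pool.Agent.Helper11.ZP

/-- Homomorphisms to algebraically closed fields extend along integral homomorphisms. -/
theorem exists_lift {A R K : Type*} [CommRing A] [CommRing R] [Field K] [IsAlgClosed K]
    (φ : A →+* R) (hφ : φ.IsIntegral) (ψ : A →+* K) (h : RingHom.ker φ ≤ RingHom.ker ψ) :
    ∃ χ : R →+* K, χ.comp φ = ψ := by
  let _ := φ.toAlgebra
  have hint : Algebra.IsIntegral A R := ⟨hφ⟩
  have hPp : (RingHom.ker ψ).IsPrime := RingHom.ker_isPrime ψ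
  obtain ⟨Q, _, hQ, hQP⟩ := Ideal.exists_ideal_over_prime_of_isIntegral (RingHom.ker ψ)
    (⊥ : Ideal R) (by
      intro a ha
      exact h (by simpa [RingHom.algebraMap_toAlgebra] using ha))
  have hlies : Q.LiesOver (RingHom.ker ψ) := ⟨hQP.symm⟩
  let algK : Algebra (A ⧸ RingHom.ker ψ) K :=
    (Ideal.Quotient.lift (RingHom.ker ψ) ψ fun a ha => ha).toAlgebra
  have hinjK : Function.Injective (algebraMap (A ⧸ RingHom.ker ψ) K) := by
    rw [RingHom.algebraMap_toAlgebra]
    exact RingHom.lift_injective_of_ker_le_ideal _ (fun a ha => ha) le_rfl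
  have hf1 : Module.IsTorsionFree (A ⧸ RingHom.ker ψ) K :=
    Module.isTorsionFree_iff_algebraMap_injective.2 hinjK
  have hf2 : Module.IsTorsionFree (A ⧸ RingHom.ker ψ) (R ⧸ Q) :=
    Module.isTorsionFree_iff_faithfulSMul.2 inferInstance
  have hint' : Algebra.IsIntegral (A ⧸ RingHom.ker ψ) (R ⧸ Q) := by
    refine ⟨fun b => ?_⟩
    obtain ⟨r, rfl⟩ := Ideal.Quotient.mk_surjective b
    obtain ⟨q, hq, hq2⟩ := hφ r
    refine ⟨q.map (Ideal.Quotient.mk _), hq.map _, ?_⟩
    rw [eval₂_map]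
    have h1 : (algebraMap (A ⧸ RingHom.ker ψ) (R ⧸ Q)).comp (Ideal.Quotient.mk (RingHom.ker ψ)) =
        (Ideal.Quotient.mk Q).comp φ := by
      ext a
      rfl
    rw [h1, ← hom_eval₂, hq2, map_zero]
  let f : (R ⧸ Q) →ₐ[A ⧸ RingHom.ker ψ] K := IsAlgClosed.lift
  refine ⟨f.toRingHom.comp (Ideal.Quotient.mk Q), ?_⟩
  ext a
  have h2 := f.commutes (Ideal.Quotient.mk (RingHom.ker ψ) a)
  exact h2

section

variable (D : ℂ[X]) {K : Type*} [Field K] [Algebra ℂ K]

/-- Evaluation of a rational function with denominator a power of `D`. -/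
noncomputable def evD (t : K) (ht : aeval t D ≠ 0) : Localization.Away D →ₐ[ℂ] K :=
  IsLocalization.liftAlgHom (M := Submonoid.powers D) (f := aeval t) (by
    rintro ⟨_, n, rfl⟩
    have : aeval t (D ^ n) ≠ 0 := by rw [map_pow]; exact pow_ne_zero _ ht
    exact this.isUnit)

lemma evD_algebraMap (t : K) (ht : aeval t D ≠ 0) (f : ℂ[X]) :
    evD D t ht (algebraMap _ _ f) = aeval t f := by
  rw [evD, IsLocalization.liftAlgHom_apply, IsLocalization.lift_eq]
  rfl

/-- Every homomorphism is an evaluation. -/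
lemma exists_evD (χ : Localization.Away D →+* K)
    (hχ : ∀ a : ℂ, χ (algebraMap ℂ _ a) = algebraMap ℂ K a) :
    ∃ (t : K) (ht : aeval t D ≠ 0), ∀ r, χ r = evD D t ht r := by
  have h1 : ∀ f : ℂ[X], χ (algebraMap ℂ[X] (Localization.Away D) f) =
      aeval (χ (algebraMap ℂ[X] (Localization.Away D) X)) f := by
    intro f
    have : χ.comp (algebraMap ℂ[X] (Localization.Away D)) =
        (aeval (χ (algebraMap ℂ[X] (Localization.Away D) X)) : ℂ[X] →ₐ[ℂ] K).toRingHom := by
      apply Polynomial.ringHom_ext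
      · intro a
        have := hχ a
        rw [IsScalarTower.algebraMap_apply ℂ ℂ[X]] at this
        simpa using this
      · simp
    exact congrArg (fun g => g f) this
  have hu : IsUnit (algebraMap ℂ[X] (Localization.Away D) D) :=
    IsLocalization.map_units (M := Submonoid.powers D) _ ⟨D, Submonoid.mem_powers D⟩
  have ht : aeval (χ (algebraMap ℂ[X] (Localization.Away D) X)) D ≠ 0 := by
    rw [← h1]
    exact (hu.map χ).ne_zero
  refine ⟨_, ht, fun r => ?_⟩
  obtain ⟨⟨f, s⟩, hs⟩ := IsLocalization.surj (Submonoid.powers D) r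
  have hs' : IsUnit (algebraMap ℂ[X] (Localization.Away D) s) :=
    IsLocalization.map_units (M := Submonoid.powers D) _ s
  have h2 : χ (r * algebraMap _ _ (s : ℂ[X])) = evD D _ ht (r * algebraMap _ _ (s : ℂ[X])) := by
    rw [hs, h1, evD_algebraMap]
  rw [map_mul, map_mul, h1 s, evD_algebraMap] at h2
  have h3 : aeval (χ (algebraMap ℂ[X] (Localization.Away D) X)) (s : ℂ[X]) ≠ 0 := by
    rw [← h1]
    exact (hs'.map χ).ne_zero
  exact mul_right_cancel₀ h3 h2

end

section

variable {D : ℂ[X]} {n : ℕ} (x : Fin n → Localization.Away D)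

/-- The curve parametrized by `x`. -/
def curveOf : Set (Fin n → ℂ) := {y | ∃ (t : ℂ) (ht : aeval t D ≠ 0), ∀ i, y i = evD D t ht (x i)}

/-- Points of the curve over algebraically closed extensions. -/
theorem exists_param (hx : (MvPolynomial.aeval x : MvPolynomial (Fin n) ℂ →ₐ[ℂ] _).toRingHom.IsIntegral)
    {K : Type*} [Field K] [IsAlgClosed K] [Algebra ℂ K] (z : Fin n → K)
    (hz : ∀ f : MvPolynomial (Fin n) ℂ, (∀ y ∈ curveOf x, MvPolynomial.eval y f = 0) →
      MvPolynomial.aeval z f = 0) :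
    ∃ (t : K) (ht : aeval t D ≠ 0), ∀ i, z i = evD D t ht (x i) := by
  obtain ⟨χ, hχ⟩ := exists_lift _ hx (MvPolynomial.aeval z : MvPolynomial (Fin n) ℂ →ₐ[ℂ] K).toRingHom (by
    intro f hf
    rw [RingHom.mem_ker] at hf ⊢
    refine hz f ?_
    rintro y ⟨t, ht, hy⟩
    have h1 : MvPolynomial.eval y f = evD D t ht (MvPolynomial.aeval x f) := by
      rw [← MvPolynomial.aeval_eq_eval]
      have : (MvPolynomial.aeval y : MvPolynomial (Fin n) ℂ →ₐ[ℂ] ℂ) =
          (evD D t ht).comp (MvPolynomial.aeval x) := by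
        apply MvPolynomial.algHom_ext
        intro i
        simp [hy]
      rw [this]
      rfl
    rw [h1]
    have h2 : MvPolynomial.aeval x f = 0 := hf
    rw [h2, map_zero])
  obtain ⟨t, ht, h⟩ := exists_evD D χ (by
    intro a
    have := congrArg (fun g => g (MvPolynomial.C a)) hχ
    simpa using this)
  refine ⟨t, ht, fun i => ?_⟩
  rw [← h]
  have := congrArg (fun g => g (MvPolynomial.X i)) hχ
  simpa using this.symm

lemma isDomain_loc (hD : D ≠ 0) : IsDomain (Localization.Away D) :=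
  IsLocalization.isDomain_localization
    (Submonoid.powers_le.2 (mem_nonZeroDivisors_of_ne_zero hD))

lemma injective_loc (hD : D ≠ 0) : Function.Injective (algebraMap ℂ[X] (Localization.Away D)) :=
  IsLocalization.injective _ (M := Submonoid.powers D)
    (Submonoid.powers_le.2 (mem_nonZeroDivisors_of_ne_zero hD))

/-- Evaluations at complex points separate. -/
lemma eq_zero_of_evD (hD : D ≠ 0) (r : Localization.Away D)
    (h : ∀ (t : ℂ) (ht : aeval t D ≠ 0), evD D t ht r = 0) : r = 0 := by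
  obtain ⟨⟨f, s⟩, hs⟩ := IsLocalization.surj (Submonoid.powers D) r
  have hs' : IsUnit (algebraMap ℂ[X] (Localization.Away D) s) :=
    IsLocalization.map_units (M := Submonoid.powers D) _ s
  have h1 : f * D = 0 := by
    apply Polynomial.funext
    intro t
    rw [eval_mul, eval_zero]
    by_cases ht : aeval t D = 0
    · rw [coe_aeval_eq_eval] at ht
      rw [ht, mul_zero]
    · have h2 := congrArg (evD D t ht) hs
      rw [map_mul, h t ht, zero_mul, evD_algebraMap, coe_aeval_eq_eval] at h2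
      rw [← h2, zero_mul]
  have h2 : f = 0 := (mul_eq_zero.1 h1).resolve_right hD
  simp only at hs
  rw [h2, map_zero] at hs
  exact (hs'.mul_left_eq_zero).1 hs

lemma eval_evD (f : MvPolynomial (Fin n) ℂ) {y : Fin n → ℂ} {t : ℂ} {ht : aeval t D ≠ 0}
    (hy : ∀ i, y i = evD D t ht (x i)) :
    MvPolynomial.eval y f = evD D t ht (MvPolynomial.aeval x f) := by
  rw [← MvPolynomial.aeval_eq_eval]
  have : (MvPolynomial.aeval y : MvPolynomial (Fin n) ℂ →ₐ[ℂ] ℂ) =
      (evD D t ht).comp (MvPolynomial.aeval x) := by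
    apply MvPolynomial.algHom_ext
    intro i
    simp [hy]
  rw [this]
  rfl

lemma aeval_eq_zero_iff (hD : D ≠ 0) (f : MvPolynomial (Fin n) ℂ) :
    MvPolynomial.aeval x f = 0 ↔ ∀ y ∈ curveOf x, MvPolynomial.eval y f = 0 := by
  constructor
  · rintro h y ⟨t, ht, hy⟩
    rw [eval_evD x f hy, h, map_zero]
  · intro h
    apply eq_zero_of_evD hD
    intro t ht
    rw [← eval_evD x f (y := fun i => evD D t ht (x i)) (fun i => rfl)]
    exact h _ ⟨t, ht, fun i => rfl⟩

lemma vanishingIdeal_curveOf (hD : D ≠ 0) :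
    MvPolynomial.vanishingIdeal ℂ (curveOf x) =
      RingHom.ker (MvPolynomial.aeval x : MvPolynomial (Fin n) ℂ →ₐ[ℂ] _) := by
  ext f
  rw [MvPolynomial.mem_vanishingIdeal_iff, RingHom.mem_ker, aeval_eq_zero_iff x hD]
  simp only [MvPolynomial.aeval_eq_eval]

/-- The parametrized curve is closed and irreducible. -/
theorem isSubvariety_curveOf (hD : D ≠ 0)
    (hx : (MvPolynomial.aeval x : MvPolynomial (Fin n) ℂ →ₐ[ℂ] _).toRingHom.IsIntegral) :
    IsSubvariety (curveOf x) := by
  have := isDomain_loc hD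
  refine ⟨MvPolynomial.vanishingIdeal ℂ (curveOf x), ?_, ?_⟩
  · rw [vanishingIdeal_curveOf x hD]
    exact RingHom.ker_isPrime _
  · apply Set.Subset.antisymm
    · exact MvPolynomial.zeroLocus_vanishingIdeal_le _
    · intro y hy
      obtain ⟨t, ht, h⟩ := exists_param x hx y (fun f hf => hy f (by
        rw [MvPolynomial.mem_vanishingIdeal_iff]
        intro w hw
        rw [MvPolynomial.aeval_eq_eval]
        exact hf w hw))
      exact ⟨t, ht, h⟩

/-- The parametrized curve has dimension one. -/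
theorem dim_curveOf (hD : D ≠ 0)
    (hx : (MvPolynomial.aeval x : MvPolynomial (Fin n) ℂ →ₐ[ℂ] _).toRingHom.IsIntegral) :
    dim (curveOf x) = 1 := by
  have := isDomain_loc hD
  have hinj := injective_loc hD
  rw [dim, vanishingIdeal_curveOf x hD]
  set φ := (MvPolynomial.aeval x : MvPolynomial (Fin n) ℂ →ₐ[ℂ] Localization.Away D) with hφ
  let ι : (MvPolynomial (Fin n) ℂ ⧸ RingHom.ker φ) →ₐ[ℂ] Localization.Away D :=
    Ideal.kerLiftAlg φ
  have hι : Function.Injective ι := Ideal.kerLiftAlg_injective φ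
  let _ := ι.toRingHom.toAlgebra
  have htower : IsScalarTower ℂ (MvPolynomial (Fin n) ℂ ⧸ RingHom.ker φ) (Localization.Away D) :=
    IsScalarTower.of_algebraMap_eq fun a => (ι.commutes a).symm
  have hf1 : FaithfulSMul (MvPolynomial (Fin n) ℂ ⧸ RingHom.ker φ) (Localization.Away D) :=
    (faithfulSMul_iff_algebraMap_injective _ _).2 hι
  have hnt : Nontrivial (MvPolynomial (Fin n) ℂ ⧸ RingHom.ker φ) := by
    refine ⟨⟨0, 1, fun h => ?_⟩⟩
    have := congrArg ι h
    rw [map_zero, map_one] at this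
    exact zero_ne_one this
  have hf2 : FaithfulSMul ℂ (MvPolynomial (Fin n) ℂ ⧸ RingHom.ker φ) :=
    (faithfulSMul_iff_algebraMap_injective _ _).2 (algebraMap ℂ _).injective
  have hint : Algebra.IsIntegral (MvPolynomial (Fin n) ℂ ⧸ RingHom.ker φ) (Localization.Away D) := by
    refine ⟨fun r => ?_⟩
    obtain ⟨q, hq, hq2⟩ := hx r
    refine ⟨q.map (Ideal.Quotient.mk _), hq.map _, ?_⟩
    rw [eval₂_map]
    exact hq2
  have halg : Algebra.IsAlgebraic (MvPolynomial (Fin n) ℂ ⧸ RingHom.ker φ) (Localization.Away D) :=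
    inferInstance
  have h1 := trdeg_add_eq ℂ (MvPolynomial (Fin n) ℂ ⧸ RingHom.ker φ) (A := Localization.Away D)
  rw [trdeg_eq_zero (R := MvPolynomial (Fin n) ℂ ⧸ RingHom.ker φ) (A := Localization.Away D), add_zero] at h1
  have hf3 : FaithfulSMul ℂ[X] (Localization.Away D) :=
    (faithfulSMul_iff_algebraMap_injective _ _).2 hinj
  have halg2 : Algebra.IsAlgebraic ℂ[X] (Localization.Away D) :=
    IsLocalization.isAlgebraic _ (Submonoid.powers D)
  have h2 := trdeg_add_eq ℂ ℂ[X] (A := Localization.Away D)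
  rw [trdeg_eq_zero (R := ℂ[X]) (A := Localization.Away D), add_zero, Polynomial.trdeg_of_isDomain] at h2
  rw [h1, ← h2]
  simp

end

end Pool.Agent.Helper11.ZP
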