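import Pool.Agent.Helper11.ZP.ModPoly

open UpperHalfPlane

namespace Pool.Agent.Helper11.ZP

/-- `x` is a special point (singular modulus): `x = j(τ)` for an imaginary quadratic `τ`. -/
def IsSpecialPoint (x : ℂ) : Prop :=
  ∃ (τ : ℍ) (a b c : ℤ), a ≠ 0 ∧ (a : ℂ) * (τ : ℂ) ^ 2 + b * (τ : ℂ) + c = 0 ∧ jInv τ = x

/-- A subvariety of `Y(1)ⁿ = ℂⁿ`: an irreducible Zariski closed subset, i.e. the zero locus of a
prime ideal. -/
def IsSubvariety {n : ℕ} (V : Set (Fin n → ℂ)) : Prop :=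
  ∃ I : Ideal (MvPolynomial (Fin n) ℂ), I.IsPrime ∧ V = MvPolynomial.zeroLocus ℂ I

/-- The dimension of a subset of `ℂⁿ`: the transcendence degree over `ℂ` of its coordinate ring. -/
noncomputable def dim {n : ℕ} (V : Set (Fin n → ℂ)) : ℕ :=
  Cardinal.toNat
    (Algebra.trdeg ℂ (MvPolynomial (Fin n) ℂ ⧸ MvPolynomial.vanishingIdeal ℂ V))

/-- `A` is an irreducible component of `W`. -/
def IsComponent {n : ℕ} (A W : Set (Fin n → ℂ)) : Prop :=
  IsSubvariety A ∧ A ⊆ W ∧ ∀ B, IsSubvariety B → A ⊆ B → B ⊆ W → B = A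

/-- Data describing a special subvariety of `Y(1)ⁿ`: the coordinates `i` with `cls i = none` are
equal to special points `c i`, the remaining coordinates are partitioned into `r` nonempty classes,
and the coordinates of a class are `j(g i τ)`, for a common `τ ∈ ℍ` and integral matrices `g i`
of positive determinant. -/
structure SpecialData (n : ℕ) where
  r : ℕ
  cls : Fin n → Option (Fin r)
  surj : ∀ s : Fin r, ∃ i, cls i = some s
  c : Fin n → ℂ
  hc : ∀ i, cls i = none → IsSpecialPoint (c i)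
  g : Fin n → Matrix (Fin 2) (Fin 2) ℤ
  hg : ∀ i, 0 < (g i).det

/-- The special subvariety defined by the data. -/
def SpecialData.carrier {n : ℕ} (S : SpecialData n) : Set (Fin n → ℂ) :=
  {x | (∀ i, S.cls i = none → x i = S.c i) ∧
    ∀ s : Fin S.r, ∃ τ : ℍ, ∀ i, S.cls i = some s →
      ∃ τ' : ℍ, (τ' : ℂ) * (S.g i 1 0 * (τ : ℂ) + S.g i 1 1) = S.g i 0 0 * (τ : ℂ) + S.g i 0 1 ∧
        x i = jInv τ'}

/-- `A` is an atypical subvariety of `V`. -/
def IsAtypical {n : ℕ} (V A : Set (Fin n → ℂ)) : Prop :=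
  ∃ S : SpecialData n, IsComponent A (V ∩ S.carrier) ∧ dim V + dim S.carrier < dim A + n

end Pool.Agent.Helper11.ZP
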