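import Pool.Agent.Helper11.ZP.RatBox

open Finset

namespace Pool.Agent.Helper11.ZP

/-- The residues of numerators and denominators. -/
def res (p : ℕ) {ι : Type} (θ : ι → ℚ) : ι → ZMod p × ZMod p :=
  fun i => (((θ i).num : ZMod p), ((θ i).den : ZMod p))

lemma card_class_le {N : ℕ} (hN : 0 < N) (a b v : ℤ) (hab : a ≤ b) :
    (((Icc a b).filter (fun x => (N : ℤ) ∣ x - v)).card : ℝ) ≤ ((b : ℝ) - a) / N + 1 := by
  have hN' : (0 : ℤ) < N := by exact_mod_cast hN
  have h1 : ((Icc a b).filter (fun x => (N : ℤ) ∣ x - v)).card ≤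
      (range (((b - a) / N).toNat + 1)).card := by
    refine card_le_card_of_injOn (fun x => ((x - a) / N).toNat) ?_ ?_
    · intro x hx
      rw [mem_coe, mem_filter, mem_Icc] at hx
      rw [mem_coe, mem_range]
      have h2 : (x - a) / (N : ℤ) ≤ (b - a) / N := Int.ediv_le_ediv hN' (by omega)
      have h3 : 0 ≤ (x - a) / (N : ℤ) := Int.ediv_nonneg (by omega) hN'.le
      simp only
      omega
    · intro x hx y hy hxy
      rw [mem_coe, mem_filter, mem_Icc] at hx hy
      simp only at hxy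
      have h3 : 0 ≤ (x - a) / (N : ℤ) := Int.ediv_nonneg (by omega) hN'.le
      have h4 : 0 ≤ (y - a) / (N : ℤ) := Int.ediv_nonneg (by omega) hN'.le
      have h5 : (x - a) / (N : ℤ) = (y - a) / (N : ℤ) := by omega
      have h6 : (N : ℤ) ∣ (x - a) - (y - a) := by
        have := dvd_sub hx.2 hy.2
        rwa [sub_sub_sub_cancel_right, ← sub_sub_sub_cancel_right x y a] at this
      have h7 : (x - a) % (N : ℤ) = (y - a) % (N : ℤ) := (Int.emod_emod_of_dvd _ dvd_rfl ▸
        (Int.emod_emod_of_dvd (x - a) (dvd_refl (N : ℤ)))) ▸ (Int.emod_eq_emod_iff_emod_sub_eq_zero.2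
          (Int.emod_eq_zero_of_dvd h6))
      have h8 := Int.mul_ediv_add_emod (x - a) N
      have h9 := Int.mul_ediv_add_emod (y - a) N
      rw [h5, h7, h9] at h8
      omega
  rw [card_range] at h1
  have h2 : (((((b - a) / N).toNat : ℕ) : ℤ) : ℝ) ≤ ((b : ℝ) - a) / N := by
    rw [Int.toNat_of_nonneg (Int.ediv_nonneg (by omega) hN'.le)]
    have hNr : (0 : ℝ) < N := by exact_mod_cast hN
    rw [le_div_iff₀ hNr]
    have := Int.ediv_mul_le (b - a) hN'.ne'
    exact_mod_cast this
  have h3 : ((((Icc a b).filter (fun x => (N : ℤ) ∣ x - v)).card : ℕ) : ℝ) ≤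
      ((((b - a) / N).toNat + 1 : ℕ) : ℝ) := by exact_mod_cast h1
  push_cast at h2 h3
  linarith

lemma fiber_bound {N : ℕ} (hN : 0 < N) {H : ℕ} (hH : N ≤ H) (hH2 : 2 ≤ H) (v : ℤ × ℤ) :
    (((Icc (-(H : ℤ)) H ×ˢ Icc (1 : ℤ) H).filter
      (fun z => (N : ℤ) ∣ z.1 - v.1 ∧ (N : ℤ) ∣ z.2 - v.2)).card : ℝ) ≤
      32 / (N : ℝ) ^ 2 * ((ratBox H).card : ℝ) := by
  rw [filter_product (fun x => (N : ℤ) ∣ x - v.1) (fun x => (N : ℤ) ∣ x - v.2), card_product]
  push_cast
  have hNr : (0 : ℝ) < N := by exact_mod_cast hN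
  have hHr : (0 : ℝ) < H := by exact_mod_cast (show 0 < H by omega)
  have hHN : (1 : ℝ) ≤ H / N := by
    rw [one_le_div hNr]; exact_mod_cast hH
  have h1 := card_class_le hN (-(H : ℤ)) H v.1 (by omega)
  have h2 := card_class_le hN 1 H v.2 (by omega)
  push_cast at h1 h2
  have h3 : ((H : ℝ) - -(H : ℝ)) / N + 1 ≤ 4 * (H / N) := by
    have : ((H : ℝ) - -(H : ℝ)) / N = 2 * (H / N) := by ring
    rw [this]; linarith
  have h4 : ((H : ℝ) - 1) / N + 1 ≤ 2 * (H / N) := by
    have : ((H : ℝ) - 1) / N ≤ H / N := div_le_div_of_nonneg_right (by linarith) hNr.le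
    linarith
  have h5 := card_ratBox_ge H hH2
  calc _ ≤ (4 * ((H : ℝ) / N)) * (2 * (H / N)) :=
        mul_le_mul (h1.trans h3) (h2.trans h4) (by positivity) (by positivity)
    _ = 32 / (N : ℝ) ^ 2 * ((H : ℝ) ^ 2 / 4) := by field_simp; ring
    _ ≤ _ := mul_le_mul_of_nonneg_left h5 (by positivity)

open Classical in
/-- The number of tuples avoiding given local conditions at finitely many primes. -/
theorem count_bad {ι : Type} [Fintype ι] [DecidableEq ι] (W : Finset ℕ) (hW : ∀ p ∈ W, p.Prime)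
    (E : ∀ p : ℕ, Set (ι → ZMod p × ZMod p)) {H : ℕ} (hH : ∏ p ∈ W, p ≤ H) (hH2 : 2 ≤ H) :
    (((qBox ι H).filter (fun θ => ∀ p ∈ W, res p θ ∉ E p)).card : ℝ) ≤
      32 ^ Fintype.card ι * (∏ p ∈ W, (1 - (Nat.card (E p) : ℝ) / (p : ℝ) ^ (2 * Fintype.card ι))) *
        ((qBox ι H).card : ℝ) := by
  set N := ∏ p ∈ W, p with hN
  have hN0 : 0 < N := Finset.prod_pos fun p hp => (hW p hp).pos
  have hNr : (0 : ℝ) < N := by exact_mod_cast hN0
  let inst1 : ∀ p : {p // p ∈ W}, Fintype (ZMod p.1) := fun p =>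
    @ZMod.fintype p.1 ⟨(hW p.1 p.2).ne_zero⟩
  set s := (qBox ι H).filter (fun θ => ∀ p ∈ W, res p θ ∉ E p) with hs
  let f : (ι → ℚ) → (∀ p : {p // p ∈ W}, (ι → ZMod p.1 × ZMod p.1)) := fun θ p => res p.1 θ
  have him : s.image f ⊆ Fintype.piFinset fun p : {p // p ∈ W} =>
      (univ : Finset (ι → ZMod p.1 × ZMod p.1)).filter (fun x => x ∉ E p.1) := by
    intro g hg
    rw [mem_image] at hg
    obtain ⟨θ, hθ, rfl⟩ := hg
    rw [Fintype.mem_piFinset]
    intro p
    rw [mem_filter]
    exact ⟨mem_univ _, (mem_filter.1 hθ).2 p.1 p.2⟩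
  have hfib : ∀ g ∈ s.image f, ((s.filter (fun θ => f θ = g)).card : ℝ) ≤
      (32 / (N : ℝ) ^ 2 * ((ratBox H).card : ℝ)) ^ Fintype.card ι := by
    intro g hg
    rw [mem_image] at hg
    obtain ⟨θ₀, hθ₀, rfl⟩ := hg
    have h1 : (s.filter (fun θ => f θ = f θ₀)).card ≤
        (Fintype.piFinset fun i : ι => (Icc (-(H : ℤ)) H ×ˢ Icc (1 : ℤ) H).filter
          (fun z => (N : ℤ) ∣ z.1 - (θ₀ i).num ∧ (N : ℤ) ∣ z.2 - ((θ₀ i).den : ℤ))).card := by
      refine card_le_card_of_injOn (fun θ i => ((θ i).num, ((θ i).den : ℤ))) ?_ ?_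
      · intro θ hθ
        rw [mem_coe, mem_filter, hs, mem_filter, qBox, Fintype.mem_piFinset] at hθ
        rw [mem_coe, Fintype.mem_piFinset]
        intro i
        rw [mem_filter]
        refine ⟨num_den_mem (hθ.1.1 i), ?_, ?_⟩
        · rw [hN]
          push_cast
          refine Finset.prod_dvd_of_coprime ?_ ?_
          · intro p hp q hq hpq
            exact Nat.isCoprime_iff_coprime.2 ((Nat.coprime_primes (hW p hp) (hW q hq)).2 hpq)
          · intro p hp
            have h2 := congrFun (congrFun hθ.2 ⟨p, hp⟩) i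
            have h3 := congrArg Prod.fst h2
            exact (ZMod.intCast_eq_intCast_iff_dvd_sub _ _ _).1 h3.symm
        · rw [hN]
          push_cast
          refine Finset.prod_dvd_of_coprime ?_ ?_
          · intro p hp q hq hpq
            exact Nat.isCoprime_iff_coprime.2 ((Nat.coprime_primes (hW p hp) (hW q hq)).2 hpq)
          · intro p hp
            have h2 := congrFun (congrFun hθ.2 ⟨p, hp⟩) i
            have h3 := congrArg Prod.snd h2
            have h4 : (((θ i).den : ℤ) : ZMod p) = (((θ₀ i).den : ℤ) : ZMod p) := by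
              simpa [f, res] using h3
            exact (ZMod.intCast_eq_intCast_iff_dvd_sub _ _ _).1 h4.symm
      · intro θ _ θ' _ h
        funext i
        have h1 := congrFun h i
        simp only [Prod.mk.injEq] at h1
        exact Rat.ext h1.1 (by exact_mod_cast h1.2)
    have h2 : ((Fintype.piFinset fun i : ι => (Icc (-(H : ℤ)) H ×ˢ Icc (1 : ℤ) H).filter
          (fun z => (N : ℤ) ∣ z.1 - (θ₀ i).num ∧ (N : ℤ) ∣ z.2 - ((θ₀ i).den : ℤ))).card : ℝ) ≤
        (32 / (N : ℝ) ^ 2 * ((ratBox H).card : ℝ)) ^ Fintype.card ι := by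
      rw [Fintype.card_piFinset]
      push_cast
      rw [← Finset.card_univ, ← Finset.prod_const]
      refine Finset.prod_le_prod (fun i _ => by positivity) fun i _ => ?_
      exact fiber_bound hN0 hH hH2 ((θ₀ i).num, ((θ₀ i).den : ℤ))
    exact (Nat.cast_le.2 h1).trans h2
  have hcardim : ((s.image f).card : ℝ) ≤
      ∏ p ∈ W, ((p : ℝ) ^ (2 * Fintype.card ι) - (Nat.card (E p) : ℝ)) := by
    have h1 := card_le_card him
    rw [Fintype.card_piFinset] at h1
    have h2 : ∀ p : {p // p ∈ W},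
        (((univ : Finset (ι → ZMod p.1 × ZMod p.1)).filter (fun x => x ∉ E p.1)).card : ℝ) =
          (p.1 : ℝ) ^ (2 * Fintype.card ι) - (Nat.card (E p.1) : ℝ) := by
      intro p
      have e1 := Finset.card_filter_add_card_filter_not (s := (univ : Finset (ι → ZMod p.1 × ZMod p.1)))
        (fun x => x ∈ E p.1)
      have e2 : (univ : Finset (ι → ZMod p.1 × ZMod p.1)).card = p.1 ^ (2 * Fintype.card ι) := by
        rw [Finset.card_univ, Fintype.card_fun, Fintype.card_prod, ZMod.card, ← sq, ← pow_mul]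
      have e3 : Nat.card (E p.1) =
          ((univ : Finset (ι → ZMod p.1 × ZMod p.1)).filter (fun x => x ∈ E p.1)).card := by
        rw [Nat.card_eq_fintype_card, ← Set.toFinset_card]
        congr 1
        ext x
        simp
      rw [e2, ← e3] at e1
      have e4 : ((Nat.card (E p.1) : ℕ) : ℝ) +
          (((univ : Finset (ι → ZMod p.1 × ZMod p.1)).filter (fun x => x ∉ E p.1)).card : ℝ) =
          ((p.1 ^ (2 * Fintype.card ι) : ℕ) : ℝ) := by exact_mod_cast e1
      push_cast at e4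
      linarith
    have h3 : ((s.image f).card : ℝ) ≤ ∏ p : {p // p ∈ W},
        (((univ : Finset (ι → ZMod p.1 × ZMod p.1)).filter (fun x => x ∉ E p.1)).card : ℝ) := by
      exact_mod_cast h1
    refine h3.trans (le_of_eq ?_)
    rw [← Finset.prod_coe_sort W]
    exact Finset.prod_congr rfl fun p _ => h2 p
  have hscard : (s.card : ℝ) = ∑ g ∈ s.image f, ((s.filter (fun θ => f θ = g)).card : ℝ) := by
    exact_mod_cast Finset.card_eq_sum_card_image f s
  rw [hscard]
  refine (Finset.sum_le_sum hfib).trans ?_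
  rw [Finset.sum_const, nsmul_eq_mul]
  refine (mul_le_mul_of_nonneg_right hcardim (by positivity)).trans (le_of_eq ?_)
  have hq : ((qBox ι H).card : ℝ) = ((ratBox H).card : ℝ) ^ Fintype.card ι := by
    rw [qBox, Fintype.card_piFinset]
    push_cast
    rw [Finset.prod_const, Finset.card_univ]
  have hNpow : ((N : ℝ) ^ 2) ^ Fintype.card ι = ∏ p ∈ W, (p : ℝ) ^ (2 * Fintype.card ι) := by
    rw [← pow_mul, hN]
    push_cast
    rw [Finset.prod_pow]
  have hprod : ∏ p ∈ W, (1 - (Nat.card (E p) : ℝ) / (p : ℝ) ^ (2 * Fintype.card ι)) =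
      (∏ p ∈ W, ((p : ℝ) ^ (2 * Fintype.card ι) - (Nat.card (E p) : ℝ))) /
        ∏ p ∈ W, (p : ℝ) ^ (2 * Fintype.card ι) := by
    rw [← Finset.prod_div_distrib]
    refine Finset.prod_congr rfl fun p hp => ?_
    have : (0 : ℝ) < p := by exact_mod_cast (hW p hp).pos
    field_simp
  rw [hq, hprod, ← hNpow, mul_pow, div_pow]
  field_simp

/-- The sum of the reciprocals of the primes beyond any bound diverges. -/
lemma exists_sum_primes (P₀ : ℕ) (B : ℝ) : ∃ Y : ℕ,
    B ≤ ∑ p ∈ (range Y).filter (fun p => p.Prime ∧ P₀ ≤ p), (1 : ℝ) / p := by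
  have h1 := not_summable_one_div_on_primes
  rw [not_summable_iff_tendsto_nat_atTop_of_nonneg (by
    intro n
    refine Set.indicator_nonneg (fun m _ => ?_) n
    positivity)] at h1
  obtain ⟨Y, hY⟩ := (h1.eventually_ge_atTop (B + ∑ p ∈ range P₀, (1 : ℝ) / p)).exists
  refine ⟨Y, ?_⟩
  have h2 : ∑ n ∈ range Y, Set.indicator {p : ℕ | p.Prime} (fun n : ℕ => (1 : ℝ) / n) n ≤
      ∑ p ∈ (range Y).filter (fun p => p.Prime ∧ P₀ ≤ p), (1 : ℝ) / p + ∑ p ∈ range P₀, (1 : ℝ) / p := by
    rw [Finset.sum_filter, ← Finset.sum_filter_add_sum_filter_not (range Y) (fun n => P₀ ≤ n)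
      (fun n => Set.indicator {p : ℕ | p.Prime} (fun n : ℕ => (1 : ℝ) / n) n)]
    refine add_le_add ?_ ?_
    · rw [Finset.sum_filter]
      refine Finset.sum_le_sum fun n _ => ?_
      by_cases h3 : P₀ ≤ n
      · by_cases h4 : n.Prime
        · simp [h3, h4, Set.indicator]
        · simp [h3, h4, Set.indicator]
      · simp [h3]
    · refine (Finset.sum_le_sum (g := fun n : ℕ => (1 : ℝ) / n) fun n _ => ?_).trans
        (Finset.sum_le_sum_of_subset_of_nonneg ?_ fun n _ _ => by positivity)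
      · exact Set.indicator_le_self' (fun _ _ => by positivity) _
      · intro n hn
        rw [mem_filter] at hn
        rw [mem_range]
        omega
  linarith

open Classical in
/-- If the local conditions hold with probability at least `c / p` at every large prime `p`, then
almost every tuple satisfies the condition for some prime. -/
theorem density_one {ι : Type} [Fintype ι] [DecidableEq ι] (E : ∀ p : ℕ, Set (ι → ZMod p × ZMod p))
    {c : ℝ} (hc : 0 < c) (P₀ : ℕ)
    (hE : ∀ p, p.Prime → P₀ ≤ p → c / p ≤ (Nat.card (E p) : ℝ) / (p : ℝ) ^ (2 * Fintype.card ι))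
    {ε : ℝ} (hε : 0 < ε) :
    ∀ᶠ H : ℕ in Filter.atTop,
      (((qBox ι H).filter (fun θ => ∀ p, p.Prime → P₀ ≤ p → res p θ ∉ E p)).card : ℝ) ≤
        ε * ((qBox ι H).card : ℝ) := by
  set A : ℝ := 32 ^ Fintype.card ι with hA
  have hApos : 0 < A := by positivity
  obtain ⟨Y, hY⟩ := exists_sum_primes P₀ ((Real.log (A / ε)) / c)
  set W := (range Y).filter (fun p => p.Prime ∧ P₀ ≤ p) with hW
  have hWp : ∀ p ∈ W, p.Prime := fun p hp => (mem_filter.1 hp).2.1
  have hWp2 : ∀ p ∈ W, P₀ ≤ p := fun p hp => (mem_filter.1 hp).2.2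
  have hprod : ∏ p ∈ W, (1 - (Nat.card (E p) : ℝ) / (p : ℝ) ^ (2 * Fintype.card ι)) ≤ ε / A := by
    have h1 : ∏ p ∈ W, (1 - (Nat.card (E p) : ℝ) / (p : ℝ) ^ (2 * Fintype.card ι)) ≤
        ∏ p ∈ W, Real.exp (-(c * (1 / p))) := by
      refine Finset.prod_le_prod (fun p hp => ?_) fun p hp => ?_
      · have hpp := hWp p hp
        have hp0 : (0 : ℝ) < p := by exact_mod_cast hpp.pos
        rw [sub_nonneg, div_le_one (by positivity)]
        have inst : Fintype (ZMod p) := @ZMod.fintype p ⟨hpp.ne_zero⟩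
        have h2 : Nat.card (E p) ≤ Nat.card (ι → ZMod p × ZMod p) :=
          Nat.card_le_card_of_injective _ Subtype.val_injective
        have h3 : Nat.card (ι → ZMod p × ZMod p) = p ^ (2 * Fintype.card ι) := by
          rw [Nat.card_eq_fintype_card, Fintype.card_fun, Fintype.card_prod]
          have : Fintype.card (ZMod p) = p := by
            have := @ZMod.card p inst
            exact this
          rw [this, ← sq, ← pow_mul]
        rw [h3] at h2
        exact_mod_cast h2
      · have h2 := hE p (hWp p hp) (hWp2 p hp)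
        have h3 := Real.one_sub_le_exp_neg (c * (1 / (p : ℝ)))
        have h4 : c * (1 / (p : ℝ)) = c / p := by ring
        linarith
    refine h1.trans ?_
    rw [← Real.exp_sum, Finset.sum_neg_distrib, ← Finset.mul_sum]
    have h5 : Real.log (A / ε) ≤ c * ∑ p ∈ W, 1 / (p : ℝ) := by
      rw [div_le_iff₀ hc] at hY
      linarith
    calc Real.exp (-(c * ∑ p ∈ W, 1 / (p : ℝ))) ≤ Real.exp (-(Real.log (A / ε))) :=
          Real.exp_le_exp.2 (by linarith)
      _ = ε / A := by
          rw [Real.exp_neg, Real.exp_log (by positivity), inv_div]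
  filter_upwards [Filter.eventually_ge_atTop (∏ p ∈ W, p), Filter.eventually_ge_atTop 2] with H hH hH2
  have h1 := count_bad W hWp E hH hH2
  have h2 : ((qBox ι H).filter (fun θ => ∀ p, p.Prime → P₀ ≤ p → res p θ ∉ E p)).card ≤
      ((qBox ι H).filter (fun θ => ∀ p ∈ W, res p θ ∉ E p)).card :=
    card_le_card (monotone_filter_right _ fun θ _ h p hp => h p (hWp p hp) (hWp2 p hp))
  refine (Nat.cast_le.2 h2).trans (h1.trans ?_)
  refine mul_le_mul_of_nonneg_right ?_ (by positivity)
  calc A * _ ≤ A * (ε / A) := mul_le_mul_of_nonneg_left hprod hApos.le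
    _ = ε := by field_simp

end Pool.Agent.Helper11.ZP
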