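import Pool.Agent.Helper11.ZP.Conseq

namespace Pool.Agent.Helper11.ZP

section

variable {K : Type*} [Field K] (O : ValuationSubring K) {p : ℕ}

lemma mul_lt_one' {Γ : Type*} [LinearOrderedCommGroupWithZero Γ] {a b : Γ} (ha : a ≤ 1) (hb : b < 1) :
    a * b < 1 :=
  lt_of_le_of_lt (mul_le_mul' ha le_rfl) (by rwa [one_mul])

lemma val_int_le (a : ℤ) : O.valuation (a : K) ≤ 1 := by
  rw [O.valuation_le_one_iff]
  exact intCast_mem O a

lemma val_p_lt (hpO : (p : K) ∈ O.nonunits) : O.valuation (p : K) < 1 :=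
  (ValuationSubring.mem_nonunits_iff O).1 hpO

lemma val_int_eq (hp : p.Prime) (hpO : (p : K) ∈ O.nonunits) {a : ℤ} (ha : ¬ (p : ℤ) ∣ a) :
    O.valuation (a : K) = 1 := by
  refine le_antisymm (val_int_le O a) ?_
  by_contra hlt
  push Not at hlt
  have hcop : IsCoprime (p : ℤ) a := (Nat.prime_iff_prime_int.1 hp).coprime_iff_not_dvd.2 ha
  obtain ⟨u, w, h⟩ := hcop
  have h1 : (u : K) * (p : K) + (w : K) * (a : K) = 1 := by exact_mod_cast congrArg (Int.cast : ℤ → K) h
  have h2 : O.valuation ((u : K) * (p : K) + (w : K) * (a : K)) < 1 := by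
    refine Valuation.map_add_lt _ ?_ ?_
    · rw [map_mul]
      exact mul_lt_one' (val_int_le O u) (val_p_lt O hpO)
    · rw [map_mul]
      exact mul_lt_one' (val_int_le O w) hlt
  rw [h1, map_one] at h2
  exact lt_irrefl _ h2

lemma val_int_lt (hpO : (p : K) ∈ O.nonunits) {a : ℤ} (ha : (p : ℤ) ∣ a) :
    O.valuation (a : K) < 1 := by
  obtain ⟨b, rfl⟩ := ha
  push_cast
  rw [map_mul, mul_comm]
  exact mul_lt_one' (val_int_le O b) (val_p_lt O hpO)

/-- A polynomial in `n` variables with integer coefficients and a dominating monomial with respect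
to the set `J` of nonintegral coordinates does not vanish. -/
theorem dominant (hp : p.Prime) (hpO : (p : K) ∈ O.nonunits) {n : ℕ} (d : Fin n → ℕ)
    (a : (∀ i, Fin (d i + 1)) → ℤ) (x : Fin n → K) (J : Finset (Fin n))
    (hJ : ∀ i, i ∈ J ↔ x i ∉ O) (eJ : ∀ i, Fin (d i + 1))
    (heJ : ∀ i, (eJ i : ℕ) = if i ∈ J then d i else 0) (h1 : ¬ (p : ℤ) ∣ a eJ)
    (h2 : ∀ e, ¬ (p : ℤ) ∣ a e → e ≠ eJ → ∃ i ∈ J, (e i : ℕ) < d i) :
    ∑ e, (a e : K) * ∏ i, x i ^ (e i : ℕ) ≠ 0 := by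
  classical
  have hx1 : ∀ i, i ∈ J → 1 < O.valuation (x i) := by
    intro i hi
    have := (hJ i).1 hi
    rw [← O.valuation_le_one_iff] at this
    exact not_le.1 this
  have hx2 : ∀ i, i ∉ J → O.valuation (x i) ≤ 1 := by
    intro i hi
    rw [O.valuation_le_one_iff]
    by_contra hcon
    exact hi ((hJ i).2 hcon)
  set w : Fin n → O.ValueGroup := fun i => O.valuation (x i) ^ (eJ i : ℕ) with hw
  have hw0 : ∀ i, w i ≠ 0 := by
    intro i
    by_cases hi : i ∈ J
    · exact pow_ne_zero _ (ne_of_gt (lt_trans zero_lt_one (hx1 i hi)))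
    · simp [hw, heJ, hi]
  have hle : ∀ (e : ∀ i, Fin (d i + 1)) i, O.valuation (x i) ^ (e i : ℕ) ≤ w i := by
    intro e i
    by_cases hi : i ∈ J
    · simp only [hw, heJ, hi, if_true]
      exact pow_le_pow_right₀ (hx1 i hi).le (Nat.lt_succ_iff.1 (e i).2)
    · simp only [hw, heJ, hi, if_false, pow_zero]
      exact pow_le_one' (hx2 i hi) _
  have hlt : ∀ (e : ∀ i, Fin (d i + 1)) i, i ∈ J → (e i : ℕ) < d i →
      O.valuation (x i) ^ (e i : ℕ) < w i := by
    intro e i hi h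
    simp only [hw, heJ, hi, if_true]
    exact pow_lt_pow_right₀ (hx1 i hi) h
  set M := ∏ i, w i with hM
  have hM0 : M ≠ 0 := Finset.prod_ne_zero_iff.2 fun i _ => hw0 i
  have hMpos : 0 < M := zero_lt_iff.2 hM0
  have hmon_le : ∀ e : (∀ i, Fin (d i + 1)), O.valuation (∏ i, x i ^ (e i : ℕ)) ≤ M := by
    intro e
    rw [map_prod]
    simp only [map_pow]
    exact Finset.prod_le_prod' fun i _ => hle e i
  have hmon_lt : ∀ e : (∀ i, Fin (d i + 1)), (∃ i ∈ J, (e i : ℕ) < d i) →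
      O.valuation (∏ i, x i ^ (e i : ℕ)) < M := by
    rintro e ⟨i, hi, h⟩
    rw [map_prod]
    simp only [map_pow]
    rw [hM, ← Finset.mul_prod_erase _ _ (Finset.mem_univ i), ← Finset.mul_prod_erase _ w (Finset.mem_univ i)]
    refine lt_of_le_of_lt (mul_le_mul' le_rfl (Finset.prod_le_prod' fun j _ => hle e j)) ?_
    exact mul_lt_mul_of_pos_right (hlt e i hi h)
      (zero_lt_iff.2 (Finset.prod_ne_zero_iff.2 fun j _ => hw0 j))
  have hmain : O.valuation ((a eJ : K) * ∏ i, x i ^ (eJ i : ℕ)) = M := by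
    rw [map_mul, val_int_eq O hp hpO h1, one_mul, map_prod]
    simp only [map_pow]
    rfl
  have hrest : O.valuation (∑ e ∈ Finset.univ.erase eJ, (a e : K) * ∏ i, x i ^ (e i : ℕ)) < M := by
    refine Valuation.map_sum_lt _ hM0 fun e he => ?_
    rw [Finset.mem_erase] at he
    rw [map_mul]
    by_cases hpe : (p : ℤ) ∣ a e
    · refine lt_of_le_of_lt (mul_le_mul' le_rfl (hmon_le e)) ?_
      calc O.valuation (a e : K) * M < 1 * M :=
            mul_lt_mul_of_pos_right (val_int_lt O hpO hpe) hMpos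
        _ = M := one_mul M
    · refine lt_of_le_of_lt (mul_le_mul' (val_int_le O _) le_rfl) ?_
      rw [one_mul]
      exact hmon_lt e (h2 e hpe he.1)
  intro h0
  rw [← Finset.add_sum_erase _ _ (Finset.mem_univ eJ)] at h0
  have h3 : (a eJ : K) * ∏ i, x i ^ (eJ i : ℕ) =
      -∑ e ∈ Finset.univ.erase eJ, (a e : K) * ∏ i, x i ^ (e i : ℕ) := by
    linear_combination h0
  rw [h3, Valuation.map_neg] at hmain
  exact absurd hmain (ne_of_lt hrest)

end

end Pool.Agent.Helper11.ZP
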