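import Pool.Agent.Helper11.ZP.Domin

open Finset

namespace Pool.Agent.Helper11.ZP

/-- The polynomial of degree at most `d i` in the variable `T i` with integer coefficients `a`. -/
noncomputable def poly {n : ℕ} (d : Fin n → ℕ) (a : (∀ i, Fin (d i + 1)) → ℤ) :
    MvPolynomial (Fin n) ℂ :=
  ∑ e, MvPolynomial.C (a e : ℂ) * ∏ i, MvPolynomial.X i ^ (e i : ℕ)

lemma aeval_poly {n : ℕ} (d : Fin n → ℕ) (a : (∀ i, Fin (d i + 1)) → ℤ) {K : Type*} [Field K]
    [Algebra ℂ K] (x : Fin n → K) :
    MvPolynomial.aeval x (poly d a) = ∑ e, (a e : K) * ∏ i, x i ^ (e i : ℕ) := by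
  rw [poly, map_sum]
  refine sum_congr rfl fun e _ => ?_
  rw [map_mul, map_prod, MvPolynomial.aeval_C, map_intCast]
  simp only [map_pow, MvPolynomial.aeval_X]

section

variable {n k : ℕ} (c : Fin n → Option (Fin k))

/-- `J` is a union of classes of `c` not containing the index `none`. -/
def Compat (J : Finset (Fin n)) : Prop :=
  (∀ i ∈ J, c i ≠ none) ∧ ∀ i j, c i = c j → (i ∈ J ↔ j ∈ J)

lemma level_le {J : Finset (Fin n)} (hJ : Compat c J) : (J.image c).card ≤ k := by
  have h1 : J.image c ⊆ (univ : Finset (Fin k)).image some := by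
    intro o ho
    rw [mem_image] at ho
    obtain ⟨i, hi, rfl⟩ := ho
    rcases h : c i with _ | s
    · exact absurd h (hJ.1 i hi)
    · exact mem_image_of_mem _ (mem_univ s)
  refine (card_le_card h1).trans ?_
  refine card_image_le.trans ?_
  simp

lemma eq_of_subset {J J' : Finset (Fin n)} (hJ : Compat c J)
    (hcard : (J.image c).card = (J'.image c).card) (h : J ⊆ J') : J = J' := by
  refine Subset.antisymm h fun i hi => ?_
  have h1 : J.image c = J'.image c := eq_of_subset_of_card_le (image_subset_image h) hcard.ge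
  have h2 : c i ∈ J.image c := by rw [h1]; exact mem_image_of_mem _ hi
  rw [mem_image] at h2
  obtain ⟨j, hj, hji⟩ := h2
  exact (hJ.2 j i hji).1 hj

open Classical in
/-- The target residues. -/
noncomputable def resid (d : Fin (k + 1) → Fin n → ℕ) (l : Fin (k + 1)) (e : ∀ i, Fin (d l i + 1)) : ℕ :=
  if ∃ J : Finset (Fin n), Compat c J ∧ (J.image c).card = l ∧
    ∀ i, (e i : ℕ) = if i ∈ J then d l i else 0 then 1 else 0

open Classical in
/-- Polynomials with the target residues exclude the pattern `c`. -/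
theorem excluded_of_resid (d : Fin (k + 1) → Fin n → ℕ) (hd : ∀ l i, 1 ≤ d l i)
    (a : ∀ l : Fin (k + 1), (∀ i, Fin (d l i + 1)) → ℤ) {p : ℕ} (hp : p.Prime)
    (ha : ∀ l e, (p : ℤ) ∣ a l e - (resid c d l e : ℕ)) :
    Excluded {f | ∃ l, f = poly (d l) (a l)} c := by
  refine ⟨p, hp, fun K _ _ _ O hpO x hx hnone hsame => ?_⟩
  set J : Finset (Fin n) := univ.filter (fun i => x i ∉ O) with hJ
  have hcomp : Compat c J := by
    constructor
    · intro i hi h
      rw [hJ, mem_filter] at hi
      exact hi.2 (hnone i h)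
    · intro i j hij
      rw [hJ, mem_filter, mem_filter]
      have := hsame i j hij
      simp [this]
  set l : Fin (k + 1) := ⟨(J.image c).card, Nat.lt_succ_of_le (level_le c hcomp)⟩ with hl
  have h0 := hx (poly (d l) (a l)) ⟨l, rfl⟩
  rw [aeval_poly] at h0
  let eJ : ∀ i, Fin (d l i + 1) := fun i => if i ∈ J then ⟨d l i, Nat.lt_succ_self _⟩ else ⟨0, Nat.succ_pos _⟩
  have heJ : ∀ i, (eJ i : ℕ) = if i ∈ J then d l i else 0 := by
    intro i
    by_cases h : i ∈ J <;> simp [eJ, h]
  have hres : ∀ e, ¬ (p : ℤ) ∣ a l e → resid c d l e = 1 := by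
    intro e he
    by_contra hcon
    have h1 : resid c d l e = 0 := by
      rw [resid] at hcon ⊢
      split_ifs with h
      · exact absurd (if_pos h) hcon
      · rfl
    have := ha l e
    rw [h1] at this
    simp at this
    exact he this
  refine dominant O hp hpO (d l) (a l) x J (fun i => by rw [hJ, mem_filter]; simp) eJ heJ ?_ ?_ h0
  · intro hdvd
    have h1 : resid c d l eJ = 1 := by
      rw [resid, if_pos]
      exact ⟨J, hcomp, rfl, heJ⟩
    have h2 := ha l eJ
    rw [h1] at h2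
    have h3 : (p : ℤ) ∣ 1 := by
      have := dvd_sub hdvd h2
      simpa using this
    have h4 := Int.eq_one_of_dvd_one (by positivity) h3
    have := hp.one_lt
    omega
  · intro e he hne
    have h1 := hres e he
    rw [resid] at h1
    split_ifs at h1 with h
    obtain ⟨J', hJ', hcard, heJ'⟩ := h
    by_contra hcon
    push Not at hcon
    have hsub : J ⊆ J' := by
      intro i hi
      by_contra hi'
      have h2 := hcon i hi
      rw [heJ' i, if_neg hi'] at h2
      have := hd l i
      omega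
    have hJJ : J = J' := eq_of_subset c hcomp (by rw [hcard]) hsub
    apply hne
    funext i
    apply Fin.ext
    rw [heJ' i, heJ i, hJJ]

end

/-- The box of integer coefficient systems of height at most `H`. -/
noncomputable def box {n k : ℕ} (d : Fin k → Fin n → ℕ) (H : ℕ) :
    Finset (∀ l : Fin k, (∀ i, Fin (d l i + 1)) → ℤ) :=
  Fintype.piFinset fun _ => Fintype.piFinset fun _ => Finset.Icc (-(H : ℤ)) H

/-- The common zero locus. -/
def zeros {n k : ℕ} (d : Fin k → Fin n → ℕ) (a : ∀ l : Fin k, (∀ i, Fin (d l i + 1)) → ℤ) :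
    Set (Fin n → ℂ) :=
  {y | ∀ l, MvPolynomial.eval y (poly (d l) (a l)) = 0}

lemma count_interval {M : ℕ} (hM : 0 < M) (T : ℕ) {H : ℕ} (hH : M ≤ H) :
    (1 / (6 * M : ℝ)) * ((Finset.Icc (-(H : ℤ)) H).card : ℝ) ≤
      (((Finset.Icc (-(H : ℤ)) H).filter (fun z => (M : ℤ) ∣ z - T)).card : ℝ) := by
  have h1 : (Finset.range (H / M)).card ≤
      ((Finset.Icc (-(H : ℤ)) H).filter (fun z => (M : ℤ) ∣ z - T)).card := by
    refine Finset.card_le_card_of_injOn (fun j => ((T % M + M * j : ℕ) : ℤ)) ?_ ?_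
    · intro j hj
      rw [Finset.coe_range, Set.mem_Iio] at hj
      have h2 : M * (j + 1) ≤ H := (Nat.mul_le_mul_left M hj).trans (Nat.mul_div_le H M)
      have h3 : T % M < M := Nat.mod_lt _ hM
      have h4 : T % M + M * j ≤ H := by nlinarith
      simp only [Finset.coe_filter, Finset.mem_Icc, Set.mem_ofPred_eq]
      refine ⟨⟨by omega, by exact_mod_cast h4⟩, ?_⟩
      refine ⟨j - (T / M : ℕ), ?_⟩
      have h5 := Nat.div_add_mod T M
      have h6 : (T : ℤ) = (M : ℤ) * ((T / M : ℕ) : ℤ) + ((T % M : ℕ) : ℤ) := by exact_mod_cast h5.symm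
      push_cast at h6 ⊢
      rw [mul_sub]
      linarith
    · intro i _ j _ hij
      simp only [Nat.cast_inj] at hij
      have : M * i = M * j := by omega
      exact Nat.eq_of_mul_eq_mul_left hM this
  rw [Finset.card_range] at h1
  have h2 : ((Finset.Icc (-(H : ℤ)) H).card : ℝ) = 2 * H + 1 := by
    rw [Int.card_Icc]
    have : ((H : ℤ) + 1 - -(H : ℤ)).toNat = 2 * H + 1 := by omega
    rw [this]; push_cast; ring
  have h3 : (H : ℝ) ≤ 2 * M * ((H / M : ℕ) : ℝ) := by
    have h4 : H < M * (H / M + 1) := by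
      have := Nat.lt_mul_div_succ H hM
      simpa using this
    have h5 : 1 ≤ H / M := (Nat.one_le_div_iff hM).2 hH
    have : H ≤ 2 * M * (H / M) := by nlinarith
    exact_mod_cast this
  have hM' : (0 : ℝ) < M := by exact_mod_cast hM
  have hH' : (1 : ℝ) ≤ H := by exact_mod_cast (show 1 ≤ H by omega)
  rw [h2, one_div, inv_mul_le_iff₀ (by positivity)]
  have h6 : ((H / M : ℕ) : ℝ) ≤
      (((Finset.Icc (-(H : ℤ)) H).filter (fun z => (M : ℤ) ∣ z - T)).card : ℝ) := by
    exact_mod_cast h1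
  calc (2 * H + 1 : ℝ) ≤ 3 * H := by linarith
    _ ≤ 3 * (2 * M * ((H / M : ℕ) : ℝ)) := by linarith
    _ = 6 * M * ((H / M : ℕ) : ℝ) := by ring
    _ ≤ _ := mul_le_mul_of_nonneg_left h6 (by positivity)

open Classical in
/-- Positive proportion of a residue class system in the box. -/
theorem density {n k : ℕ} (d : Fin k → Fin n → ℕ) {M : ℕ} (hM : 0 < M)
    (T : ∀ l : Fin k, (∀ i, Fin (d l i + 1)) → ℕ)
    (P : (∀ l : Fin k, (∀ i, Fin (d l i + 1)) → ℤ) → Prop)
    (hP : ∀ a, (∀ l e, (M : ℤ) ∣ a l e - (T l e : ℕ)) → P a) :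
    ∃ δ : ℝ, 0 < δ ∧ ∀ᶠ H : ℕ in Filter.atTop,
      δ * ((box d H).card : ℝ) ≤ (((box d H).filter P).card : ℝ) := by
  have hM' : (0 : ℝ) < M := by exact_mod_cast hM
  refine ⟨∏ l : Fin k, ∏ _e : (∀ i, Fin (d l i + 1)), (1 / (6 * M : ℝ)),
    Finset.prod_pos fun l _ => Finset.prod_pos fun e _ => by positivity, ?_⟩
  filter_upwards [Filter.eventually_ge_atTop M] with H hH
  have h1 : (Fintype.piFinset fun l => Fintype.piFinset fun e =>
      (Finset.Icc (-(H : ℤ)) H).filter (fun z => (M : ℤ) ∣ z - (T l e : ℕ))) ⊆ (box d H).filter P := by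
    intro a ha
    rw [Fintype.mem_piFinset] at ha
    rw [mem_filter, box, Fintype.mem_piFinset]
    constructor
    · intro l
      rw [Fintype.mem_piFinset]
      intro e
      have := ha l
      rw [Fintype.mem_piFinset] at this
      exact (mem_filter.1 (this e)).1
    · apply hP
      intro l e
      have := ha l
      rw [Fintype.mem_piFinset] at this
      exact (mem_filter.1 (this e)).2
  have h2 : ((box d H).card : ℝ) = ∏ l : Fin k, ∏ _e : (∀ i, Fin (d l i + 1)),
      ((Finset.Icc (-(H : ℤ)) H).card : ℝ) := by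
    rw [box, Fintype.card_piFinset]
    push_cast
    refine prod_congr rfl fun l _ => ?_
    rw [Fintype.card_piFinset]
    push_cast
    rfl
  rw [h2, ← Finset.prod_mul_distrib]
  refine le_trans ?_ (Nat.cast_le.2 (card_le_card h1))
  rw [Fintype.card_piFinset]
  push_cast
  refine Finset.prod_le_prod (fun l _ => ?_) fun l _ => ?_
  · exact mul_nonneg (Finset.prod_nonneg fun _ _ => by positivity) (Finset.prod_nonneg fun _ _ => by positivity)
  · rw [Fintype.card_piFinset, ← Finset.prod_mul_distrib]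
    push_cast
    refine Finset.prod_le_prod (fun e _ => by positivity) fun e _ => ?_
    exact count_interval hM (T l e) hH

lemma exists_primes (ι : Type) [Fintype ι] : ∃ p : ι → ℕ, (∀ c, (p c).Prime) ∧ Function.Injective p := by
  let idx : ι ≃ Fin (Fintype.card ι) := Fintype.equivFin ι
  refine ⟨fun c => Nat.nth Nat.Prime (idx c), fun c => Nat.prime_nth_prime _, fun c c' h => ?_⟩
  have := Nat.nth_injective Nat.infinite_setOfPred_prime h
  exact idx.injective (Fin.ext this)

lemma exists_crt {ι : Type} [Fintype ι] {p : ι → ℕ} (hp : ∀ c, (p c).Prime)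
    (hpinj : Function.Injective p) (r : ι → ℕ) : ∃ T : ℕ, ∀ c, (p c : ℤ) ∣ T - r c := by
  classical
  have hcop : Set.Pairwise (↑(univ : Finset ι)) (Function.onFun Nat.Coprime p) := by
    intro c _ c' _ hne
    exact (Nat.coprime_primes (hp c) (hp c')).2 fun h => hne (hpinj h)
  obtain ⟨T, hT⟩ := Nat.chineseRemainderOfFinset r p univ (fun c _ => (hp c).ne_zero) hcop
  exact ⟨T, fun c => Nat.modEq_iff_dvd.1 (hT c (mem_univ c)).symm⟩

/-- All patterns are excluded. -/
def AllExcluded {n k : ℕ} (d : Fin (k + 1) → Fin n → ℕ)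
    (a : ∀ l : Fin (k + 1), (∀ i, Fin (d l i + 1)) → ℤ) : Prop :=
  ∀ c : Fin n → Option (Fin k), Excluded {f | ∃ l, f = poly (d l) (a l)} c

open Classical in
/-- **Main theorem**, in terms of `k + 1` equations. -/
theorem main {n k : ℕ} (d : Fin (k + 1) → Fin n → ℕ) (hd : ∀ l i, 1 ≤ d l i) :
    ∃ δ : ℝ, 0 < δ ∧ ∀ᶠ H : ℕ in Filter.atTop,
      δ * ((box d H).card : ℝ) ≤ (((box d H).filter (AllExcluded d)).card : ℝ) := by
  obtain ⟨p, hp, hpinj⟩ := exists_primes (Fin n → Option (Fin k))
  have hT : ∀ (l : Fin (k + 1)) (e : ∀ i, Fin (d l i + 1)), ∃ T : ℕ, ∀ c, (p c : ℤ) ∣ T - (resid c d l e : ℕ) :=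
    fun l e => exists_crt hp hpinj fun c => resid c d l e
  choose T hT using hT
  have hM : 0 < ∏ c, p c := Finset.prod_pos fun c _ => (hp c).pos
  refine density d hM T _ fun a ha c => ?_
  refine excluded_of_resid c d hd a (hp c) fun l e => ?_
  have h1 : (p c : ℤ) ∣ a l e - (T l e : ℕ) := by
    refine dvd_trans ?_ (ha l e)
    exact_mod_cast Finset.dvd_prod_of_mem p (mem_univ c)
  have := dvd_add h1 (hT l e c)
  rwa [sub_add_sub_cancel] at this

end Pool.Agent.Helper11.ZP
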