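import Pool.Agent.Helper11.ZP.QRing

open UpperHalfPlane ModularForm Complex Filter Function
open scoped Real MatrixGroups Topology Manifold

namespace Pool.Agent.Helper11.ZP


/-- Constructor for level one modular forms. -/
noncomputable def mkMF (k : ℤ) (f : ℍ → ℂ) (hinv : ∀ γ : SL(2, ℤ), f ∣[k] γ = f)
    (hol : MDiff f) (bdd : IsBoundedAtImInfty f) : ModularForm 𝒮ℒ k where
  toFun := f
  slash_action_eq' A hA := by
    obtain ⟨A, rfl⟩ := hA
    exact hinv A
  holo' := hol
  bdd_at_cusps' {c} hc := by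
    rw [Subgroup.IsArithmetic.isCusp_iff_isCusp_SL2Z] at hc
    rw [OnePoint.isBoundedAt_iff_forall_SL2Z hc]
    intro γ _
    rw [hinv]
    exact bdd

/-- Being a level one modular form of weight `k`. -/
def IsMF (k : ℤ) (f : ℍ → ℂ) : Prop := ∃ F : ModularForm 𝒮ℒ k, ⇑F = f

lemma isMF_iff {k : ℤ} {f : ℍ → ℂ} : IsMF k f ↔
    (∀ γ : SL(2, ℤ), f ∣[k] γ = f) ∧ MDiff f ∧ IsBoundedAtImInfty f := by
  constructor
  · rintro ⟨F, rfl⟩
    have : Fact (IsCusp OnePoint.infty 𝒮ℒ) := ⟨Subgroup.isCusp_of_mem_strictPeriods one_pos one_mem_strictPeriods_SL⟩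
    exact ⟨fun γ => F.slash_action_eq' _ ⟨γ, rfl⟩, F.holo', ModularFormClass.bdd_at_infty F⟩
  · rintro ⟨h1, h2, h3⟩
    exact ⟨mkMF k f h1 h2 h3, rfl⟩

lemma IsMF.good {k : ℤ} {f : ℍ → ℂ} (hf : IsMF k f) : Good 1 f := by
  have h := hf
  obtain ⟨F, rfl⟩ := hf
  exact ⟨by simpa using SlashInvariantFormClass.periodic_comp_ofComplex F one_mem_strictPeriods_SL,
    (isMF_iff.1 h).2.1, (isMF_iff.1 h).2.2⟩

lemma IsMF.mul {k l : ℤ} {f g : ℍ → ℂ} (hf : IsMF k f) (hg : IsMF l g) : IsMF (k + l) (f * g) := by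
  obtain ⟨F, rfl⟩ := hf
  obtain ⟨G, rfl⟩ := hg
  exact ⟨F.mul G, rfl⟩

lemma IsMF.add {k : ℤ} {f g : ℍ → ℂ} (hf : IsMF k f) (hg : IsMF k g) : IsMF k (f + g) := by
  obtain ⟨F, rfl⟩ := hf
  obtain ⟨G, rfl⟩ := hg
  exact ⟨F + G, rfl⟩

lemma IsMF.smul {k : ℤ} {f : ℍ → ℂ} (hf : IsMF k f) (c : ℂ) : IsMF k (c • f) := by
  obtain ⟨F, rfl⟩ := hf
  exact ⟨c • F, rfl⟩

lemma IsMF.cast {k l : ℤ} {f : ℍ → ℂ} (hf : IsMF k f) (h : k = l) : IsMF l f := h ▸ hf

lemma isMF_one : IsMF 0 (1 : ℍ → ℂ) := ⟨1, rfl⟩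

lemma IsMF.pow {k : ℤ} {f : ℍ → ℂ} (hf : IsMF k f) (n : ℕ) : IsMF (n * k) (f ^ n) := by
  induction n with
  | zero => simpa using isMF_one
  | succ n ih =>
    rw [pow_succ]
    refine (ih.mul hf).cast ?_
    push_cast; ring

/-- The cube of the Eisenstein series of weight 4. -/
noncomputable def Ecube (τ : ℍ) : ℂ := E₄ τ ^ 3

lemma isMF_Ecube : IsMF 12 Ecube := by
  have := (show IsMF 4 (E₄ : ℍ → ℂ) from ⟨E₄, rfl⟩).pow 3
  exact this.cast (by norm_num)

lemma isMF_disc : IsMF 12 ModularForm.discriminant := by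
  refine isMF_iff.2 ⟨?_, CuspForm.discriminant.holo', discriminant_isZeroAtImInfty.isBoundedAtImInfty⟩
  exact SlashInvariantForm.slash_action_generators_SL2Z discriminant_S_invariant discriminant_T_invariant


lemma qexp_E4 : qExpansion 1 (E₄ : ℍ → ℂ) =
    1 + 240 * PowerSeries.mk (fun n => ((ArithmeticFunction.sigma 3 n : ℕ) : ℂ)) := by
  ext n
  rw [EisensteinSeries.E_qExpansion_coeff _ ⟨2, rfl⟩]
  rw [show (240 : PowerSeries ℂ) = PowerSeries.C (240 : ℂ) from (map_ofNat PowerSeries.C 240).symm]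
  rw [map_add, PowerSeries.coeff_C_mul, PowerSeries.coeff_mk, PowerSeries.coeff_one]
  split_ifs with h
  · subst h; simp
  · norm_num [show bernoulli 4 = -1 / 30 by decide +kernel]

lemma qexp_E6 : qExpansion 1 (E₆ : ℍ → ℂ) =
    1 - 504 * PowerSeries.mk (fun n => ((ArithmeticFunction.sigma 5 n : ℕ) : ℂ)) := by
  ext n
  rw [EisensteinSeries.E_qExpansion_coeff _ ⟨3, rfl⟩]
  rw [show (504 : PowerSeries ℂ) = PowerSeries.C (504 : ℂ) from (map_ofNat PowerSeries.C 504).symm]
  rw [map_sub, PowerSeries.coeff_C_mul, PowerSeries.coeff_mk, PowerSeries.coeff_one]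
  split_ifs with h
  · subst h; simp
  · norm_num [show bernoulli 6 = 1 / 42 by decide +kernel]

lemma twelve_dvd (n : ℕ) : 12 ∣ 5 * ArithmeticFunction.sigma 3 n + 7 * ArithmeticFunction.sigma 5 n := by
  rw [ArithmeticFunction.sigma_apply, ArithmeticFunction.sigma_apply, Finset.mul_sum, Finset.mul_sum, ← Finset.sum_add_distrib]
  refine Finset.dvd_sum fun d _ => ?_
  have : ∀ x : ZMod 12, 5 * x ^ 3 + 7 * x ^ 5 = 0 := by decide
  have h := this d
  rw [← ZMod.natCast_eq_zero_iff]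
  push_cast
  exact h

lemma natCast_mem_OO (n : ℕ) : (n : ℂ) ∈ OO := by
  have := OO.natCast_mem n
  exact this

lemma intCast_mem_OO (n : ℤ) : (n : ℂ) ∈ OO := by
  have := OO.intCast_mem n
  exact this

lemma mk_nat_mem (f : ℕ → ℕ) : PowerSeries.mk (fun n => ((f n : ℕ) : ℂ)) ∈ intPS := by
  intro n
  rw [PowerSeries.coeff_mk]
  exact natCast_mem_OO _

lemma qexp_E4_mem : qExpansion 1 (E₄ : ℍ → ℂ) ∈ intPS := by
  rw [qexp_E4]
  exact add_mem (one_mem _) (mul_mem (by exact_mod_cast natCast_mem intPS 240) (mk_nat_mem _))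

lemma qexp_Ecube : qExpansion 1 Ecube = (qExpansion 1 (E₄ : ℍ → ℂ)) ^ 3 := by
  have := ModularForm.qExpansion_pow (h := 1) one_pos one_mem_strictPeriods_SL E₄ 3
  rw [← this]
  rfl

lemma qexp_Ecube_mem : qExpansion 1 Ecube ∈ intPS := by
  rw [qexp_Ecube]
  exact pow_mem qexp_E4_mem 3

lemma qexp_Ecube_lowest : Lowest (qExpansion 1 Ecube) 0 1 := by
  rw [qexp_Ecube]
  have : Lowest (qExpansion 1 (E₄ : ℍ → ℂ)) 0 1 :=
    ⟨fun i hi => absurd hi (by omega), by
      rw [EisensteinSeries.E_qExpansion_coeff_zero _ ⟨2, rfl⟩]⟩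
  simpa using this.pow 3

lemma qexp_disc_eq : qExpansion 1 ModularForm.discriminant =
    PowerSeries.C (1 / 1728 : ℂ) * ((qExpansion 1 (E₄ : ℍ → ℂ)) ^ 3 - (qExpansion 1 (E₆ : ℍ → ℂ)) ^ 2) := by
  have h4 : IsMF 12 (fun τ => E₄ τ ^ 3) := isMF_Ecube
  have h6 : IsMF 12 ((E₆ : ℍ → ℂ) ^ 2) := by
    have := (show IsMF 6 (E₆ : ℍ → ℂ) from ⟨E₆, rfl⟩).pow 2
    exact this.cast (by norm_num)
  have e6 : qExpansion 1 ((E₆ : ℍ → ℂ) ^ 2) = (qExpansion 1 (E₆ : ℍ → ℂ)) ^ 2 := by
    have := ModularForm.qExpansion_pow (h := 1) one_pos one_mem_strictPeriods_SL E₆ 2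
    rw [← this]
    rfl
  have e4 := qexp_Ecube
  have hD : ModularForm.discriminant = (1 / 1728 : ℂ) • (Ecube - (E₆ : ℍ → ℂ) ^ 2) := by
    funext τ
    rw [discriminant_eq_E₄_cube_sub_E₆_sq]
    simp only [Pi.smul_apply, Pi.sub_apply, Pi.pow_apply, smul_eq_mul, Ecube]
    ring
  rw [hD]
  have hsub : Good 1 (Ecube - (E₆ : ℍ → ℂ) ^ 2) := by
    have := h4.good.add h6.good.neg
    rwa [← sub_eq_add_neg] at this
  rw [qExpansion_smul (hsub.analytic one_pos), qExpansion_sub (isMF_Ecube.good.analytic one_pos)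
    (h6.good.analytic one_pos), e4, e6, PowerSeries.smul_eq_C_mul]

lemma qexp_disc_mem : qExpansion 1 ModularForm.discriminant ∈ intPS := by
  have hdvd := twelve_dvd
  choose t ht using hdvd
  have key : qExpansion 1 ModularForm.discriminant = PowerSeries.mk (fun n => ((t n : ℕ) : ℂ)) +
      100 * (PowerSeries.mk (fun n => ((ArithmeticFunction.sigma 3 n : ℕ) : ℂ))) ^ 2 +
      8000 * (PowerSeries.mk (fun n => ((ArithmeticFunction.sigma 3 n : ℕ) : ℂ))) ^ 3 -
      147 * (PowerSeries.mk (fun n => ((ArithmeticFunction.sigma 5 n : ℕ) : ℂ))) ^ 2 := by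
    rw [qexp_disc_eq, qexp_E4, qexp_E6]
    set A := PowerSeries.mk (fun n => ((ArithmeticFunction.sigma 3 n : ℕ) : ℂ)) with hA
    set B := PowerSeries.mk (fun n => ((ArithmeticFunction.sigma 5 n : ℕ) : ℂ)) with hB
    have hT : (12 : PowerSeries ℂ) * PowerSeries.mk (fun n => ((t n : ℕ) : ℂ)) = 5 * A + 7 * B := by
      ext n
      rw [show (12 : PowerSeries ℂ) = PowerSeries.C (12 : ℂ) from (map_ofNat PowerSeries.C 12).symm,
        show (5 : PowerSeries ℂ) = PowerSeries.C (5 : ℂ) from (map_ofNat PowerSeries.C 5).symm,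
        show (7 : PowerSeries ℂ) = PowerSeries.C (7 : ℂ) from (map_ofNat PowerSeries.C 7).symm]
      rw [map_add, PowerSeries.coeff_C_mul, PowerSeries.coeff_C_mul, PowerSeries.coeff_C_mul,
        hA, hB, PowerSeries.coeff_mk, PowerSeries.coeff_mk, PowerSeries.coeff_mk]
      have := ht n
      exact_mod_cast this.symm
    have h1728 : PowerSeries.C (1 / 1728 : ℂ) * 1728 = 1 := by
      rw [show (1728 : PowerSeries ℂ) = PowerSeries.C (1728 : ℂ) from (map_ofNat PowerSeries.C 1728).symm, ← map_mul]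
      norm_num
    linear_combination (-12 * PowerSeries.C (1 / 1728 : ℂ) * 12) * hT +
      (PowerSeries.mk (fun n => ((t n : ℕ) : ℂ)) + 100 * A ^ 2 + 8000 * A ^ 3 - 147 * B ^ 2) * h1728
  rw [key]
  have hnat : ∀ n : ℕ, (n : PowerSeries ℂ) ∈ intPS := fun n => natCast_mem intPS n
  refine sub_mem (add_mem (add_mem (mk_nat_mem _) (mul_mem (by exact_mod_cast hnat 100)
    (pow_mem (mk_nat_mem _) 2))) (mul_mem (by exact_mod_cast hnat 8000) (pow_mem (mk_nat_mem _) 3)))
    (mul_mem (by exact_mod_cast hnat 147) (pow_mem (mk_nat_mem _) 2))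

lemma qexp_disc_lowest : Lowest (qExpansion 1 ModularForm.discriminant) 1 1 := by
  refine ⟨fun i hi => ?_, discriminant_qExpansion_coeff_one⟩
  obtain rfl : i = 0 := by omega
  simpa using CuspFormClass.qExpansion_coeff_zero CuspForm.discriminant one_pos
    one_mem_strictPeriods_SL


/-- The modular `j`-invariant. -/
noncomputable def jInv (τ : ℍ) : ℂ := E₄ τ ^ 3 / ModularForm.discriminant τ

lemma jInv_mul (τ : ℍ) : jInv τ * ModularForm.discriminant τ = Ecube τ :=
  div_mul_cancel₀ _ (discriminant_ne_zero τ)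

/-- Division of a cusp form by the discriminant. -/
lemma exists_div {k : ℤ} {f : ℍ → ℂ} (hf : IsMF k f) (h0 : (qExpansion 1 f).coeff 0 = 0) :
    ∃ g : ℍ → ℂ, IsMF (k - 12) g ∧ (∀ τ, f τ = ModularForm.discriminant τ * g τ) ∧
      qExpansion 1 f = qExpansion 1 ModularForm.discriminant * qExpansion 1 g := by
  obtain ⟨F, rfl⟩ := hf
  refine ⟨_, ⟨CuspForm.discriminantEquiv (toCuspForm F h0), rfl⟩, fun τ => ?_,
    qExpansion_eq_qExpansion_discriminant_mul F h0⟩
  rw [discriminant_mul_discriminantEquiv_apply]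
  rfl

lemma div_mem_intPS {φ : PowerSeries ℂ} (h : qExpansion 1 ModularForm.discriminant * φ ∈ intPS) : φ ∈ intPS := by
  intro n
  induction n using Nat.strong_induction_on with
  | _ n ih =>
    have h1 := h (n + 1)
    rw [PowerSeries.coeff_mul, Finset.Nat.antidiagonal_succ, Finset.sum_cons,
      qexp_disc_lowest.1 0 (by norm_num), zero_mul, zero_add, Finset.sum_map] at h1
    cases n with
    | zero =>
      simpa [qexp_disc_lowest.2, discriminant_qExpansion_coeff_one] using h1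
    | succ n =>
      rw [Finset.Nat.antidiagonal_succ, Finset.sum_cons, Finset.sum_map] at h1
      simp only [Function.Embedding.prodMap, Function.Embedding.coeFn_mk, Prod.map,
        Function.Embedding.refl_apply, Nat.succ_eq_add_one, zero_add] at h1
      rw [discriminant_qExpansion_coeff_one, one_mul] at h1
      have h2 : ∑ x ∈ Finset.HasAntidiagonal.antidiagonal n,
          (PowerSeries.coeff (x.1 + 1 + 1)) (qExpansion 1 ModularForm.discriminant) * (PowerSeries.coeff x.2) φ ∈ OO := by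
        refine Subalgebra.sum_mem _ fun x hx => Subalgebra.mul_mem _ (qexp_disc_mem _) (ih _ ?_)
        rw [Finset.HasAntidiagonal.mem_antidiagonal] at hx
        omega
      have h3 := Subalgebra.sub_mem _ h1 h2
      simpa using h3

/-- Level one forms of weight `12 s` with integral `q`-expansion are `ModularForm.discriminant ^ s` times integral
polynomials in `j`. -/
theorem structure_thm (s : ℕ) : ∀ f : ℍ → ℂ, IsMF (12 * s) f → qExpansion 1 f ∈ intPS →
    ∃ p : Polynomial OO, p.natDegree ≤ s ∧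
      ∀ τ, f τ = ModularForm.discriminant τ ^ s * p.eval₂ (algebraMap OO ℂ) (jInv τ) := by
  induction s with
  | zero =>
    intro f hf hint
    obtain ⟨F, rfl⟩ := hf.cast (l := 0) (by simp)
    obtain ⟨c, hc⟩ := ModularFormClass.levelOne_weight_zero_const F
    have h0 := hint 0
    have hc' : (F : ℍ → ℂ) = c • (1 : ℍ → ℂ) := by
      rw [hc]; funext τ; simp
    rw [hc', qExpansion_smul (f := (1 : ℍ → ℂ)) ((Good.const (h := 1) 1).analytic one_pos),
      qExpansion_one] at h0
    simp only [PowerSeries.coeff_smul, PowerSeries.coeff_zero_eq_constantCoeff, map_one,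
      smul_eq_mul, mul_one] at h0
    refine ⟨Polynomial.C ⟨c, h0⟩, by simp, fun τ => ?_⟩
    rw [hc, Polynomial.eval₂_C]
    simp
  | succ s ih =>
    intro f hf hint
    set a : ℂ := (qExpansion 1 f).coeff 0 with ha
    have haO : a ∈ OO := hint 0
    have hE : IsMF (12 * (s + 1 : ℕ)) (Ecube ^ (s + 1)) :=
      (isMF_Ecube.pow (s + 1)).cast (by ring)
    have hEq : qExpansion 1 (Ecube ^ (s + 1)) = (qExpansion 1 Ecube) ^ (s + 1) := by
      have h := (qe (h := 1) one_pos).map_pow ⟨Ecube, isMF_Ecube.good⟩ (s + 1)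
      exact h
    have hf' : IsMF (12 * (s + 1 : ℕ)) (f + (-a) • Ecube ^ (s + 1)) := hf.add (hE.smul _)
    have hq : qExpansion 1 (f + (-a) • Ecube ^ (s + 1)) =
        qExpansion 1 f + (-a) • (qExpansion 1 Ecube) ^ (s + 1) := by
      rw [qExpansion_add (hf.good.analytic one_pos) ((hE.smul _).good.analytic one_pos),
        qExpansion_smul (hE.good.analytic one_pos), hEq]
    have hlow := (qexp_Ecube_lowest.pow (s + 1)).2
    simp only [mul_zero, one_pow] at hlow
    have h0 : (qExpansion 1 (f + (-a) • Ecube ^ (s + 1))).coeff 0 = 0 := by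
      rw [hq, map_add, PowerSeries.coeff_smul, hlow, ← ha]
      simp
    obtain ⟨g, hg, hfg, hqg⟩ := exists_div hf' h0
    have hg' : IsMF (12 * s) g := hg.cast (by push_cast; ring)
    have hmem : qExpansion 1 (f + (-a) • Ecube ^ (s + 1)) ∈ intPS := by
      rw [hq]
      refine add_mem hint fun n => ?_
      rw [PowerSeries.coeff_smul]
      exact Subalgebra.mul_mem _ (Subalgebra.neg_mem _ haO) (pow_mem qexp_Ecube_mem _ n)
    rw [hqg] at hmem
    obtain ⟨p, hp, hgp⟩ := ih g hg' (div_mem_intPS hmem)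
    refine ⟨p + Polynomial.C ⟨a, haO⟩ * Polynomial.X ^ (s + 1), ?_, fun τ => ?_⟩
    · refine (Polynomial.natDegree_add_le _ _).trans (max_le (hp.trans (Nat.le_succ s)) ?_)
      exact Polynomial.natDegree_C_mul_X_pow_le _ _
    · have h1 := hfg τ
      rw [hgp τ] at h1
      simp only [Pi.add_apply, Pi.smul_apply, Pi.pow_apply, smul_eq_mul] at h1
      rw [Polynomial.eval₂_add, Polynomial.eval₂_mul, Polynomial.eval₂_C, Polynomial.eval₂_X_pow]
      have h2 : (algebraMap OO ℂ) ⟨a, haO⟩ = a := rfl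
      rw [h2]
      have h3 := jInv_mul τ
      rw [← h3] at h1
      have h4 : f τ = ModularForm.discriminant τ * (ModularForm.discriminant τ ^ s * Polynomial.eval₂ (algebraMap OO ℂ) (jInv τ) p) +
        a * (jInv τ * ModularForm.discriminant τ) ^ (s + 1) := by linear_combination h1
      rw [h4]; ring

/-- The `j`-invariant is surjective. -/
theorem jInv_surjective : Function.Surjective jInv := by
  intro x
  by_contra hcon
  push Not at hcon
  set F : ℍ → ℂ := Ecube + (-x) • ModularForm.discriminant with hF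
  have hFM : IsMF 12 F := isMF_Ecube.add (isMF_disc.smul _)
  have hne : ∀ τ, F τ ≠ 0 := by
    intro τ h
    apply hcon τ
    simp only [hF, Pi.add_apply, Pi.smul_apply, smul_eq_mul] at h
    rw [jInv, div_eq_iff (discriminant_ne_zero τ)]
    change Ecube τ = _
    linear_combination h
  have hlim : Tendsto F atImInfty (𝓝 1) := by
    have hE : Tendsto Ecube atImInfty (𝓝 1) := by
      have h1 := cuspFunction_apply_zero one_pos (isMF_Ecube.good.analytic one_pos) isMF_Ecube.good.per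
      have h2 := qExpansion_coeff_zero one_pos (isMF_Ecube.good.analytic one_pos) isMF_Ecube.good.per
      rw [qexp_Ecube_lowest.2] at h2
      have h3 := (isMF_Ecube.good.analytic one_pos).continuousAt.tendsto.comp
        (qParam_tendsto_atImInfty one_pos)
      rw [h1, ← h2] at h3
      refine h3.congr fun τ => ?_
      simpa using eq_cuspFunction τ one_ne_zero isMF_Ecube.good.per
    have hD : Tendsto ModularForm.discriminant atImInfty (𝓝 0) := discriminant_isZeroAtImInfty
    have := hE.add (hD.const_smul (-x))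
    rw [smul_zero, add_zero] at this
    exact this
  have hinv : IsMF (-12) (fun τ => (F τ)⁻¹) := by
    refine isMF_iff.2 ⟨fun γ => ?_, ?_, ?_⟩
    · have h1 := (isMF_iff.1 hFM).1 γ
      funext τ
      have h2 := congrFun h1 τ
      rw [SL_slash_apply] at h2 ⊢
      rw [← h2, mul_inv, ← zpow_neg]
    · have := (isMF_iff.1 hFM).2.1
      have h1 : MDiff (fun _ : ℍ => (1 : ℂ)) := mdifferentiable_const
      have h2 := h1.div this hne
      simpa [Pi.div_def] using h2
    · have h1 : Tendsto (fun τ => (F τ)⁻¹) atImInfty (𝓝 1) := by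
        simpa using hlim.inv₀ one_ne_zero
      exact h1.isBigO_one ℝ
  obtain ⟨G, hG⟩ := hinv
  have h0 := ModularFormClass.levelOne_neg_weight_eq_zero (show (-12 : ℤ) < 0 by norm_num) G
  have h1 := congrFun (hG.symm.trans h0) UpperHalfPlane.I
  simp only [Pi.zero_apply, inv_eq_zero] at h1
  exact hne _ h1

end Pool.Agent.Helper11.ZP
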