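import Pool.Agent.Helper11.ZP.Residue
import Pool.Agent.Helper11.ZP.Count

open Polynomial

namespace Pool.Agent.Helper11.ZP

/-- The index set of the coefficients: those of the numerators (degrees at most `N i`) and the
lower coefficients of monic polynomials of degrees `M i`. -/
abbrev Idx (N M : Fin 3 → ℕ) : Type := (Σ i : Fin 3, Fin (N i + 1)) ⊕ (Σ i : Fin 3, Fin (M i))

/-- The numerators: `Aᵢ` is the polynomial with the coefficients `θ (inl ⟨i, m⟩)`. -/
noncomputable def numP {N M : Fin 3 → ℕ} (θ : Idx N M → ℚ) (i : Fin 3) : ℚ[X] :=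
  ∑ m : Fin (N i + 1), C (θ (.inl ⟨i, m⟩)) * X ^ (m : ℕ)

/-- The denominators: the fixed polynomial `Fᵢ` times the monic polynomial of degree `M i` with the
lower coefficients `θ (inr ⟨i, m⟩)`. -/
noncomputable def denP {N M : Fin 3 → ℕ} (F : Fin 3 → ℤ[X]) (θ : Idx N M → ℚ) (i : Fin 3) : ℚ[X] :=
  (F i).map (Int.castRingHom ℚ) * (X ^ (M i) + ∑ m : Fin (M i), C (θ (.inr ⟨i, m⟩)) * X ^ (m : ℕ))

/-- Conditions on the degrees and the fixed denominators. -/
structure Cond (N M : Fin 3 → ℕ) (F : Fin 3 → ℤ[X]) : Prop where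
  deg0 : (F 0).natDegree + M 0 < N 0
  deg1 : N 1 ≤ (F 1).natDegree + M 1
  deg2 : N 2 = (F 2).natDegree + M 2
  ne1 : F 1 ≠ 0
  zero0 : (F 0).coeff 0 ≠ 0
  zero1 : (F 1).coeff 0 = 0
  zero2 : (F 2).coeff 0 ≠ 0

/-- The prime is large. -/
structure Large (p : ℕ) (F : Fin 3 → ℤ[X]) (r : ℤ) : Prop where
  lead : ∀ i, ¬ (p : ℤ) ∣ (F i).leadingCoeff
  zero0 : ¬ (p : ℤ) ∣ (F 0).coeff 0
  zero2 : ¬ (p : ℤ) ∣ (F 2).coeff 0
  res : ¬ (p : ℤ) ∣ r

/-- The positions of the four special coefficients: the leading coefficient of the first numerator,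
the constant coefficient of the second, and both of these coefficients of the third. -/
def pos (N M : Fin 3 → ℕ) : Fin 4 → Idx N M :=
  ![.inl ⟨0, Fin.last _⟩, .inl ⟨1, 0⟩, .inl ⟨2, 0⟩, .inl ⟨2, Fin.last _⟩]

/-- The coordinate of the special coefficient. -/
def co : Fin 4 → Fin 3 := ![0, 1, 2, 2]

/-- The coordinate that is not integral when the special coordinate is. -/
def zz : Fin 4 → Fin 3 := ![1, 0, 0, 1]

set_option synthInstance.maxSize 1000 in
lemma combinatorics2 : ∀ (b : Fin 3 → Bool) (k : Fin 3), ∃ e : Fin 4, ∀ s : Fin 3 → Bool,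
    ¬ ((∀ i, b i = false → s i = true) ∧ (∀ i j, b i = b j → s i = s j) ∧
      (s (co e) = true → ∀ i, i ≠ co e → (s i = false ↔ i = zz e)) ∧
      (co e = k → ∃ i, i ≠ k ∧ s i = true)) := by
  decide

section

variable {N M : Fin 3 → ℕ}

lemma pos_ne {e : Fin 4} {i : Fin 3} (h : i ≠ co e) (m : Fin (N i + 1)) :
    (Sum.inl ⟨i, m⟩ : Idx N M) ≠ pos N M e := by
  intro h1
  apply h
  fin_cases e <;> exact congrArg Sigma.fst (Sum.inl_injective h1)

lemma pos_ne_inr (e : Fin 4) (z : Σ i : Fin 3, Fin (M i)) : (Sum.inr z : Idx N M) ≠ pos N M e := by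
  fin_cases e <;> exact Sum.inr_ne_inl

lemma inl_ne {i : Fin 3} {m m' : Fin (N i + 1)} (h : m ≠ m') :
    (Sum.inl ⟨i, m⟩ : Idx N M) ≠ Sum.inl ⟨i, m'⟩ :=
  fun e => h (eq_of_heq (Sigma.mk.inj (Sum.inl_injective e)).2)

variable {F : Fin 3 → ℤ[X]} {θ : Idx N M → ℚ}

lemma numP_eq (i : Fin 3) : numP θ i = mkPoly fun m => θ (.inl ⟨i, m⟩) := rfl

lemma denP_eq (i : Fin 3) :
    denP F θ i = (F i).map (Int.castRingHom ℚ) * mkMonic fun m => θ (.inr ⟨i, m⟩) := rfl

lemma aeval_denP {K : Type*} [Field K] [CharZero K] (t : K) (i : Fin 3) :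
    aeval t (denP F θ i) = aeval t (F i) * aeval t (mkMonic fun m => θ (.inr ⟨i, m⟩)) := by
  rw [denP_eq, map_mul]
  congr 1
  rw [aeval_def, eval₂_map, aeval_def]
  congr 1
  exact RingHom.ext_int _ _

lemma denFacts (hc : Cond N M F) {p : ℕ} (hp : p.Prime) {r : ℤ} (hL : Large p F r)
    {K : Type*} [Field K] [CharZero K] (O : ValuationSubring K) (hpO : (p : K) ∈ O.nonunits)
    (hθ : ∀ i m, O.valuation (θ (.inr ⟨i, m⟩) : K) = 1) (t : K) :
    DenFacts O t (fun i => aeval t (denP F θ i)) (fun i => (F i).natDegree + M i) := by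
  refine ⟨fun h i => ?_, fun h i => ?_, fun h i hi => ?_, fun h => ?_⟩
  · simp only [aeval_denP, map_mul]
    exact mul_le_one' (val_aeval_le O _ h) (val_monic_le O (fun m => (hθ i m).le) h)
  · simp only [aeval_denP, map_mul]
    rw [val_aeval_gt O hp hpO _ (hL.lead i) h, val_monic_gt O (fun m => (hθ i m).le) h, pow_add]
  · simp only [aeval_denP, map_mul]
    rw [val_monic_small O (fun m => hθ i m) h, mul_one]
    have : i = 0 ∨ i = 2 := by
      revert hi; fin_cases i <;> decide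
    rcases this with rfl | rfl
    · exact val_aeval_small O hp hpO _ hL.zero0 h
    · exact val_aeval_small O hp hpO _ hL.zero2 h
  · simp only [aeval_denP, map_mul]
    rw [val_monic_small O (fun m => hθ 1 m) h, mul_one]
    exact val_aeval_root O _ hc.zero1 h

/-- The special coordinate forces `t` to be small or large. -/
lemma special_fact (hc : Cond N M F) {K : Type*} [Field K] (O : ValuationSubring K)
    {t : K} {b : Fin 3 → K} (hb : DenFacts O t b (fun i => (F i).natDegree + M i))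
    (hb0 : ∀ i, b i ≠ 0) {x : Fin 3 → K}
    (hx : ∀ i, x i = (∑ m : Fin (N i + 1), (θ (.inl ⟨i, m⟩) : K) * t ^ (m : ℕ)) / b i)
    (e : Fin 4) (hq1 : 1 < O.valuation (θ (pos N M e) : K))
    (hq2 : ∀ j, j ≠ pos N M e → O.valuation (θ j : K) = 1) (h : x (co e) ∈ O) :
    ∀ i, i ≠ co e → (x i ∉ O ↔ i = zz e) := by
  have hunit : ∀ i, i ≠ co e → ∀ m, O.valuation (θ (.inl ⟨i, m⟩) : K) = 1 := fun i hi m =>
    hq2 _ (pos_ne hi m)
  have hu := fun i (hi : i ≠ co e) => unit_facts (a := fun i m => (θ (.inl ⟨i, m⟩) : K))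
    (deg := fun i => (F i).natDegree + M i) hc.deg0 hc.deg1 hc.deg2 O hb hb0 hx (hunit i hi)
  have hsmall : O.valuation t < 1 → zz e = 1 → ∀ i, i ≠ co e → (x i ∉ O ↔ i = zz e) := by
    intro h1 h2 i hi
    rw [h2]
    exact (hu i hi).2.1 h1
  have hlarge : 1 < O.valuation t → zz e = 0 → ∀ i, i ≠ co e → (x i ∉ O ↔ i = zz e) := by
    intro h1 h2 i hi
    rw [h2]
    exact (hu i hi).1 h1
  fin_cases e
  · refine hsmall (lead_fact (a := fun i m => (θ (.inl ⟨i, m⟩) : K)) O hb hb0 hx (i := 0)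
      hc.deg0.le ?_ hq1 h) rfl
    intro m hm
    exact (hq2 _ (inl_ne hm)).le
  · refine hlarge (const_fact (a := fun i m => (θ (.inl ⟨i, m⟩) : K)) O hb hb0 hx (i := 1) ?_ hq1 h) rfl
    intro m hm
    exact (hq2 _ (inl_ne hm)).le
  · refine hlarge (const_fact (a := fun i m => (θ (.inl ⟨i, m⟩) : K)) O hb hb0 hx (i := 2) ?_ hq1 h) rfl
    intro m hm
    exact (hq2 _ (inl_ne hm)).le
  · refine hsmall (lead_fact (a := fun i m => (θ (.inl ⟨i, m⟩) : K)) O hb hb0 hx (i := 2)
      hc.deg2.ge ?_ hq1 h) rfl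
    intro m hm
    exact (hq2 _ (inl_ne hm)).le

/-- The reduction of the denominators. -/
noncomputable def redB (F : Fin 3 → ℤ[X]) (p : ℕ) (x : Idx N M → ZMod p × ZMod p) (i : Fin 3) :
    (ZMod p)[X] :=
  (F i).map (Int.castRingHom (ZMod p)) * redMonic p fun m => x (.inr ⟨i, m⟩)

/-- The event at a position. -/
def EvP (F : Fin 3 → ℤ[X]) (i j : Fin 3) (e : Fin 4) (p : ℕ) (θ : Idx N M → ℚ) : Prop :=
  p ∣ (θ (pos N M e)).den ∧ (∀ z, z ≠ pos N M e → ¬ p ∣ (θ z).den ∧ ¬ (p : ℤ) ∣ (θ z).num) ∧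
    IsCoprime (redB F p (res p θ) i) (redB F p (res p θ) j)

lemma redB_red {p : ℕ} (hp : p.Prime) {K : Type*} [Field K] [CharZero K] (O : ValuationSubring K)
    (hpO : (p : K) ∈ O.nonunits) [CharP (IsLocalRing.ResidueField O) p]
    (hθ : ∀ i m, ¬ p ∣ (θ (.inr ⟨i, m⟩)).den) (t : O) (i : Fin 3) :
    Red O (redB F p (res p θ) i) t (aeval (t : K) (denP F θ i)) := by
  rw [aeval_denP, redB]
  exact (red_int O (F i) t).mul O (red_monic O hp hpO (fun m => θ (.inr ⟨i, m⟩)) (fun m => hθ i m) t)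

/-- Numerators and denominators are coprime. -/
theorem coprime_num (hc : Cond N M F) {r : ℤ} {i' j' : Fin 3}
    (hev : ∀ e, ∃ p : ℕ, p.Prime ∧ Large p F r ∧ EvP F i' j' e p θ) (i : Fin 3) :
    IsCoprime ((numP θ i).map (algebraMap ℚ ℂ)) ((denP F θ i).map (algebraMap ℚ ℂ)) := by
  rw [isCoprime_iff_aeval_ne_zero_of_isAlgClosed (k := ℂ) ℂ]
  intro ρ
  by_contra hcon
  rw [not_or, not_not, not_not, aeval_map_rat, aeval_map_rat, numP_eq, aeval_mkPoly] at hcon
  obtain ⟨hA0, hB0⟩ := hcon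
  have hO : ∀ p : ℕ, p.Prime → ∃ O : ValuationSubring ℂ, (p : ℂ) ∈ O.nonunits := by
    intro p hp
    obtain ⟨O, hO, _⟩ := exists_valuationSubring hp (K := ℂ) (ι := Empty) (fun i => i.elim)
      ((algebraicIndependent_empty_type_iff (R := ℤ) (A := ℂ)).2 (algebraMap ℤ ℂ).injective_int)
    exact ⟨O, hO⟩
  have hlead : ∀ e : Fin 4, pos N M e = .inl ⟨i, Fin.last _⟩ → i ≠ 1 → False := by
    intro e hpos hi1
    obtain ⟨p, hp, hL, hev1, hev2, _⟩ := hev e
    obtain ⟨O, hpO⟩ := hO p hp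
    have hden := denFacts hc hp hL O hpO (fun i m => val_rat_eq O hp hpO
      (hev2 _ (pos_ne_inr e ⟨i, m⟩)).1 (hev2 _ (pos_ne_inr e ⟨i, m⟩)).2) ρ
    rw [hpos] at hev1 hev2
    have h1 := val_rat_gt O hp hpO hev1
    have h2 : O.valuation ρ < 1 := by
      by_contra hcon
      rw [not_lt] at hcon
      have h3 := val_sum_lead O (fun m => (θ (.inl ⟨i, m⟩) : ℂ)) (fun m hm => by
        obtain ⟨h4, h5⟩ := hev2 _ (inl_ne hm)
        exact (val_rat_eq O hp hpO h4 h5).le) h1.le hcon (Or.inl h1)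
      rw [hA0, map_zero] at h3
      have h6 : 0 < O.valuation (θ (.inl ⟨i, Fin.last _⟩) : ℂ) * O.valuation ρ ^ N i :=
        mul_pos (lt_trans zero_lt_one h1) (pow_pos (lt_of_lt_of_le zero_lt_one hcon) _)
      exact absurd h3 (ne_of_lt h6)
    have h3 := hden.small h2 i hi1
    change O.valuation (aeval ρ (denP F θ i)) = _ at h3
    rw [hB0, map_zero] at h3
    exact zero_ne_one h3
  have hconst : ∀ e : Fin 4, pos N M e = .inl ⟨i, 0⟩ → False := by
    intro e hpos
    obtain ⟨p, hp, hL, hev1, hev2, _⟩ := hev e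
    obtain ⟨O, hpO⟩ := hO p hp
    have hden := denFacts hc hp hL O hpO (fun i m => val_rat_eq O hp hpO
      (hev2 _ (pos_ne_inr e ⟨i, m⟩)).1 (hev2 _ (pos_ne_inr e ⟨i, m⟩)).2) ρ
    rw [hpos] at hev1 hev2
    have h1 := val_rat_gt O hp hpO hev1
    have h2 : 1 < O.valuation ρ := by
      by_contra hcon
      rw [not_lt] at hcon
      have h3 := val_sum_const O (fun m => (θ (.inl ⟨i, m⟩) : ℂ)) (fun m hm => by
        obtain ⟨h4, h5⟩ := hev2 _ (inl_ne hm)
        exact (val_rat_eq O hp hpO h4 h5).le) h1.le hcon (Or.inl h1)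
      rw [hA0, map_zero] at h3
      exact absurd h3 (ne_of_lt (lt_trans zero_lt_one h1))
    have h3 := hden.gt h2 i
    change O.valuation (aeval ρ (denP F θ i)) = _ at h3
    rw [hB0, map_zero] at h3
    exact absurd h3 (ne_of_lt (pow_pos (lt_trans zero_lt_one h2) _))
  fin_cases i
  · exact hlead 0 rfl (by decide)
  · exact hconst 1 rfl
  · exact hconst 2 rfl

lemma natDegree_denP_le (i : Fin 3) : (denP F θ i).natDegree ≤ (F i).natDegree + M i := by
  rw [denP_eq]
  refine natDegree_mul_le.trans (add_le_add natDegree_map_le ?_)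
  rw [mkMonic]
  refine (natDegree_add_le _ _).trans (max_le (natDegree_X_pow_le _) ?_)
  refine natDegree_sum_le_of_forall_le _ _ fun m _ => ?_
  exact (natDegree_C_mul_X_pow_le _ _).trans m.2.le

lemma natDegree_numP (i : Fin 3) (h : θ (.inl ⟨i, Fin.last _⟩) ≠ 0) :
    N i ≤ (numP θ i).natDegree := by
  refine le_natDegree_of_ne_zero ?_
  rw [numP, finsetSum_coeff]
  have h1 : ∀ m : Fin (N i + 1), (C (θ (.inl ⟨i, m⟩)) * X ^ (m : ℕ)).coeff (N i) =
      if m = Fin.last (N i) then θ (.inl ⟨i, Fin.last _⟩) else 0 := by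
    intro m
    rw [coeff_C_mul, coeff_X_pow]
    by_cases hm : m = Fin.last (N i)
    · subst hm
      simp
    · have : N i ≠ (m : ℕ) := fun h => hm (Fin.ext (by rw [Fin.val_last]; exact h.symm))
      rw [if_neg this, if_neg hm, mul_zero]
  simp only [h1]
  rw [Finset.sum_ite_eq', if_pos (Finset.mem_univ _)]
  exact h

/-- Everything is integral over the coordinates. -/
theorem isIntegral_P (hc : Cond N M F) {r : ℤ} {i' j' : Fin 3}
    (hev : ∀ e, ∃ p : ℕ, p.Prime ∧ Large p F r ∧ EvP F i' j' e p θ) :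
    (MvPolynomial.aeval (xR (numP θ) (denP F θ)) : MvPolynomial (Fin 3) ℂ →ₐ[ℂ] _).toRingHom.IsIntegral := by
  refine isIntegral_xR _ _ 0 ?_ (coprime_num hc hev)
  refine lt_of_le_of_lt (natDegree_denP_le 0) (lt_of_lt_of_le hc.deg0 (natDegree_numP 0 ?_))
  intro h0
  obtain ⟨p, hp, _, h1, _⟩ := hev 0
  have h2 : θ (pos N M 0) = 0 := h0
  rw [h2] at h1
  exact hp.one_lt.ne' (Nat.dvd_one.1 h1)

/-- If the four events happen at some large primes, all patterns are excluded. -/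
theorem excludedP (hc : Cond N M F) {r : ℤ} {i j : Fin 3} (hij : i ≠ j)
    (hev : ∀ e, ∃ p : ℕ, p.Prime ∧ Large p F r ∧ EvP F i j e p θ)
    (c : Fin 3 → Option (Fin 1)) :
    Excluded {f | ∀ y ∈ ratCurve (numP θ) (denP F θ), MvPolynomial.eval y f = 0} c := by
  classical
  obtain ⟨k, hki, hkj⟩ : ∃ k : Fin 3, k ≠ i ∧ k ≠ j := by
    clear hev hij
    revert i j; decide
  obtain ⟨e, he⟩ := combinatorics2 (fun i => decide (c i ≠ none)) k
  obtain ⟨p, hp, hL, hev1, hev2, hev3⟩ := hev e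
  refine ⟨p, hp, fun K _ _ _ O hpO x hx hnone hsame => ?_⟩
  have hchar : CharZero K := charZero_of_injective_algebraMap (algebraMap ℂ K).injective
  obtain ⟨t, ht, htx⟩ := exists_param (xR (numP θ) (denP F θ)) (isIntegral_P hc hev) x
    (fun f hf => hx f (by
      rw [Set.mem_ofPred_eq, ratCurve_eq]
      exact hf))
  have ht' := (aeval_DD_ne_zero (denP F θ)).1 ht
  have hx' : ∀ i, x i = (∑ m : Fin (N i + 1), (θ (.inl ⟨i, m⟩) : K) * t ^ (m : ℕ)) /
      aeval t (denP F θ i) := by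
    intro i
    rw [htx, evD_xR, numP_eq, aeval_mkPoly]
  have hq1 : 1 < O.valuation (θ (pos N M e) : K) := val_rat_gt O hp hpO hev1
  have hq2 : ∀ j, j ≠ pos N M e → O.valuation (θ j : K) = 1 := fun j hj =>
    val_rat_eq O hp hpO (hev2 j hj).1 (hev2 j hj).2
  have hden := denFacts hc hp hL O hpO (fun i m => hq2 _ (pos_ne_inr e ⟨i, m⟩)) t
  refine he (fun i => decide (x i ∈ O)) ⟨?_, ?_, ?_, ?_⟩
  · intro i hi
    simpa using hnone i (by simpa using hi)
  · intro i j hij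
    have h2 : c i = c j := by
      by_cases hi : c i = none
      · have hj : c j = none := by
          by_contra hj
          simp [hi, hj] at hij
        rw [hi, hj]
      · have hj : c j ≠ none := by
          intro hj
          simp [hi, hj] at hij
        obtain ⟨u, hu⟩ := Option.ne_none_iff_exists'.1 hi
        obtain ⟨w, hw⟩ := Option.ne_none_iff_exists'.1 hj
        rw [hu, hw, Subsingleton.elim u w]
    simp [hsame i j h2]
  · intro h i hi
    have h1 := special_fact hc O hden ht' hx' e hq1 hq2 (by simpa using h) i hi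
    simpa using h1
  · intro hek
    have hunit : ∀ l, l ≠ k → ∀ m, O.valuation (θ (.inl ⟨l, m⟩) : K) = 1 := fun l hl m =>
      hq2 _ (pos_ne (by rw [hek]; exact hl) m)
    have hcp := charP_residue O hp hpO
    have hcop : O.valuation t ≤ 1 → ¬ (O.valuation (aeval t (denP F θ i)) < 1 ∧
        O.valuation (aeval t (denP F θ j)) < 1) := by
      intro htO
      rw [O.valuation_le_one_iff] at htO
      have h1 := redB_red (F := F) hp O hpO (fun i m => (hev2 _ (pos_ne_inr e ⟨i, m⟩)).1) ⟨t, htO⟩ i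
      have h2 := redB_red (F := F) hp O hpO (fun i m => (hev2 _ (pos_ne_inr e ⟨i, m⟩)).1) ⟨t, htO⟩ j
      exact h1.coprime O h2 hev3
    rcases coprime_fact (a := fun i m => (θ (.inl ⟨i, m⟩) : K))
      (deg := fun i => (F i).natDegree + M i) hc.deg0 hc.deg1 hc.deg2 O hden ht' hx' hij
      (hunit i hki.symm) (hunit j hkj.symm) hcop with h | h
    · exact ⟨i, hki.symm, by simpa using h⟩
    · exact ⟨j, hkj.symm, by simpa using h⟩

/-- The first bad set: a root of the `i`-th monic polynomial is a root of the `j`-th denominator. -/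
def bad0 (F : Fin 3 → ℤ[X]) (i j : Fin 3) (p : ℕ) [Fact p.Prime] : Set (Idx N M → ZMod p × ZMod p) :=
  {x | ∃ ρ : AlgebraicClosure (ZMod p), aeval ρ (redMonic p fun m => x (.inr ⟨i, m⟩)) = 0 ∧
    aeval ρ (redB F p x j) = 0}

/-- The second bad set: a root of the `i`-th fixed denominator is a root of the `j`-th monic
polynomial. -/
def bad1 (F : Fin 3 → ℤ[X]) (i j : Fin 3) (p : ℕ) [Fact p.Prime] : Set (Idx N M → ZMod p × ZMod p) :=
  {x | ∃ ρ : AlgebraicClosure (ZMod p), aeval ρ (redMonic p fun m => x (.inr ⟨j, m⟩)) = 0 ∧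
    aeval ρ ((F i).map (Int.castRingHom (ZMod p))) = 0}

lemma natDegree_redMonic_le {d : ℕ} (p : ℕ) (a : Fin d → ZMod p × ZMod p) :
    (redMonic p a).natDegree ≤ d := by
  rw [redMonic]
  refine (natDegree_add_le _ _).trans (max_le (natDegree_X_pow_le _) ?_)
  refine natDegree_sum_le_of_forall_le _ _ fun m _ => ?_
  exact (natDegree_C_mul_X_pow_le _ _).trans m.2.le

lemma redMonic_ne_zero {d : ℕ} {p : ℕ} [Fact p.Prime] (a : Fin d → ZMod p × ZMod p) :
    redMonic p a ≠ 0 := by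
  have h : (redMonic p a).coeff d = 1 := by
    rw [redMonic, coeff_add, coeff_X_pow, if_pos rfl, finsetSum_coeff]
    rw [Finset.sum_eq_zero, add_zero]
    intro m _
    rw [coeff_C_mul, coeff_X_pow, if_neg (ne_of_gt m.2), mul_zero]
  intro h0
  rw [h0, coeff_zero] at h
  exact zero_ne_one h

/-- Few constant coefficients produce a common root with a given polynomial. -/
lemma card_common_root {p : ℕ} [hp : Fact p.Prime] {κ : Idx N M} (i : Fin 3)
    (hM : 0 < M i) (hκ : (Sum.inr ⟨i, ⟨0, hM⟩⟩ : Idx N M) ≠ κ) {x : Idx N M → ZMod p × ZMod p}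
    (hx : x ∈ poleSet κ p) (g : (ZMod p)[X]) (hg : g ≠ 0) :
    Nat.card {v : ZMod p | ∃ ρ : AlgebraicClosure (ZMod p),
      aeval ρ (redMonic p fun m => updNum x (.inr ⟨i, ⟨0, hM⟩⟩) v (.inr ⟨i, m⟩)) = 0 ∧
        aeval ρ g = 0} ≤ g.natDegree := by
  classical
  set A := {v : ZMod p | ∃ ρ : AlgebraicClosure (ZMod p),
      aeval ρ (redMonic p fun m => updNum x (.inr ⟨i, ⟨0, hM⟩⟩) v (.inr ⟨i, m⟩)) = 0 ∧
        aeval ρ g = 0} with hA
  choose ρ hρ1 hρ2 using fun v : A => v.2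
  let R := (g.aroots (AlgebraicClosure (ZMod p))).toFinset
  have hmem : ∀ v : A, ρ v ∈ R := by
    intro v
    rw [Multiset.mem_toFinset, mem_aroots]
    exact ⟨hg, hρ2 v⟩
  have hden : (x (.inr ⟨i, ⟨0, hM⟩⟩)).2 ≠ 0 := by
    have h := hx (.inr ⟨i, ⟨0, hM⟩⟩)
    simp only [if_neg hκ] at h
    exact h.2
  have hval : ∀ (v : ZMod p) (σ : AlgebraicClosure (ZMod p)),
      aeval σ (redMonic p fun m => updNum x (.inr ⟨i, ⟨0, hM⟩⟩) v (.inr ⟨i, m⟩)) =
      aeval σ (redMonic p fun m => x (.inr ⟨i, m⟩)) +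
        algebraMap _ _ ((v - (x (.inr ⟨i, ⟨0, hM⟩⟩)).1) * (x (.inr ⟨i, ⟨0, hM⟩⟩)).2⁻¹) := by
    intro v σ
    rw [redMonic, redMonic, map_add, map_add, map_sum, map_sum, add_assoc]
    congr 1
    rw [← Finset.add_sum_erase _ _ (Finset.mem_univ (⟨0, hM⟩ : Fin (M i))),
      ← Finset.add_sum_erase Finset.univ (fun m : Fin (M i) => aeval σ
        (C ((x (.inr ⟨i, m⟩)).1 * (x (.inr ⟨i, m⟩)).2⁻¹) * X ^ (m : ℕ)))
        (Finset.mem_univ (⟨0, hM⟩ : Fin (M i)))]
    have h1 : ∀ m ∈ Finset.univ.erase (⟨0, hM⟩ : Fin (M i)),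
        updNum x (.inr ⟨i, ⟨0, hM⟩⟩) v (.inr ⟨i, m⟩) = x (.inr ⟨i, m⟩) := by
      intro m hm
      apply updNum_apply_ne
      intro h
      exact Finset.ne_of_mem_erase hm (eq_of_heq (Sigma.mk.inj (Sum.inr_injective h)).2)
    rw [Finset.sum_congr rfl fun m hm => by rw [h1 m hm], updNum_apply_same]
    simp only [map_mul, aeval_C, map_pow, aeval_X, pow_zero, mul_one, map_sub]
    ring
  have hinj : Function.Injective (fun v : A => (⟨ρ v, hmem v⟩ : R)) := by
    intro v w hvw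
    have h1 : ρ v = ρ w := congrArg Subtype.val hvw
    have h2 := hρ1 v
    have h3 := hρ1 w
    rw [h1, hval] at h2
    rw [hval] at h3
    have h4 : algebraMap (ZMod p) (AlgebraicClosure (ZMod p))
        (((v : ZMod p) - (x (.inr ⟨i, ⟨0, hM⟩⟩)).1) * (x (.inr ⟨i, ⟨0, hM⟩⟩)).2⁻¹) =
        algebraMap (ZMod p) (AlgebraicClosure (ZMod p))
        (((w : ZMod p) - (x (.inr ⟨i, ⟨0, hM⟩⟩)).1) * (x (.inr ⟨i, ⟨0, hM⟩⟩)).2⁻¹) := by
      linear_combination h2 - h3
    have h5 := (algebraMap (ZMod p) (AlgebraicClosure (ZMod p))).injective h4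
    have h6 := mul_right_cancel₀ (inv_ne_zero hden) h5
    exact Subtype.ext (by linear_combination h6)
  have h1 : Nat.card A ≤ Nat.card R := Nat.card_le_card_of_injective _ hinj
  refine h1.trans ?_
  rw [Nat.card_eq_fintype_card, Fintype.card_coe]
  refine (Multiset.toFinset_card_le _).trans ?_
  rw [← natDegree_map (algebraMap (ZMod p) (AlgebraicClosure (ZMod p)))]
  exact card_roots' _

lemma map_ne_zero' {p : ℕ} {f : ℤ[X]} (h : ¬ (p : ℤ) ∣ f.leadingCoeff) :
    f.map (Int.castRingHom (ZMod p)) ≠ 0 := by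
  intro h0
  have h1 := congrArg (fun g => g.coeff f.natDegree) h0
  simp only [coeff_map, coeff_zero] at h1
  exact h ((ZMod.intCast_zmod_eq_zero_iff_dvd _ _).1 h1)

lemma redB_ne_zero {p : ℕ} [Fact p.Prime] {r : ℤ} (hL : Large p F r) (x : Idx N M → ZMod p × ZMod p)
    (i : Fin 3) : redB F p x i ≠ 0 :=
  mul_ne_zero (map_ne_zero' (hL.lead i)) (redMonic_ne_zero _)

lemma natDegree_redB_le {p : ℕ} (x : Idx N M → ZMod p × ZMod p) (i : Fin 3) :
    (redB F p x i).natDegree ≤ (F i).natDegree + M i :=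
  natDegree_mul_le.trans (add_le_add natDegree_map_le (natDegree_redMonic_le _ _))

lemma redMonic_zero {p d : ℕ} (hd : d = 0) (a : Fin d → ZMod p × ZMod p) : redMonic p a = 1 := by
  subst hd
  simp [redMonic]

lemma redMonic_root {p : ℕ} [Fact p.Prime] (x : Idx N M → ZMod p × ZMod p) {i : Fin 3}
    {ρ : AlgebraicClosure (ZMod p)} (h : aeval ρ (redMonic p fun m => x (.inr ⟨i, m⟩)) = 0) :
    0 < M i := by
  by_contra hcon
  have h0 : M i = 0 := by omega
  rw [redMonic_zero h0, map_one] at h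
  exact one_ne_zero h

lemma card_bad0 {p : ℕ} [hp : Fact p.Prime] {r : ℤ} (hL : Large p F r) {i j : Fin 3} (hij : i ≠ j)
    (e : Fin 4) {D : ℕ} (hD : (F j).natDegree + M j ≤ D) :
    Nat.card ↥(poleSet (pos N M e) p ∩ bad0 F i j p) * (p - 1) ≤
      D * Nat.card ↥(poleSet (pos N M e) p) := by
  classical
  rcases Nat.eq_zero_or_pos (M i) with h0 | hM
  · have : bad0 (N := N) (M := M) F i j p = ∅ := by
      ext x
      simp only [Set.mem_empty_iff_false, iff_false]
      rintro ⟨ρ, h1, _⟩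
      have := redMonic_root x h1
      omega
    rw [this, Set.inter_empty]
    simp
  · refine card_bad_le hp.out (pos_ne_inr e ⟨i, ⟨0, hM⟩⟩) _ D fun x hx => ?_
    refine le_trans ?_ ((card_common_root i hM (pos_ne_inr e ⟨i, ⟨0, hM⟩⟩) hx (redB F p x j)
      (redB_ne_zero hL x j)).trans ((natDegree_redB_le x j).trans hD))
    refine Nat.card_le_card_of_injective (fun v => ⟨v.1, ?_⟩) ?_
    · obtain ⟨ρ, h1, h2⟩ := v.2
      refine ⟨ρ, h1, ?_⟩
      have h3 : redB F p (updNum x (.inr ⟨i, ⟨0, hM⟩⟩) v.1) j = redB F p x j := by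
        rw [redB, redB]
        congr 2
        funext m
        apply updNum_apply_ne
        intro h
        exact hij (congrArg Sigma.fst (Sum.inr_injective h)).symm
      rwa [h3] at h2
    · intro v w h
      exact Subtype.ext (Subtype.mk.inj h)

lemma card_bad1 {p : ℕ} [hp : Fact p.Prime] {r : ℤ} (hL : Large p F r) {i j : Fin 3}
    (e : Fin 4) {D : ℕ} (hD : (F i).natDegree ≤ D) :
    Nat.card ↥(poleSet (pos N M e) p ∩ bad1 F i j p) * (p - 1) ≤
      D * Nat.card ↥(poleSet (pos N M e) p) := by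
  classical
  rcases Nat.eq_zero_or_pos (M j) with h0 | hM
  · have : bad1 (N := N) (M := M) F i j p = ∅ := by
      ext x
      simp only [Set.mem_empty_iff_false, iff_false]
      rintro ⟨ρ, h1, _⟩
      have := redMonic_root x h1
      omega
    rw [this, Set.inter_empty]
    simp
  · refine card_bad_le hp.out (pos_ne_inr e ⟨j, ⟨0, hM⟩⟩) _ D fun x hx => ?_
    refine le_trans ?_ ((card_common_root j hM (pos_ne_inr e ⟨j, ⟨0, hM⟩⟩) hx
      ((F i).map (Int.castRingHom (ZMod p))) (map_ne_zero' (hL.lead i))).trans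
      (natDegree_map_le.trans hD))
    exact Nat.card_le_card_of_injective (fun v => ⟨v.1, v.2⟩) fun v w h =>
      Subtype.ext (Subtype.mk.inj h)

/-- Avoiding the bad sets makes the reductions of the denominators coprime. -/
lemma coprime_of_not_bad {p : ℕ} [hp : Fact p.Prime] {r : ℤ} (hL : Large p F r) {i j : Fin 3}
    {U V : ℤ[X]} (hUV : U * F i + V * F j = C r) {x : Idx N M → ZMod p × ZMod p}
    (h0 : x ∉ bad0 F i j p) (h1 : x ∉ bad1 F i j p) : IsCoprime (redB F p x i) (redB F p x j) := by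
  rw [isCoprime_iff_aeval_ne_zero_of_isAlgClosed (k := ZMod p) (AlgebraicClosure (ZMod p))]
  intro ρ
  by_contra hcon
  rw [not_or, not_not, not_not] at hcon
  obtain ⟨hi, hj⟩ := hcon
  have hi' : aeval ρ ((F i).map (Int.castRingHom (ZMod p))) *
      aeval ρ (redMonic p fun m => x (.inr ⟨i, m⟩)) = 0 := by rw [← map_mul]; exact hi
  have hj' : aeval ρ ((F j).map (Int.castRingHom (ZMod p))) *
      aeval ρ (redMonic p fun m => x (.inr ⟨j, m⟩)) = 0 := by rw [← map_mul]; exact hj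
  rcases mul_eq_zero.1 hi' with h2 | h2
  · rcases mul_eq_zero.1 hj' with h3 | h3
    · have h4 := congrArg (fun g => aeval ρ (g.map (Int.castRingHom (ZMod p)))) hUV
      simp only [Polynomial.map_add, Polynomial.map_mul, map_add, map_mul, h2, h3, mul_zero, add_zero,
        map_C, aeval_C] at h4
      have h5 : (algebraMap (ZMod p) (AlgebraicClosure (ZMod p))) ((r : ℤ) : ZMod p) = 0 := h4.symm
      rw [map_eq_zero] at h5
      exact hL.res ((ZMod.intCast_zmod_eq_zero_iff_dvd _ _).1 h5)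
    · exact h1 ⟨ρ, h3, h2⟩
  · exact h0 ⟨ρ, h2, hj⟩

/-- The local densities. -/
theorem density_EvP {P₀ : ℕ} {r : ℤ} (hP₀ : ∀ p, P₀ ≤ p → Large p F r) {i j : Fin 3}
    (hij : i ≠ j) {U V : ℤ[X]} (hUV : U * F i + V * F j = C r) (e : Fin 4) {ε : ℝ} (hε : 0 < ε) :
    ∀ᶠ H : ℕ in Filter.atTop,
      (open Classical in (((qBox (Idx N M) H).filter
        (fun θ => ¬ ∃ p : ℕ, p.Prime ∧ Large p F r ∧ EvP F i j e p θ)).card : ℝ)) ≤
        ε * ((qBox (Idx N M) H).card : ℝ) := by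
  classical
  set D := (F i).natDegree + ((F j).natDegree + M j) with hD
  let E : ∀ p : ℕ, Set (Idx N M → ZMod p × ZMod p) := fun p =>
    {x | x ∈ poleSet (pos N M e) p ∧ IsCoprime (redB F p x i) (redB F p x j)}
  have hE : ∀ p, p.Prime → max P₀ (2 * (2 * D) + 1) ≤ p →
      ((1 / 2 : ℝ) * (1 / 2 : ℝ) ^ (2 * Fintype.card (Idx N M))) / p ≤
        (Nat.card (E p) : ℝ) / (p : ℝ) ^ (2 * Fintype.card (Idx N M)) := by
    intro p hp hpP
    have : Fact p.Prime := ⟨hp⟩
    have hL := hP₀ p ((le_max_left _ _).trans hpP)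
    have hpD : 2 * (2 * D) + 1 ≤ p := (le_max_right _ _).trans hpP
    let bad : Fin 2 → Set (Idx N M → ZMod p × ZMod p) := ![bad0 F i j p, bad1 F i j p]
    have h1 := card_avoid hp (κ := pos N M e) bad D (by
      intro s
      fin_cases s
      · exact card_bad0 hL hij e (by omega)
      · exact card_bad1 hL e (by omega)) (by
      rw [Fintype.card_fin]; omega)
    refine h1.trans (div_le_div_of_nonneg_right ?_ (by positivity))
    have h2 : Nat.card ↥{x | x ∈ poleSet (pos N M e) p ∧ ∀ s, x ∉ bad s} ≤ Nat.card (E p) := by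
      refine Nat.card_mono (Set.toFinite _) ?_
      rintro x ⟨hx1, hx2⟩
      exact ⟨hx1, coprime_of_not_bad hL hUV (hx2 0) (hx2 1)⟩
    exact_mod_cast h2
  filter_upwards [density_one E (c := (1 / 2 : ℝ) * (1 / 2 : ℝ) ^ (2 * Fintype.card (Idx N M)))
    (by positivity) _ hE hε] with H hH
  refine le_trans (Nat.cast_le.2 (Finset.card_le_card (Finset.monotone_filter_right _ ?_))) hH
  intro θ _ hθ p hp hpP hres
  apply hθ
  obtain ⟨hres1, hres2⟩ := hres
  obtain ⟨⟨h2, _⟩, h3⟩ := mem_poleSet.1 hres1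
  exact ⟨p, hp, hP₀ p ((le_max_left _ _).trans hpP), h2, h3, hres2⟩

end

end Pool.Agent.Helper11.ZP
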