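import Pool.Agent.Helper11.ZP.Rel

open UpperHalfPlane

namespace Pool.Agent.Helper11.ZP

/-- No zero of `F` over any valued algebraically closed extension of `ℂ` (with `p` of positive
valuation) has its pattern of integral coordinates compatible with `c`: the coordinates of index `i` with
`c i = none` integral, coordinates in the same class simultaneously integral or not. -/
def Excluded {n k : ℕ} (F : Set (MvPolynomial (Fin n) ℂ)) (c : Fin n → Option (Fin k)) : Prop :=
  ∃ p : ℕ, p.Prime ∧ ∀ (K : Type) [Field K] [IsAlgClosed K] [Algebra ℂ K] (O : ValuationSubring K),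
    (p : K) ∈ O.nonunits → ∀ x : Fin n → K, (∀ f ∈ F, MvPolynomial.aeval x f = 0) →
      (∀ i, c i = none → x i ∈ O) → (∀ i j, c i = c j → (x i ∈ O ↔ x j ∈ O)) → False

lemma mem_of_isIntegral {K : Type*} [Field K] (O : ValuationSubring K) {y : K}
    (h : IsIntegral O y) : y ∈ O := by
  obtain ⟨z, hz⟩ := IsIntegrallyClosed.isIntegral_iff.1 h
  rw [← hz]
  exact z.2

lemma mem_of_isIntegral_int {K : Type*} [Field K] (O : ValuationSubring K) {y : K}
    (h : IsIntegral ℤ y) : y ∈ O :=
  mem_of_isIntegral O h.tower_top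

/-- Existence of valuation subrings. -/
lemma exists_valuationSubring {K : Type*} [Field K] [CharZero K] {p : ℕ} (hp : p.Prime)
    {ι : Type*} (x : ι → K) (hx : AlgebraicIndependent ℤ x) :
    ∃ O : ValuationSubring K, (p : K) ∈ O.nonunits ∧ ∀ i, x i ∈ O := by
  let R₀ : Subring K := (MvPolynomial.aeval x : MvPolynomial ι ℤ →ₐ[ℤ] K).range.toSubring
  have hpR : (p : K) ∈ R₀ := by
    refine ⟨(p : MvPolynomial ι ℤ), ?_⟩
    simp
  let I : Ideal R₀ := Ideal.span {⟨(p : K), hpR⟩}
  have hI : I ≠ ⊤ := by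
    intro h
    have h1 : (1 : R₀) ∈ I := by rw [h]; trivial
    rw [Ideal.mem_span_singleton'] at h1
    obtain ⟨⟨y, q, rfl⟩, hy⟩ := h1
    have h2 : (MvPolynomial.aeval x : MvPolynomial ι ℤ →ₐ[ℤ] K) q * (p : K) = 1 :=
      congrArg Subtype.val hy
    have h3 : (MvPolynomial.aeval x : MvPolynomial ι ℤ →ₐ[ℤ] K) (q * (p : MvPolynomial ι ℤ))
        = (MvPolynomial.aeval x : MvPolynomial ι ℤ →ₐ[ℤ] K) 1 := by
      rw [map_mul, map_one, map_natCast]; exact h2
    have h4 : q * (p : MvPolynomial ι ℤ) = 1 := hx h3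
    have h5 := congrArg (MvPolynomial.constantCoeff) h4
    simp only [map_mul, map_natCast, map_one] at h5
    have h6 : (p : ℤ) ∣ 1 := ⟨_, by rw [← h5]; ring⟩
    have h7 := Int.eq_one_of_dvd_one (by positivity) h6
    have := hp.one_lt
    omega
  obtain ⟨O, hO1, hO2⟩ := Ideal.image_subset_nonunits_valuationSubring I hI
  refine ⟨O, hO2 ⟨⟨(p : K), hpR⟩, Ideal.subset_span rfl, rfl⟩, fun i => hO1 ⟨MvPolynomial.X i, ?_⟩⟩
  simp

section

variable {n : ℕ} (S : SpecialData n)

open MvPolynomial in
/-- The relation between two coordinates in the same class, as a polynomial vanishing on `S`. -/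
lemma exists_rel_poly {i j : Fin n} {s : Fin S.r} (hi : S.cls i = some s) (hj : S.cls j = some s) :
    ∃ P : Polynomial (Polynomial OO), P.Monic ∧
      ∀ y ∈ S.carrier, eval y (P.eval₂
        (Polynomial.eval₂RingHom ((C : ℂ →+* MvPolynomial (Fin n) ℂ).comp (algebraMap OO ℂ)) (X j))
        (X i)) = 0 := by
  obtain ⟨P, hP, hP2⟩ := exists_relation (S.g i) (S.g j) (S.hg i) (S.hg j)
  refine ⟨P, hP, fun y hy => ?_⟩
  obtain ⟨τ, hτ⟩ := hy.2 s
  obtain ⟨τ₁, h1, h1'⟩ := hτ i hi
  obtain ⟨τ₂, h2, h2'⟩ := hτ j hj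
  have h := hP2 τ τ₁ τ₂ h1 h2
  rw [← h1', ← h2'] at h
  have e1 := Polynomial.hom_eval₂ P
    (Polynomial.eval₂RingHom ((C : ℂ →+* MvPolynomial (Fin n) ℂ).comp (algebraMap OO ℂ)) (X j))
    (eval y) (X i)
  rw [e1, eval_X]
  have e2 : (eval y).comp (Polynomial.eval₂RingHom
      ((C : ℂ →+* MvPolynomial (Fin n) ℂ).comp (algebraMap OO ℂ)) (X j)) = evO (y j) := by
    apply Polynomial.ringHom_ext
    · intro a
      simp [evO]
    · simp [evO]
  rw [e2]
  exact h

variable {K : Type} [Field K] [Algebra ℂ K]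

/-- Integrality over a valuation ring propagates along monic relations. -/
lemma mem_of_rel (O : ValuationSubring K) {P : Polynomial (Polynomial OO)} (hP : P.Monic) {u v : K}
    (hv : v ∈ O) (h : P.eval₂ (Polynomial.eval₂RingHom ((algebraMap ℂ K).comp (algebraMap OO ℂ)) v) u = 0) :
    u ∈ O := by
  have hO : ∀ a : OO, algebraMap ℂ K (a : ℂ) ∈ O := by
    intro a
    apply mem_of_isIntegral_int
    have h1 : IsIntegral ℤ (a : ℂ) := a.2
    exact h1.map (algebraMap ℂ K).toIntAlgHom
  let φ : OO →+* O := ((algebraMap ℂ K).comp (algebraMap OO ℂ)).codRestrict O.toSubring hO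
  let ψ : Polynomial OO →+* O := Polynomial.eval₂RingHom φ ⟨v, hv⟩
  apply mem_of_isIntegral
  refine ⟨P.map ψ, hP.map ψ, ?_⟩
  rw [Polynomial.eval₂_map]
  have : (algebraMap O K).comp ψ =
      Polynomial.eval₂RingHom ((algebraMap ℂ K).comp (algebraMap OO ℂ)) v := by
    apply Polynomial.ringHom_ext
    · intro a
      simp only [ψ, RingHom.comp_apply, Polynomial.coe_eval₂RingHom, Polynomial.eval₂_C]
      rfl
    · simp only [ψ, RingHom.comp_apply, Polynomial.coe_eval₂RingHom, Polynomial.eval₂_X]
      rfl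
  rw [this]
  exact h

end

open MvPolynomial in
/-- The key inequality, for a field-valued point. -/
theorem key_aux {n k : ℕ} {F : Set (MvPolynomial (Fin n) ℂ)}
    (hF : ∀ c : Fin n → Option (Fin k), Excluded F c) (S : SpecialData n)
    {K : Type} [Field K] [IsAlgClosed K] [Algebra ℂ K] (x : Fin n → K) (hxF : ∀ f ∈ F, aeval x f = 0)
    (relK : ∀ (i j : Fin n) (s : Fin S.r), S.cls i = some s → S.cls j = some s →
      ∃ P : Polynomial (Polynomial OO), P.Monic ∧
        P.eval₂ (Polynomial.eval₂RingHom ((algebraMap ℂ K).comp (algebraMap OO ℂ)) (x j)) (x i) = 0)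
    (constK : ∀ i : Fin n, S.cls i = none → x i = algebraMap ℂ K (S.c i))
    {t : Type} [Fintype t] (idx : t → Fin n)
    (hK : AlgebraicIndependent ℂ (fun y : t => x (idx y))) :
    Fintype.card t + (k + 1) ≤ S.r := by
  classical
  have hne : ∀ y : t, ∃ s, S.cls (idx y) = some s := by
    intro y
    rcases h : S.cls (idx y) with _ | s
    · exfalso
      have h1 := hK.transcendental y
      rw [constK _ h] at h1
      exact h1 (isAlgebraic_algebraMap _)
    · exact ⟨s, rfl⟩
  choose e he using hne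
  have einj : Function.Injective e := by
    intro y y' hyy
    by_contra hcon
    obtain ⟨P, hP, hP2⟩ := relK (idx y) (idx y') (e y) (he y) (by rw [hyy]; exact he y')
    have h1 := hK.transcendental_adjoin (s := {y'}) (i := y) hcon
    apply h1
    set D := Algebra.adjoin ℂ ((fun y : t => x (idx y)) '' {y'}) with hD
    have hmemD : x (idx y') ∈ D := Algebra.subset_adjoin ⟨y', rfl, rfl⟩
    let ψ : Polynomial OO →+* D :=
      Polynomial.eval₂RingHom ((algebraMap ℂ D).comp (algebraMap OO ℂ)) ⟨x (idx y'), hmemD⟩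
    refine IsIntegral.isAlgebraic ⟨P.map ψ, hP.map ψ, ?_⟩
    rw [Polynomial.eval₂_map]
    have h5 : (algebraMap D K).comp ψ =
        Polynomial.eval₂RingHom ((algebraMap ℂ K).comp (algebraMap OO ℂ)) (x (idx y')) := by
      apply Polynomial.ringHom_ext
      · intro a
        simp only [ψ, RingHom.comp_apply, Polynomial.coe_eval₂RingHom, Polynomial.eval₂_C]
        rfl
      · simp only [ψ, RingHom.comp_apply, Polynomial.coe_eval₂RingHom, Polynomial.eval₂_X]
        rfl
    rw [h5]
    exact hP2
  by_contra hlt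
  have hcard : Fintype.card {s : Fin S.r // s ∉ Set.range e} ≤ Fintype.card (Fin k) := by
    have h1 : Fintype.card {s : Fin S.r // s ∉ Set.range e} = S.r - Fintype.card t := by
      rw [Fintype.card_subtype_compl, Fintype.card_fin]
      congr 1
      exact (Fintype.card_congr (Equiv.ofInjective e einj)).symm
    rw [h1, Fintype.card_fin]
    omega
  obtain ⟨emb⟩ := Function.Embedding.nonempty_of_card_le hcard
  let c : Fin n → Option (Fin k) := fun i =>
    match S.cls i with
    | none => none
    | some s => if h : s ∈ Set.range e then none else some (emb ⟨s, h⟩)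
  obtain ⟨p, hp, hO⟩ := hF c
  have hchar : CharZero K := charZero_of_injective_algebraMap (algebraMap ℂ K).injective
  obtain ⟨O, hpO, hxO⟩ := exists_valuationSubring hp (fun y : t => x (idx y))
    (hK.restrictScalars (algebraMap ℤ ℂ).injective_int)
  have M2 : ∀ (i j : Fin n) (s : Fin S.r), S.cls i = some s → S.cls j = some s → x j ∈ O → x i ∈ O := by
    intro i j s hi hj hxj
    obtain ⟨P, hP, hP2⟩ := relK i j s hi hj
    exact mem_of_rel O hP hxj hP2
  have hnone : ∀ i, c i = none → x i ∈ O := by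
    intro i hi
    rcases h : S.cls i with _ | s
    · rw [constK i h]
      exact mem_of_isIntegral_int O ((S.hc i h).isIntegral.map (algebraMap ℂ K).toIntAlgHom)
    · by_cases hs : s ∈ Set.range e
      · obtain ⟨y, rfl⟩ := hs
        exact M2 i (idx y) (e y) h (he y) (hxO y)
      · exfalso
        simp only [c, h] at hi
        rw [dif_neg hs] at hi
        exact absurd hi (by simp)
  refine hO K O hpO x hxF hnone ?_
  intro i j hij
  rcases hci : c i with _ | u
  · exact ⟨fun _ => hnone j (hij ▸ hci), fun _ => hnone i hci⟩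
  · have hcj : c j = some u := hij ▸ hci
    have get : ∀ i, c i = some u → ∃ (s : Fin S.r) (hs : s ∉ Set.range e), S.cls i = some s ∧ emb ⟨s, hs⟩ = u := by
      intro i hi
      rcases h : S.cls i with _ | s
      · simp only [c, h] at hi
        exact absurd hi (by simp)
      · by_cases hs : s ∈ Set.range e
        · simp only [c, h] at hi
          rw [dif_pos hs] at hi
          exact absurd hi (by simp)
        · simp only [c, h] at hi
          rw [dif_neg hs] at hi
          exact ⟨s, hs, rfl, Option.some_injective _ hi⟩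
    obtain ⟨s, hs, h1, h2⟩ := get i hci
    obtain ⟨s', hs', h1', h2'⟩ := get j hcj
    have hss : s = s' := congrArg Subtype.val (emb.injective (h2.trans h2'.symm))
    subst hss
    exact ⟨M2 j i s h1' h1, M2 i j s h1 h1'⟩

open MvPolynomial in
/-- The key inequality: excluded patterns force special subvarieties through `A` to be large. -/
theorem key {n k : ℕ} {F : Set (MvPolynomial (Fin n) ℂ)}
    (hF : ∀ c : Fin n → Option (Fin k), Excluded F c) {A : Set (Fin n → ℂ)} (hA : IsSubvariety A)
    (hAF : ∀ y ∈ A, ∀ f ∈ F, eval y f = 0) (S : SpecialData n) (hAS : A ⊆ S.carrier) :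
    dim A + (k + 1) ≤ S.r := by
  classical
  obtain ⟨I, hI, rfl⟩ := hA
  have hvan : vanishingIdeal ℂ (zeroLocus ℂ I) = I := IsPrime.vanishingIdeal_zeroLocus I
  have hmem : ∀ f : MvPolynomial (Fin n) ℂ, (∀ y ∈ zeroLocus ℂ I, eval y f = 0) → f ∈ I := by
    intro f hf
    rw [← hvan]
    exact fun y hy => by rw [MvPolynomial.aeval_eq_eval]; exact hf y hy
  -- function field
  let B := MvPolynomial (Fin n) ℂ ⧸ I
  let K := AlgebraicClosure (FractionRing B)
  let ξ : Fin n → B := fun i => Ideal.Quotient.mk I (X i)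
  let x : Fin n → K := fun i => algebraMap B K (ξ i)
  have hinj : Function.Injective (algebraMap B K) := by
    rw [IsScalarTower.algebraMap_eq B (FractionRing B) K]
    exact (algebraMap (FractionRing B) K).injective.comp (IsFractionRing.injective B _)
  have hadj : Algebra.adjoin ℂ (Set.range ξ) = ⊤ := by
    have h1 : (Ideal.Quotient.mkₐ ℂ I).range = ⊤ :=
      AlgHom.range_eq_top _ |>.2 (Ideal.Quotient.mkₐ_surjective ℂ I)
    rw [← h1, ← Algebra.map_top, ← MvPolynomial.adjoin_range_X, AlgHom.map_adjoin, ← Set.range_comp]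
    rfl
  have halg : Algebra.IsAlgebraic (Algebra.adjoin ℂ (Set.range ξ)) B := by
    refine ⟨fun b => ?_⟩
    have hb : b ∈ Algebra.adjoin ℂ (Set.range ξ) := by rw [hadj]; trivial
    exact isAlgebraic_algebraMap (⟨b, hb⟩ : Algebra.adjoin ℂ (Set.range ξ))
  obtain ⟨t, ht, hbas⟩ := exists_isTranscendenceBasis_subset (R := ℂ) (Set.range ξ)
  have hdim : dim (zeroLocus ℂ I) = Nat.card t := by
    rw [dim, hvan, ← hbas.cardinalMk_eq_trdeg]
    rfl
  have htfin : Finite t := ((Set.finite_range ξ).subset ht).to_subtype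
  have hidx : ∀ y : t, ∃ i : Fin n, ξ i = y := fun y => ht y.2
  choose idx hidx using hidx
  have hK : AlgebraicIndependent ℂ (fun y : t => x (idx y)) := by
    have h1 := hbas.1.map' (f := IsScalarTower.toAlgHom ℂ B K) hinj
    have h2 : (fun y : t => x (idx y)) = (IsScalarTower.toAlgHom ℂ B K) ∘ ((↑) : t → B) := by
      funext y
      simp only [x, hidx, Function.comp_apply, IsScalarTower.coe_toAlgHom']
    rw [h2]
    exact h1
  have hx : ∀ f : MvPolynomial (Fin n) ℂ, aeval x f = algebraMap B K (Ideal.Quotient.mk I f) := by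
    intro f
    have h1 : (aeval x : MvPolynomial (Fin n) ℂ →ₐ[ℂ] K) =
        (IsScalarTower.toAlgHom ℂ B K).comp (Ideal.Quotient.mkₐ ℂ I) := by
      apply MvPolynomial.algHom_ext
      intro i
      rw [aeval_X]
      rfl
    rw [h1]
    rfl
  have hx0 : ∀ f : MvPolynomial (Fin n) ℂ, f ∈ I → aeval x f = 0 := by
    intro f hf
    rw [hx, Ideal.Quotient.eq_zero_iff_mem.2 hf, map_zero]
  -- relations at the generic point
  have relK : ∀ (i j : Fin n) (s : Fin S.r), S.cls i = some s → S.cls j = some s →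
      ∃ P : Polynomial (Polynomial OO), P.Monic ∧
        P.eval₂ (Polynomial.eval₂RingHom ((algebraMap ℂ K).comp (algebraMap OO ℂ)) (x j)) (x i) = 0 := by
    intro i j s hi hj
    obtain ⟨P, hP, hP2⟩ := exists_rel_poly S hi hj
    refine ⟨P, hP, ?_⟩
    have h1 := hx0 _ (hmem _ fun y hy => hP2 y (hAS hy))
    have h2 := Polynomial.hom_eval₂ P
      (Polynomial.eval₂RingHom ((C : ℂ →+* MvPolynomial (Fin n) ℂ).comp (algebraMap OO ℂ)) (X j))
      (aeval x : MvPolynomial (Fin n) ℂ →ₐ[ℂ] K).toRingHom (X i)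
    have h3 : (aeval x : MvPolynomial (Fin n) ℂ →ₐ[ℂ] K).toRingHom.comp (Polynomial.eval₂RingHom
        ((C : ℂ →+* MvPolynomial (Fin n) ℂ).comp (algebraMap OO ℂ)) (X j)) =
        Polynomial.eval₂RingHom ((algebraMap ℂ K).comp (algebraMap OO ℂ)) (x j) := by
      apply Polynomial.ringHom_ext
      · intro a
        simp
      · simp
    have h4 : (aeval x : MvPolynomial (Fin n) ℂ →ₐ[ℂ] K).toRingHom (X i) = x i := by simp
    rw [h3, h4] at h2
    rw [← h2]
    exact h1
  have constK : ∀ i : Fin n, S.cls i = none → x i = algebraMap ℂ K (S.c i) := by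
    intro i hi
    have h1 := hx0 (X i - C (S.c i)) (hmem _ fun y hy => by
      rw [map_sub, eval_X, eval_C, (hAS hy).1 i hi, sub_self])
    rw [map_sub, aeval_X, aeval_C, sub_eq_zero] at h1
    exact h1
  have : Fintype t := Fintype.ofFinite t
  rw [hdim, Nat.card_eq_fintype_card]
  exact key_aux hF S x (fun f hf => hx0 f (hmem f fun y hy => hAF y hy f hf)) relK constK idx hK

end Pool.Agent.Helper11.ZP
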