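import Pool.Agent.Helper11.ZP.Upper

open UpperHalfPlane ModularForm Complex Filter Function
open scoped Real MatrixGroups Topology Manifold

namespace Pool.Agent.Helper11.ZP


section

variable (m : ℤ) [hm : Fact (0 < m)]

lemma mpos : (0 : ℝ) < (m : ℝ) := by exact_mod_cast hm.out

lemma exists_rep' (o : Orb m) : ∃ B : DM m, B ∈ FixedDetMatrices.reps m ∧ mkO B = o := by
  obtain ⟨A, rfl⟩ := Quotient.exists_rep o
  exact exists_rep hm.out.ne' A

/-- Upper triangular representative. -/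
noncomputable def U (o : Orb m) : DM m := (exists_rep' m o).choose

lemma U10 (o : Orb m) : (U m o).1 1 0 = 0 := (exists_rep' m o).choose_spec.1.1
lemma U00 (o : Orb m) : 0 < (U m o).1 0 0 := (exists_rep' m o).choose_spec.1.2.1
lemma mkO_U (o : Orb m) : mkO (U m o) = o := (exists_rep' m o).choose_spec.2

/-- The ring of good functions of period `m` with algebraic integer coefficients. -/
noncomputable abbrev RR : Subring (goodRing (m : ℝ)) := intGood (mpos m)

/-- Composition with the representative, as an element of the ring. -/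
noncomputable def comp (f : ℍ → ℂ) (hf : Good 1 f) (hi : qExpansion 1 f ∈ intPS) (o : Orb m) :
    RR m :=
  ⟨⟨fun τ => f (toGL hm.out (U m o) • τ), good_upper (U m o) (U10 m o) (U00 m o) hf⟩,
    qexp_upper_mem (U m o) (U10 m o) (U00 m o) hf hi⟩

/-- `ModularForm.discriminant` composed with the representative. -/
noncomputable def dI (o : Orb m) : RR m := comp m ModularForm.discriminant isMF_disc.good qexp_disc_mem o
/-- `E₄³` composed with the representative. -/
noncomputable def eI (o : Orb m) : RR m := comp m Ecube isMF_Ecube.good qexp_Ecube_mem o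

/-- Evaluation. -/
noncomputable def ev (τ : ℍ) : RR m →+* ℂ :=
  (Pi.evalRingHom (fun _ : ℍ => ℂ) τ).comp ((goodRing (m : ℝ)).subtype.comp (RR m).subtype)

lemma ev_apply (τ : ℍ) (r : RR m) : ev m τ r = r.1.1 τ := rfl

open Polynomial in
/-- The product polynomial with integral coefficients. -/
noncomputable def PP : Polynomial (RR m) := ∏ o : Orb m, (C (dI m o) * X - C (eI m o))

/-- The scaling factor of an orbit. -/
noncomputable def kap (o : Orb m) : ℂ := (m : ℂ) ^ (11 : ℤ) * (((U m o).1 1 1 : ℤ) : ℂ) ^ (-12 : ℤ)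

lemma kap_ne_zero (o : Orb m) : kap m o ≠ 0 := by
  have h1 : (m : ℂ) ≠ 0 := by exact_mod_cast hm.out.ne'
  have h2 : (((U m o).1 1 1 : ℤ) : ℂ) ≠ 0 := by
    exact_mod_cast (d_pos (U m o) (U10 m o) (U00 m o)).ne'
  exact mul_ne_zero (zpow_ne_zero _ h1) (zpow_ne_zero _ h2)

lemma slO_eq {f : ℍ → ℂ} (hf : ∀ γ : SL(2, ℤ), f ∣[(12 : ℤ)] γ = f) (o : Orb m) (τ : ℍ) :
    slO hm.out hf o τ = kap m o * f (toGL hm.out (U m o) • τ) := by
  conv_lhs => rw [← mkO_U m o]
  rw [slO_mk, sl_apply, denom_upper _ (U10 m o), kap]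
  ring

open Polynomial in
lemma Pol_eq (τ : ℍ) : Pol m τ = C (∏ o : Orb m, kap m o) * (PP m).map (ev m τ) := by
  rw [PP, Polynomial.map_prod, map_prod, ← Finset.prod_mul_distrib, Pol]
  refine Finset.prod_congr rfl fun o _ => ?_
  rw [slO_eq, slO_eq]
  simp only [Polynomial.map_sub, Polynomial.map_mul, Polynomial.map_C, Polynomial.map_X, C_mul]
  have h1 : ev m τ (dI m o) = ModularForm.discriminant (toGL hm.out (U m o) • τ) := rfl
  have h2 : ev m τ (eI m o) = Ecube (toGL hm.out (U m o) • τ) := rfl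
  rw [h1, h2]
  ring

/-- The number of orbits. -/
noncomputable abbrev ss : ℕ := Fintype.card (Orb m)

/-- The coefficient functions. -/
noncomputable def g (i : ℕ) : ℍ → ℂ := ((PP m).coeff i).1.1

lemma kprod_ne_zero : (∏ o : Orb m, kap m o) ≠ 0 :=
  Finset.prod_ne_zero_iff.2 fun o _ => kap_ne_zero m o

lemma g_smul (i : ℕ) (γ : SL(2, ℤ)) (τ : ℍ) :
    g m i (γ • τ) = denom γ τ ^ (12 * (ss m : ℤ)) * g m i τ := by
  have h := congrArg (fun P => Polynomial.coeff P i) (Pol_smul m γ τ)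
  simp only [Pol_eq, Polynomial.coeff_C_mul, Polynomial.coeff_map, ev_apply] at h
  have h0 := kprod_ne_zero m
  apply mul_left_cancel₀ h0
  change (∏ o : Orb m, kap m o) * ((PP m).coeff i).1.1 (γ • τ) = _
  rw [h]
  change _ = (∏ o : Orb m, kap m o) * (denom γ τ ^ (12 * (ss m : ℤ)) * ((PP m).coeff i).1.1 τ)
  ring

lemma g_isMF (i : ℕ) : IsMF (12 * (ss m : ℕ)) (g m i) := by
  refine isMF_iff.2 ⟨fun γ => ?_, ((PP m).coeff i).1.2.hol, ((PP m).coeff i).1.2.bdd⟩
  funext τ
  rw [SL_slash_apply, g_smul, mul_comm, ← mul_assoc, ← zpow_add₀ (denom_ne_zero _ _)]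
  simp

lemma m_eq : ((m.toNat : ℕ) : ℝ) = (m : ℝ) := by
  have := Int.toNat_of_nonneg hm.out.le
  exact_mod_cast this

lemma mtoNat_pos : 0 < m.toNat := by have := hm.out; omega

lemma g_int (i : ℕ) : qExpansion 1 (g m i) ∈ intPS := by
  refine qexp_of_width_mem (mtoNat_pos m) (g_isMF m i).good ?_
  rw [m_eq]
  exact ((PP m).coeff i).2

/-- The polynomials in `j`. -/
noncomputable def pp (i : ℕ) : Polynomial OO := (structure_thm (ss m) (g m i) (g_isMF m i) (g_int m i)).choose

lemma pp_deg (i : ℕ) : (pp m i).natDegree ≤ ss m :=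
  (structure_thm (ss m) (g m i) (g_isMF m i) (g_int m i)).choose_spec.1

lemma pp_eval (i : ℕ) (τ : ℍ) :
    g m i τ = ModularForm.discriminant τ ^ (ss m) * (pp m i).eval₂ (algebraMap OO ℂ) (jInv τ) :=
  (structure_thm (ss m) (g m i) (g_isMF m i) (g_int m i)).choose_spec.2 τ

open Polynomial in
lemma PP_coeff_top : (PP m).coeff (ss m) = ∏ o : Orb m, dI m o := by
  have h := Polynomial.coeff_prod_of_natDegree_le (s := (Finset.univ : Finset (Orb m)))
    (fun o => C (dI m o) * X - C (eI m o)) 1 (fun o _ => by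
      refine (natDegree_sub_le _ _).trans (max_le ?_ ?_)
      · exact (natDegree_C_mul_le _ _).trans natDegree_X_le
      · simp)
  rw [Finset.card_univ, mul_one] at h
  rw [PP, h]
  refine Finset.prod_congr rfl fun o _ => ?_
  simp

lemma g_top_ne_zero (τ : ℍ) : g m (ss m) τ ≠ 0 := by
  have h : g m (ss m) τ = ev m τ ((PP m).coeff (ss m)) := rfl
  rw [h, PP_coeff_top, map_prod]
  exact Finset.prod_ne_zero_iff.2 fun o _ => discriminant_ne_zero _

/-- The top coefficient is constant. -/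
lemma pp_top : ∃ c : OO, pp m (ss m) = Polynomial.C c := by
  have h1 : ∀ x : ℂ, ((pp m (ss m)).map (algebraMap OO ℂ)).eval x ≠ 0 := by
    intro x hx
    obtain ⟨τ, rfl⟩ := jInv_surjective x
    apply g_top_ne_zero m τ
    rw [pp_eval, ← Polynomial.eval_map, hx, mul_zero]
  have h2 : ((pp m (ss m)).map (algebraMap OO ℂ)).degree = 0 := by
    by_contra hcon
    obtain ⟨x, hx⟩ := IsAlgClosed.exists_root _ hcon
    exact h1 x hx
  have h3 : (pp m (ss m)).degree = 0 := by
    rwa [Polynomial.degree_map_eq_of_injective (FaithfulSMul.algebraMap_injective _ _)] at h2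
  exact ⟨_, Polynomial.eq_C_of_degree_eq_zero h3⟩

/-- Lowest coefficient of a composition. -/
lemma comp_lowest {f : ℍ → ℂ} (hf : Good 1 f) (hi : qExpansion 1 f ∈ intPS) {n : ℕ} {u : ℂ}
    (hl : Lowest (qExpansion 1 f) n u) (o : Orb m) :
    Lowest (qe (mpos m) (comp m f hf hi o).1) (((U m o).1 0 0).toNat ^ 2 * n) (u * zt (U m o) ^ n) :=
  qexp_upper_lowest (U m o) (U10 m o) (U00 m o) hf hl

/-- The function `ModularForm.discriminant` in the ring. -/
noncomputable def dJ : goodRing (m : ℝ) := ⟨ModularForm.discriminant, by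
  have := isMF_disc.good.width (m := m.toNat)
  rwa [m_eq] at this⟩
/-- The function `E₄³` in the ring. -/
noncomputable def eJ : goodRing (m : ℝ) := ⟨Ecube, by
  have := isMF_Ecube.good.width (m := m.toNat)
  rwa [m_eq] at this⟩

lemma dJ_lowest : Lowest (qe (mpos m) (dJ m)) m.toNat 1 := by
  have h := qexp_width_lowest (mtoNat_pos m) isMF_disc.good qexp_disc_lowest
  rw [m_eq, mul_one] at h
  exact h

lemma eJ_lowest : Lowest (qe (mpos m) (eJ m)) 0 1 := by
  have h := qexp_width_lowest (mtoNat_pos m) isMF_Ecube.good qexp_Ecube_lowest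
  rw [m_eq, mul_zero] at h
  exact h

lemma pp_top_unit : ∃ c : ℂ, IsUnitInt c ∧ ∀ τ, g m (ss m) τ = ModularForm.discriminant τ ^ (ss m) * c := by
  obtain ⟨c, hc⟩ := pp_top m
  have hg : ∀ τ, g m (ss m) τ = ModularForm.discriminant τ ^ (ss m) * (c : ℂ) := by
    intro τ
    rw [pp_eval, hc, Polynomial.eval₂_C]
    rfl
  refine ⟨c, ?_, hg⟩
  have hc0 : (c : ℂ) ≠ 0 := by
    intro h
    apply g_top_ne_zero m UpperHalfPlane.I
    rw [hg, h, mul_zero]
  have e1 : qe (mpos m) ((PP m).coeff (ss m)).1 = ∏ o : Orb m, qe (mpos m) (dI m o).1 := by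
    rw [PP_coeff_top]
    have : ((∏ o : Orb m, dI m o : RR m) : goodRing (m : ℝ)) = ∏ o : Orb m, (dI m o : goodRing (m : ℝ)) :=
      map_prod (RR m).subtype _ _
    rw [this, map_prod]
  have l1 : Lowest (qe (mpos m) ((PP m).coeff (ss m)).1) (∑ o : Orb m, ((U m o).1 0 0).toNat ^ 2 * 1)
      (∏ o : Orb m, 1 * zt (U m o) ^ 1) := by
    rw [e1]
    exact Lowest.prod _ _ _ _ fun o _ => comp_lowest m isMF_disc.good qexp_disc_mem qexp_disc_lowest o
  have hconst : Good (m : ℝ) (fun _ : ℍ => (c : ℂ)) := Good.const _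
  have e2 : ((PP m).coeff (ss m)).1 = (dJ m) ^ (ss m) * ⟨fun _ => (c : ℂ), hconst⟩ := by
    apply Subtype.ext
    funext τ
    exact hg τ
  have l2 : Lowest (qe (mpos m) (⟨fun _ => (c : ℂ), hconst⟩ : goodRing (m : ℝ))) 0 (c : ℂ) := by
    refine ⟨fun i hi => absurd hi (by omega), ?_⟩
    have h1 := (Good.const (h := (m : ℝ)) 1).analytic (mpos m)
    have h2 := qExpansion_smul (f := (1 : ℍ → ℂ)) h1 (c : ℂ)
    have h3 : (fun _ : ℍ => (c : ℂ)) = (c : ℂ) • (1 : ℍ → ℂ) := by funext τ; simp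
    change (PowerSeries.coeff 0) (qExpansion (m : ℝ) (fun _ : ℍ => (c : ℂ))) = _
    rw [h3, h2, qExpansion_one]
    simp
  have l3 := ((dJ_lowest m).pow (ss m)).mul l2
  rw [← map_pow, ← map_mul, ← e2] at l3
  simp only [one_mul, pow_one, mul_one, one_pow, add_zero] at l1 l3
  have hz : (∏ o : Orb m, zt (U m o)) ≠ 0 :=
    (IsUnitInt.prod _ _ fun o _ => isUnitInt_zt (U m o) (U10 m o) (U00 m o)).2.2
  obtain ⟨_, h⟩ := l3.unique l1 hc0 hz
  rw [h]
  exact IsUnitInt.prod _ _ fun o _ => isUnitInt_zt (U m o) (U10 m o) (U00 m o)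

lemma Pol_root (A : DM m) (τ : ℍ) : (Pol m τ).eval (jInv (toGL hm.out A • τ)) = 0 := by
  rw [Pol, Polynomial.eval_prod]
  refine Finset.prod_eq_zero (Finset.mem_univ (mkO A)) ?_
  rw [slO_mk, slO_mk, sl_apply, sl_apply]
  simp only [Polynomial.eval_sub, Polynomial.eval_mul, Polynomial.eval_C, Polynomial.eval_X]
  rw [← jInv_mul (toGL hm.out A • τ)]
  ring

lemma PP_natDegree : (PP m).natDegree ≤ ss m := by
  rw [PP]
  refine (Polynomial.natDegree_prod_le _ _).trans ?_
  refine (Finset.sum_le_card_nsmul _ _ 1 fun o _ => ?_).trans (by simp [Finset.card_univ])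
  refine (Polynomial.natDegree_sub_le _ _).trans (max_le ?_ (by simp))
  exact (Polynomial.natDegree_C_mul_le _ _).trans Polynomial.natDegree_X_le

lemma sum_root (A : DM m) (τ : ℍ) :
    ∑ i ∈ Finset.range (ss m + 1), g m i τ * jInv (toGL hm.out A • τ) ^ i = 0 := by
  have h := Pol_root m A τ
  rw [Pol_eq, Polynomial.eval_mul, Polynomial.eval_C] at h
  have h2 := (mul_eq_zero.1 h).resolve_left (kprod_ne_zero m)
  rw [Polynomial.eval_map, Polynomial.eval₂_eq_sum_range' (ev m τ)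
    (Nat.lt_succ_of_le (PP_natDegree m))] at h2
  exact h2

lemma ss_pos (A : DM m) : 0 < ss m := Fintype.card_pos_iff.2 ⟨mkO A⟩

end

/-- The ring homomorphism `𝒪[Y] → ℂ` evaluating at `x`. -/
noncomputable def evO (x : ℂ) : Polynomial OO →+* ℂ := Polynomial.eval₂RingHom (algebraMap OO ℂ) x

/-- **Integral modular equation.** For every positive `m` there is a monic polynomial with
coefficients in `𝒪[Y]`, `𝒪` the ring of algebraic integers, that annihilates `j(Aτ)` at
`Y = j(τ)` for all integral matrices `A` of determinant `m`. -/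
theorem exists_modular_equation {m : ℤ} (hm : 0 < m) :
    ∃ P : Polynomial (Polynomial OO), P.Monic ∧
      ∀ (A : DM m) (τ : ℍ), P.eval₂ (evO (jInv τ)) (jInv (toGL hm A • τ)) = 0 := by
  have : Fact (0 < m) := ⟨hm⟩
  obtain ⟨c, ⟨hc, hc', hc0⟩, hg⟩ := pp_top_unit m
  let Q : Polynomial (Polynomial OO) :=
    ∑ i ∈ Finset.range (ss m), Polynomial.C (Polynomial.C (⟨c⁻¹, hc'⟩ : OO) * pp m i) * Polynomial.X ^ i
  have hQ : Q.degree < (ss m : ℕ) := by
    refine (Polynomial.degree_sum_le _ _).trans_lt ?_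
    rw [Finset.sup_lt_iff (WithBot.bot_lt_coe _)]
    intro i hi
    refine (Polynomial.degree_C_mul_X_pow_le _ _).trans_lt ?_
    exact_mod_cast Finset.mem_range.1 hi
  refine ⟨Polynomial.X ^ (ss m) + Q, Polynomial.monic_X_pow_add hQ, fun A τ => ?_⟩
  have h := sum_root m A τ
  rw [Finset.sum_range_succ, hg] at h
  rw [Polynomial.eval₂_add, Polynomial.eval₂_X_pow, Polynomial.eval₂_finsetSum]
  have h1 : ∀ i ∈ Finset.range (ss m),
      (Polynomial.C (Polynomial.C (⟨c⁻¹, hc'⟩ : OO) * pp m i) * Polynomial.X ^ i).eval₂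
        (evO (jInv τ)) (jInv (toGL hm A • τ))
      = (c * ModularForm.discriminant τ ^ (ss m))⁻¹ * (g m i τ * jInv (toGL hm A • τ) ^ i) := by
    intro i _
    rw [Polynomial.eval₂_mul, Polynomial.eval₂_C, Polynomial.eval₂_X_pow, map_mul, pp_eval]
    have h2 : evO (jInv τ) (Polynomial.C (⟨c⁻¹, hc'⟩ : OO)) = c⁻¹ := by
      rw [evO, Polynomial.coe_eval₂RingHom, Polynomial.eval₂_C]; rfl
    have h3 : evO (jInv τ) (pp m i) = (pp m i).eval₂ (algebraMap OO ℂ) (jInv τ) := rfl
    rw [h2, h3]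
    have hD := pow_ne_zero (ss m) (discriminant_ne_zero τ)
    field_simp
  rw [Finset.sum_congr rfl h1, ← Finset.mul_sum]
  have hD := pow_ne_zero (ss m) (discriminant_ne_zero τ)
  have h4 : ∑ i ∈ Finset.range (ss m), g m i τ * jInv (toGL hm A • τ) ^ i =
      -(ModularForm.discriminant τ ^ (ss m) * c * jInv (toGL hm A • τ) ^ (ss m)) := by
    linear_combination h
  rw [h4]
  field_simp
  ring

section

variable (m : ℤ) [hm : Fact (0 < m)]

lemma Lowest.add_high {φ ψ : PowerSeries ℂ} {n : ℕ} {u : ℂ} (h : Lowest φ n u)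
    (hψ : ∀ j ≤ n, PowerSeries.coeff j ψ = 0) : Lowest (φ + ψ) n u := by
  refine ⟨fun i hi => ?_, ?_⟩
  · rw [map_add, h.1 i hi, hψ i hi.le, add_zero]
  · rw [map_add, h.2, hψ n le_rfl, add_zero]

/-- The diagonal product. -/
noncomputable def KK : goodRing (m : ℝ) :=
  ∏ o : Orb m, ((dI m o).1 * eJ m - (eI m o).1 * dJ m)

lemma KK_lowest (hsq : ∀ a : ℕ, (a : ℤ) ^ 2 ≠ m) :
    ∃ (n : ℕ) (u : ℂ), IsUnitInt u ∧ Lowest (qe (mpos m) (KK m)) n u := by
  have h1 : ∀ o : Orb m, ∃ (n : ℕ) (u : ℂ), IsUnitInt u ∧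
      Lowest (qe (mpos m) ((dI m o).1 * eJ m - (eI m o).1 * dJ m)) n u := by
    intro o
    have l1 := (comp_lowest m isMF_disc.good qexp_disc_mem qexp_disc_lowest o).mul (eJ_lowest m)
    have l2 := (comp_lowest m isMF_Ecube.good qexp_Ecube_mem qexp_Ecube_lowest o).mul (dJ_lowest m)
    rw [← map_mul] at l1 l2
    simp only [mul_one, pow_one, one_mul, add_zero, mul_zero, pow_zero, zero_add] at l1 l2
    have hne : ((U m o).1 0 0).toNat ^ 2 ≠ m.toNat := by
      intro h
      apply hsq ((U m o).1 0 0).toNat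
      have h1 := Int.toNat_of_nonneg hm.out.le
      have h2 := congrArg (fun z : ℕ => (z : ℤ)) h
      simp only [Nat.cast_pow] at h2
      exact h2.trans h1
    rcases lt_or_gt_of_ne hne with h | h
    · refine ⟨((U m o).1 0 0).toNat ^ 2, zt (U m o), isUnitInt_zt (U m o) (U10 m o) (U00 m o), ?_⟩
      rw [map_sub, sub_eq_add_neg]
      refine l1.add_high fun j hj => ?_
      rw [map_neg, neg_eq_zero]
      exact l2.1 j (lt_of_le_of_lt hj h)
    · refine ⟨m.toNat, -1, ⟨Subalgebra.neg_mem _ (Subalgebra.one_mem _), ?_, by norm_num⟩, ?_⟩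
      · rw [inv_neg, inv_one]
        exact Subalgebra.neg_mem _ (Subalgebra.one_mem _)
      · rw [map_sub, sub_eq_add_neg, add_comm]
        have l3 : Lowest (-(qe (mpos m) ((eI m o).1 * dJ m))) m.toNat (-1) :=
          ⟨fun i hi => by rw [map_neg, neg_eq_zero]; exact l2.1 i hi, by
            rw [map_neg, neg_inj]; exact l2.2⟩
        exact l3.add_high fun j hj => l1.1 j (lt_of_le_of_lt hj h)
  choose n u hu hl using h1
  refine ⟨∑ o, n o, ∏ o, u o, IsUnitInt.prod _ _ fun o _ => hu o, ?_⟩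
  rw [KK, map_prod]
  exact Lowest.prod _ _ _ _ fun o _ => hl o

/-- The diagonal restriction of the modular equation. -/
noncomputable def RD : Polynomial OO := ∑ i ∈ Finset.range (ss m + 1), pp m i * Polynomial.X ^ i

lemma RD_natDegree : (RD m).natDegree ≤ 2 * ss m := by
  refine Polynomial.natDegree_sum_le_of_forall_le _ _ fun i hi => ?_
  rw [Finset.mem_range] at hi
  refine (Polynomial.natDegree_mul_le).trans ?_
  have := pp_deg m i
  rw [Polynomial.natDegree_X_pow]
  omega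

lemma KK_eq (τ : ℍ) : (KK m).1 τ = ModularForm.discriminant τ ^ (2 * ss m) * (RD m).eval₂ (algebraMap OO ℂ) (jInv τ) := by
  have h1 : (KK m).1 τ = ∏ o : Orb m, (ev m τ (dI m o) * Ecube τ - ev m τ (eI m o) * ModularForm.discriminant τ) := by
    have : (KK m).1 τ = (Pi.evalRingHom (fun _ : ℍ => ℂ) τ).comp (goodRing (m : ℝ)).subtype (KK m) := rfl
    rw [this, KK, map_prod]
    rfl
  have h2 : ∀ o : Orb m, ev m τ (dI m o) * Ecube τ - ev m τ (eI m o) * ModularForm.discriminant τ =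
      ModularForm.discriminant τ * (ev m τ (dI m o) * jInv τ - ev m τ (eI m o)) := by
    intro o
    rw [← jInv_mul τ]; ring
  have h3 : ∏ o : Orb m, (ev m τ (dI m o) * jInv τ - ev m τ (eI m o)) =
      ((PP m).map (ev m τ)).eval (jInv τ) := by
    rw [PP, Polynomial.map_prod, Polynomial.eval_prod]
    refine Finset.prod_congr rfl fun o _ => ?_
    simp
  have h4 : ((PP m).map (ev m τ)).eval (jInv τ) =
      ∑ i ∈ Finset.range (ss m + 1), g m i τ * jInv τ ^ i := by
    rw [Polynomial.eval_map, Polynomial.eval₂_eq_sum_range' (ev m τ)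
      (Nat.lt_succ_of_le (PP_natDegree m))]
    rfl
  rw [h1, Finset.prod_congr rfl fun o _ => h2 o, Finset.prod_mul_distrib, Finset.prod_const,
    Finset.card_univ, h3, h4, RD, Polynomial.eval₂_finsetSum, Finset.mul_sum, Finset.mul_sum]
  refine Finset.sum_congr rfl fun i _ => ?_
  rw [pp_eval, Polynomial.eval₂_mul, Polynomial.eval₂_X_pow]
  ring

lemma KK_zero {A : DM m} {τ : ℍ} (hA : toGL hm.out A • τ = τ) : (KK m).1 τ = 0 := by
  have h1 : (KK m).1 τ = ∏ o : Orb m, (ev m τ (dI m o) * Ecube τ - ev m τ (eI m o) * ModularForm.discriminant τ) := by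
    have : (KK m).1 τ = (Pi.evalRingHom (fun _ : ℍ => ℂ) τ).comp (goodRing (m : ℝ)).subtype (KK m) := rfl
    rw [this, KK, map_prod]
    rfl
  rw [h1]
  refine Finset.prod_eq_zero (Finset.mem_univ (mkO A)) ?_
  have e1 : slO hm.out disc_inv (mkO A) τ = kap m (mkO A) * ev m τ (dI m (mkO A)) := slO_eq m _ _ _
  have e2 : slO hm.out Ecube_inv (mkO A) τ = kap m (mkO A) * ev m τ (eI m (mkO A)) := slO_eq m _ _ _
  rw [slO_mk, sl_apply, hA] at e1 e2
  apply mul_left_cancel₀ (kap_ne_zero m (mkO A))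
  rw [mul_zero, mul_sub, ← mul_assoc, ← mul_assoc, ← e1, ← e2]
  ring

lemma RD_lead (hsq : ∀ a : ℕ, (a : ℤ) ^ 2 ≠ m) : IsUnitInt (((RD m).leadingCoeff : OO) : ℂ) := by
  obtain ⟨n, u, hu, hl⟩ := KK_lowest m hsq
  set R := RD m with hR
  have hR0 : R ≠ 0 := by
    intro h
    have h1 : KK m = 0 := by
      apply Subtype.ext
      funext τ
      rw [KK_eq, ← hR, h]
      simp
    rw [h1, map_zero] at hl
    exact hu.2.2 (by simpa using hl.2.symm)
  have hdeg := RD_natDegree m
  rw [← hR] at hdeg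
  set d := R.natDegree with hd
  -- constants in the good ring
  have hcoe : ∀ c : ℂ, ∃ r : goodRing (m : ℝ), (∀ τ, r.1 τ = c) ∧ qe (mpos m) r = PowerSeries.C c := by
    intro c
    refine ⟨⟨fun _ => c, Good.const _⟩, fun τ => rfl, ?_⟩
    have h1 := (Good.const (h := (m : ℝ)) 1).analytic (mpos m)
    have h2 := qExpansion_smul (f := (1 : ℍ → ℂ)) h1 c
    have h3 : (fun _ : ℍ => c) = c • (1 : ℍ → ℂ) := by funext τ; simp
    change qExpansion (m : ℝ) (fun _ : ℍ => c) = _
    rw [h3, h2, qExpansion_one, PowerSeries.smul_eq_C_mul, mul_one]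
  choose cst hcst hcst' using hcoe
  have hK : KK m = ∑ i ∈ Finset.range (d + 1),
      cst (R.coeff i : ℂ) * (eJ m ^ i * dJ m ^ (2 * ss m - i)) := by
    apply Subtype.ext
    funext τ
    rw [KK_eq, ← hR, Polynomial.eval₂_eq_sum_range, Finset.mul_sum]
    have : (∑ i ∈ Finset.range (d + 1),
      cst (R.coeff i : ℂ) * (eJ m ^ i * dJ m ^ (2 * ss m - i))).1 τ =
      (Pi.evalRingHom (fun _ : ℍ => ℂ) τ).comp (goodRing (m : ℝ)).subtype
      (∑ i ∈ Finset.range (d + 1), cst (R.coeff i : ℂ) * (eJ m ^ i * dJ m ^ (2 * ss m - i))) := rfl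
    rw [this, map_sum]
    refine Finset.sum_congr rfl fun i hi => ?_
    rw [map_mul, map_mul, map_pow, map_pow]
    change _ = (cst (R.coeff i : ℂ)).1 τ * (Ecube τ ^ i * ModularForm.discriminant τ ^ (2 * ss m - i))
    rw [hcst, ← jInv_mul τ]
    have h2 : 2 * ss m = i + (2 * ss m - i) := by
      rw [Finset.mem_range] at hi
      omega
    conv_lhs => rw [h2, pow_add]
    have h3 : (algebraMap OO ℂ) (R.coeff i) = (R.coeff i : ℂ) := rfl
    rw [h3]
    ring
  have hterm : ∀ i : ℕ, Lowest (qe (mpos m) (eJ m ^ i * dJ m ^ (2 * ss m - i)))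
      ((2 * ss m - i) * m.toNat) 1 := by
    intro i
    have := ((eJ_lowest m).pow i).mul ((dJ_lowest m).pow (2 * ss m - i))
    rw [← map_pow, ← map_pow, ← map_mul] at this
    simpa using this
  have l1 : Lowest (qe (mpos m) (KK m)) ((2 * ss m - d) * m.toNat) (R.coeff d : ℂ) := by
    rw [hK, Finset.sum_range_succ, map_add, add_comm]
    have l2 : Lowest (qe (mpos m) (cst (R.coeff d : ℂ) * (eJ m ^ d * dJ m ^ (2 * ss m - d))))
        ((2 * ss m - d) * m.toNat) (R.coeff d : ℂ) := by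
      rw [map_mul, hcst']
      have h := hterm d
      refine ⟨fun i hi => ?_, ?_⟩
      · rw [PowerSeries.coeff_C_mul, h.1 i hi, mul_zero]
      · rw [PowerSeries.coeff_C_mul, h.2, mul_one]
    refine l2.add_high fun j hj => ?_
    rw [map_sum, map_sum]
    refine Finset.sum_eq_zero fun i hi => ?_
    rw [Finset.mem_range] at hi
    rw [map_mul, hcst', PowerSeries.coeff_C_mul, (hterm i).1 j, mul_zero]
    refine lt_of_le_of_lt hj (Nat.mul_lt_mul_of_pos_right ?_ (mtoNat_pos m))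
    omega
  have hne : ((R.coeff d : OO) : ℂ) ≠ 0 := by
    intro h
    apply hR0
    rw [← Polynomial.leadingCoeff_eq_zero, Polynomial.leadingCoeff]
    exact Subtype.ext h
  obtain ⟨_, h⟩ := l1.unique hl hne hu.2.2
  rw [Polynomial.leadingCoeff, ← hd, h]
  exact hu

end

/-- A fixed point of an integral matrix of nonsquare determinant has integral `j`-invariant. -/
theorem isIntegral_of_fixed {m : ℤ} (hm : 0 < m) (hsq : ∀ a : ℕ, (a : ℤ) ^ 2 ≠ m) {A : DM m}
    {τ : ℍ} (hA : toGL hm A • τ = τ) : IsIntegral ℤ (jInv τ) := by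
  have : Fact (0 < m) := ⟨hm⟩
  have h1 := KK_zero m hA
  rw [KK_eq] at h1
  have h2 := (mul_eq_zero.1 h1).resolve_left (pow_ne_zero _ (discriminant_ne_zero τ))
  obtain ⟨h3, h4, h5⟩ := RD_lead m hsq
  have hO : IsIntegral OO (jInv τ) := by
    refine ⟨Polynomial.C (⟨_, h4⟩ : OO) * RD m, ?_, ?_⟩
    · rw [Polynomial.Monic, Polynomial.leadingCoeff_mul, Polynomial.leadingCoeff_C]
      apply Subtype.ext
      exact inv_mul_cancel₀ h5
    · rw [Polynomial.eval₂_mul, h2, mul_zero]
  exact isIntegral_trans (R := ℤ) (A := OO) (jInv τ) hO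

end Pool.Agent.Helper11.ZP
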