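import Pool.Agent.Helper11.ZP.Forms

open UpperHalfPlane ModularForm Complex Filter Function
open scoped Real MatrixGroups Topology Manifold

namespace Pool.Agent.Helper11.ZP


/-- Integral matrices of determinant `m`. -/
abbrev DM (m : ℤ) := FixedDetMatrix (Fin 2) ℤ m

lemma det_map_real {m : ℤ} (A : DM m) : (A.1.map ((↑) : ℤ → ℝ)).det = (m : ℝ) := by
  rw [Matrix.det_fin_two]
  have := A.2
  rw [Matrix.det_fin_two] at this
  simp only [Matrix.map_apply]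
  exact_mod_cast this

/-- The real invertible matrix attached to an integral matrix of positive determinant. -/
noncomputable def toGL {m : ℤ} (hm : 0 < m) (A : DM m) : GL (Fin 2) ℝ :=
  Matrix.GeneralLinearGroup.mkOfDetNeZero (A.1.map ((↑) : ℤ → ℝ))
    (by rw [det_map_real]; exact_mod_cast hm.ne')

lemma toGL_val {m : ℤ} (hm : 0 < m) (A : DM m) (i j : Fin 2) :
    (toGL hm A) i j = ((A.1 i j : ℤ) : ℝ) := rfl

lemma det_toGL {m : ℤ} (hm : 0 < m) (A : DM m) : (toGL hm A).det.val = (m : ℝ) := det_map_real A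

lemma det_toGL_pos {m : ℤ} (hm : 0 < m) (A : DM m) : 0 < (toGL hm A).det.val := by
  rw [det_toGL]; exact_mod_cast hm

lemma toGL_smul {m : ℤ} (hm : 0 < m) (γ : SL(2, ℤ)) (A : DM m) :
    toGL hm (γ • A) = (γ : GL (Fin 2) ℝ) * toGL hm A := by
  ext i j
  rw [toGL_val]
  change (((γ.1 * A.1) i j : ℤ) : ℝ) = _
  simp [Matrix.mul_apply, Fin.sum_univ_two, toGL_val, Matrix.SpecialLinearGroup.mapGL_coe_matrix]

/-- Right multiplication by an element of `SL₂(ℤ)`. -/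
def rmul {m : ℤ} (γ : SL(2, ℤ)) (A : DM m) : DM m :=
  ⟨A.1 * γ.1, by rw [Matrix.det_mul, γ.2, mul_one, A.2]⟩

lemma toGL_rmul {m : ℤ} (hm : 0 < m) (γ : SL(2, ℤ)) (A : DM m) :
    toGL hm (rmul γ A) = toGL hm A * (γ : GL (Fin 2) ℝ) := by
  ext i j
  rw [toGL_val]
  change (((A.1 * γ.1) i j : ℤ) : ℝ) = _
  simp [Matrix.mul_apply, Fin.sum_univ_two, toGL_val, Matrix.SpecialLinearGroup.mapGL_coe_matrix]

/-- Orbits of integral matrices of determinant `m` under left multiplication. -/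
abbrev Orb (m : ℤ) := Quotient (MulAction.orbitRel SL(2, ℤ) (DM m))

/-- The class of a matrix. -/
def mkO {m : ℤ} (A : DM m) : Orb m := Quotient.mk _ A

lemma mkO_smul {m : ℤ} (γ : SL(2, ℤ)) (A : DM m) : mkO (γ • A) = mkO A :=
  Quotient.sound (MulAction.mem_orbit _ _)

lemma mkO_eq {m : ℤ} {A B : DM m} (h : mkO A = mkO B) : ∃ γ : SL(2, ℤ), A = γ • B := by
  obtain ⟨γ, hγ⟩ := Quotient.exact h
  exact ⟨γ, hγ.symm⟩

lemma exists_rep {m : ℤ} (hm : m ≠ 0) (A : DM m) :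
    ∃ B ∈ FixedDetMatrices.reps m, mkO B = mkO A := by
  induction A using FixedDetMatrices.induction_on hm with
  | h0 A h1 h2 h3 h4 => exact ⟨A, ⟨h1, h2, h3, h4⟩, rfl⟩
  | hS B hB =>
    obtain ⟨C, hC, h⟩ := hB
    exact ⟨C, hC, h.trans (mkO_smul _ _).symm⟩
  | hT B hB =>
    obtain ⟨C, hC, h⟩ := hB
    exact ⟨C, hC, h.trans (mkO_smul _ _).symm⟩

lemma finite_orb {m : ℤ} (hm : m ≠ 0) : Finite (Orb m) := by
  have : Finite (FixedDetMatrices.reps m) := inferInstance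
  refine Finite.of_surjective (fun B : FixedDetMatrices.reps m => mkO B.1) ?_
  intro o
  obtain ⟨A, rfl⟩ := Quotient.exists_rep o
  obtain ⟨B, hB, h⟩ := exists_rep hm A
  exact ⟨⟨B, hB⟩, h⟩

/-- Right multiplication on orbits. -/
def rO {m : ℤ} (γ : SL(2, ℤ)) : Orb m → Orb m :=
  Quotient.map (rmul γ) (by
    rintro A B ⟨δ, hδ⟩
    refine ⟨δ, ?_⟩
    rw [← hδ]
    apply FixedDetMatrices.ext'
    change δ.1 * (B.1 * γ.1) = (δ.1 * B.1) * γ.1
    rw [Matrix.mul_assoc])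

lemma rO_mk {m : ℤ} (γ : SL(2, ℤ)) (A : DM m) : rO γ (mkO A) = mkO (rmul γ A) := rfl

lemma rmul_rmul {m : ℤ} (γ δ : SL(2, ℤ)) (A : DM m) : rmul δ (rmul γ A) = rmul (γ * δ) A := by
  apply FixedDetMatrices.ext'
  change (A.1 * γ.1) * δ.1 = A.1 * (γ * δ : SL(2, ℤ)).1
  rw [Matrix.SpecialLinearGroup.coe_mul, Matrix.mul_assoc]

lemma rmul_one {m : ℤ} (A : DM m) : rmul 1 A = A := by
  apply FixedDetMatrices.ext'
  change A.1 * (1 : SL(2, ℤ)).1 = A.1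
  simp

/-- Right multiplication as a permutation of orbits. -/
def rPerm {m : ℤ} (γ : SL(2, ℤ)) : Equiv.Perm (Orb m) where
  toFun := rO γ
  invFun := rO γ⁻¹
  left_inv o := by
    obtain ⟨A, rfl⟩ := Quotient.exists_rep o
    change mkO (rmul γ⁻¹ (rmul γ A)) = mkO A
    rw [rmul_rmul, mul_inv_cancel, rmul_one]
  right_inv o := by
    obtain ⟨A, rfl⟩ := Quotient.exists_rep o
    change mkO (rmul γ (rmul γ⁻¹ A)) = mkO A
    rw [rmul_rmul, inv_mul_cancel, rmul_one]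

/-- Weight 12 slash with an integral matrix. -/
noncomputable def sl {m : ℤ} (hm : 0 < m) (f : ℍ → ℂ) (A : DM m) : ℍ → ℂ := f ∣[(12 : ℤ)] toGL hm A

lemma sl_apply {m : ℤ} (hm : 0 < m) (f : ℍ → ℂ) (A : DM m) (τ : ℍ) :
    sl hm f A τ = f (toGL hm A • τ) * ((m : ℂ) ^ (11 : ℤ) * denom (toGL hm A) τ ^ (-12 : ℤ)) := by
  rw [sl, ModularForm.slash_apply, det_toGL]
  have h1 := det_toGL_pos hm A
  have h2 : |(m : ℝ)| = (m : ℝ) := abs_of_pos (by exact_mod_cast hm)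
  rw [h2]
  simp only [σ, h1, ↓reduceIte]
  push_cast
  norm_num [mul_assoc]

lemma sl_smul {m : ℤ} (hm : 0 < m) {f : ℍ → ℂ} (hf : ∀ γ : SL(2, ℤ), f ∣[(12 : ℤ)] γ = f)
    (γ : SL(2, ℤ)) (A : DM m) : sl hm f (γ • A) = sl hm f A := by
  rw [sl, toGL_smul, SlashAction.slash_mul, ← SL_slash, hf]
  rfl

lemma sl_rmul {m : ℤ} (hm : 0 < m) (f : ℍ → ℂ) (γ : SL(2, ℤ)) (A : DM m) (τ : ℍ) :
    sl hm f (rmul γ A) τ = sl hm f A (γ • τ) * denom γ τ ^ (-12 : ℤ) := by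
  rw [sl, toGL_rmul, SlashAction.slash_mul, ← SL_slash, SL_slash_apply]
  rfl

/-- The slash descends to orbits. -/
noncomputable def slO {m : ℤ} (hm : 0 < m) {f : ℍ → ℂ} (hf : ∀ γ : SL(2, ℤ), f ∣[(12 : ℤ)] γ = f) :
    Orb m → ℍ → ℂ :=
  Quotient.lift (sl hm f) (by
    rintro A B ⟨γ, rfl⟩
    exact sl_smul hm hf γ B)

lemma slO_mk {m : ℤ} (hm : 0 < m) {f : ℍ → ℂ} (hf : ∀ γ : SL(2, ℤ), f ∣[(12 : ℤ)] γ = f)
    (A : DM m) : slO hm hf (mkO A) = sl hm f A := rfl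

lemma slO_smul {m : ℤ} (hm : 0 < m) {f : ℍ → ℂ} (hf : ∀ γ : SL(2, ℤ), f ∣[(12 : ℤ)] γ = f)
    (o : Orb m) (γ : SL(2, ℤ)) (τ : ℍ) :
    slO hm hf o (γ • τ) = denom γ τ ^ (12 : ℤ) * slO hm hf (rPerm γ o) τ := by
  obtain ⟨A, rfl⟩ := Quotient.exists_rep o
  change sl hm f A (γ • τ) = _ * sl hm f (rmul γ A) τ
  rw [sl_rmul, mul_comm, mul_assoc, ← zpow_add₀ (denom_ne_zero _ _)]
  simp

lemma disc_inv : ∀ γ : SL(2, ℤ), ModularForm.discriminant ∣[(12 : ℤ)] γ = ModularForm.discriminant := (isMF_iff.1 isMF_disc).1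
lemma Ecube_inv : ∀ γ : SL(2, ℤ), Ecube ∣[(12 : ℤ)] γ = Ecube := (isMF_iff.1 isMF_Ecube).1

noncomputable instance orbFintype (m : ℤ) [hm : Fact (0 < m)] : Fintype (Orb m) :=
  @Fintype.ofFinite _ (finite_orb hm.out.ne')

open Polynomial in
/-- The product polynomial over all orbits. -/
noncomputable def Pol (m : ℤ) [hm : Fact (0 < m)] (τ : ℍ) : Polynomial ℂ :=
  ∏ o : Orb m, (C (slO hm.out disc_inv o τ) * X - C (slO hm.out Ecube_inv o τ))

open Polynomial in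
lemma Pol_smul (m : ℤ) [hm : Fact (0 < m)] (γ : SL(2, ℤ)) (τ : ℍ) :
    Pol m (γ • τ) = C (denom γ τ ^ (12 * (Fintype.card (Orb m) : ℤ))) * Pol m τ := by
  have h1 : ∀ o : Orb m, (C (slO hm.out disc_inv o (γ • τ)) * X - C (slO hm.out Ecube_inv o (γ • τ)))
      = C (denom γ τ ^ (12 : ℤ)) * (C (slO hm.out disc_inv (rPerm γ o) τ) * X
        - C (slO hm.out Ecube_inv (rPerm γ o) τ)) := by
    intro o
    rw [slO_smul, slO_smul, C_mul, C_mul]
    ring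
  rw [Pol, Finset.prod_congr rfl fun o _ => h1 o, Finset.prod_mul_distrib, Finset.prod_const,
    Equiv.prod_comp (rPerm γ) (fun o => (C (slO hm.out disc_inv o τ) * X - C (slO hm.out Ecube_inv o τ))),
    ← C_pow, Finset.card_univ, zpow_mul, zpow_natCast, Pol]

end Pool.Agent.Helper11.ZP
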