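import Pool.Agent.Helper11.ZP.RatCurve
import Pool.Agent.Helper11.ZP.Almost

open Polynomial

namespace Pool.Agent.Helper11.ZP

section

variable {K : Type*} [Field K] (O : ValuationSubring K)

lemma val_sum_lead {d : ℕ} (q : Fin (d + 1) → K) (hq : ∀ m, m ≠ Fin.last d → O.valuation (q m) ≤ 1)
    {T : K} (hlead : 1 ≤ O.valuation (q (Fin.last d))) (hT : 1 ≤ O.valuation T)
    (h : 1 < O.valuation (q (Fin.last d)) ∨ 1 < O.valuation T) :
    O.valuation (∑ m, q m * T ^ (m : ℕ)) = O.valuation (q (Fin.last d)) * O.valuation T ^ d := by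
  classical
  set M := O.valuation (q (Fin.last d)) * O.valuation T ^ d with hM
  have hTpos : 0 < O.valuation T := lt_of_lt_of_le zero_lt_one hT
  have hMpos : 0 < M := mul_pos (lt_of_lt_of_le zero_lt_one hlead) (pow_pos hTpos _)
  have hrest : ∀ m, m ≠ Fin.last d → O.valuation (q m * T ^ (m : ℕ)) < M := by
    intro m hm
    have hmd : (m : ℕ) < d := Fin.val_lt_last hm
    rw [map_mul, map_pow]
    rcases h with h | h
    · calc O.valuation (q m) * O.valuation T ^ (m : ℕ) ≤ 1 * O.valuation T ^ d :=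
            mul_le_mul' (hq m hm) (pow_le_pow_right₀ hT hmd.le)
        _ < O.valuation (q (Fin.last d)) * O.valuation T ^ d :=
            mul_lt_mul_of_pos_right h (pow_pos hTpos _)
    · calc O.valuation (q m) * O.valuation T ^ (m : ℕ) ≤ 1 * O.valuation T ^ (m : ℕ) :=
            mul_le_mul' (hq m hm) le_rfl
        _ < 1 * O.valuation T ^ d := by
            rw [one_mul, one_mul]
            exact pow_lt_pow_right₀ h hmd
        _ ≤ O.valuation (q (Fin.last d)) * O.valuation T ^ d := mul_le_mul' hlead le_rfl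
  rw [← Finset.add_sum_erase _ _ (Finset.mem_univ (Fin.last d))]
  have h1 : O.valuation (∑ m ∈ Finset.univ.erase (Fin.last d), q m * T ^ (m : ℕ)) < M :=
    Valuation.map_sum_lt _ hMpos.ne' fun m hm => hrest m (Finset.ne_of_mem_erase hm)
  have h2 : O.valuation (q (Fin.last d) * T ^ ((Fin.last d : Fin (d + 1)) : ℕ)) = M := by
    rw [map_mul, map_pow, Fin.val_last]
  rw [Valuation.map_add_eq_of_lt_left _ (by rw [h2]; exact h1), h2]

lemma val_sum_const {d : ℕ} (q : Fin (d + 1) → K) (hq : ∀ m, m ≠ 0 → O.valuation (q m) ≤ 1)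
    {T : K} (h0 : 1 ≤ O.valuation (q 0)) (hT : O.valuation T ≤ 1)
    (h : 1 < O.valuation (q 0) ∨ O.valuation T < 1) :
    O.valuation (∑ m, q m * T ^ (m : ℕ)) = O.valuation (q 0) := by
  classical
  have hrest : ∀ m : Fin (d + 1), m ≠ 0 → O.valuation (q m * T ^ (m : ℕ)) < O.valuation (q 0) := by
    intro m hm
    rw [map_mul, map_pow]
    rcases h with h | h
    · exact lt_of_le_of_lt (mul_le_one' (hq m hm) (pow_le_one' hT _)) h
    · refine lt_of_lt_of_le ?_ h0
      have hm' : (m : ℕ) ≠ 0 := fun e => hm (Fin.ext e)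
      exact mul_lt_one' (hq m hm) (pow_lt_one₀ zero_le h hm')
  rw [← Finset.add_sum_erase _ _ (Finset.mem_univ (0 : Fin (d + 1)))]
  have h1 : O.valuation (∑ m ∈ Finset.univ.erase (0 : Fin (d + 1)), q m * T ^ (m : ℕ)) <
      O.valuation (q 0) :=
    Valuation.map_sum_lt _ (lt_of_lt_of_le zero_lt_one h0).ne'
      fun m hm => hrest m (Finset.ne_of_mem_erase hm)
  have h2 : O.valuation (q 0 * T ^ ((0 : Fin (d + 1)) : ℕ)) = O.valuation (q 0) := by
    simp
  rw [Valuation.map_add_eq_of_lt_left _ (by rw [h2]; exact h1), h2]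

lemma aeval_int_eq (f : ℤ[X]) (t : K) :
    aeval t f = ∑ m : Fin (f.natDegree + 1), ((f.coeff m : ℤ) : K) * t ^ (m : ℕ) := by
  rw [aeval_eq_sum_range, ← Fin.sum_univ_eq_sum_range (fun i => f.coeff i • t ^ i)]
  exact Finset.sum_congr rfl fun m _ => by rw [zsmul_eq_mul]

lemma val_aeval_le (f : ℤ[X]) {t : K} (ht : O.valuation t ≤ 1) : O.valuation (aeval t f) ≤ 1 := by
  rw [aeval_int_eq]
  exact val_sum_le O (fun m : Fin (f.natDegree + 1) => ((f.coeff m : ℤ) : K))
    (fun m => val_int_le O _) ht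

variable {p : ℕ} (hp : p.Prime) (hpO : (p : K) ∈ O.nonunits)

include hp hpO

lemma val_aeval_gt (f : ℤ[X]) (hf : ¬ (p : ℤ) ∣ f.leadingCoeff) {t : K} (ht : 1 < O.valuation t) :
    O.valuation (aeval t f) = O.valuation t ^ f.natDegree := by
  have h1 : O.valuation ((f.coeff (Fin.last f.natDegree : Fin (f.natDegree + 1)) : ℤ) : K) = 1 := by
    rw [Fin.val_last]
    exact val_int_eq O hp hpO hf
  rw [aeval_int_eq, val_sum_lead O (fun m : Fin (f.natDegree + 1) => ((f.coeff m : ℤ) : K))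
    (fun m _ => val_int_le O _) h1.ge ht.le (Or.inr ht), h1, one_mul]

lemma val_aeval_small (f : ℤ[X]) (hf : ¬ (p : ℤ) ∣ f.coeff 0) {t : K} (ht : O.valuation t < 1) :
    O.valuation (aeval t f) = 1 := by
  have h1 : O.valuation ((f.coeff ((0 : Fin (f.natDegree + 1)) : ℕ) : ℤ) : K) = 1 := by
    rw [Fin.val_zero]
    exact val_int_eq O hp hpO hf
  rw [aeval_int_eq, val_sum_const O (fun m : Fin (f.natDegree + 1) => ((f.coeff m : ℤ) : K))
    (fun m _ => val_int_le O _) h1.ge ht.le (Or.inr ht), h1]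

omit hp hpO in
lemma val_aeval_root (f : ℤ[X]) (hf : f.coeff 0 = 0) {t : K} (ht : O.valuation t < 1) :
    O.valuation (aeval t f) < 1 := by
  obtain ⟨g, rfl⟩ := X_dvd_iff.2 hf
  rw [map_mul, aeval_X, map_mul, mul_comm]
  exact mul_lt_one' (val_aeval_le O g ht.le) ht

end

/-- The polynomial with the given coefficients. -/
noncomputable def mkPoly {d : ℕ} (a : Fin (d + 1) → ℚ) : ℚ[X] := ∑ m, C (a m) * X ^ (m : ℕ)

/-- The monic polynomial of degree `d` with the given lower coefficients. -/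
noncomputable def mkMonic {d : ℕ} (a : Fin d → ℚ) : ℚ[X] := X ^ d + ∑ m, C (a m) * X ^ (m : ℕ)

lemma mkMonic_eq {d : ℕ} (a : Fin d → ℚ) :
    mkMonic a = mkPoly (Fin.snoc a 1 : Fin (d + 1) → ℚ) := by
  rw [mkMonic, mkPoly, Fin.sum_univ_castSucc]
  simp [add_comm]

section

variable {K : Type*} [Field K] (O : ValuationSubring K)

lemma aeval_mkPoly [CharZero K] {d : ℕ} (a : Fin (d + 1) → ℚ) (t : K) :
    aeval t (mkPoly a) = ∑ m, (a m : K) * t ^ (m : ℕ) := by
  rw [mkPoly, map_sum]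
  refine Finset.sum_congr rfl fun m _ => ?_
  rw [map_mul, map_pow, aeval_C, aeval_X]
  rfl

lemma aeval_mkMonic [CharZero K] {d : ℕ} (a : Fin d → ℚ) (t : K) :
    aeval t (mkMonic a) = ∑ m : Fin (d + 1), (((Fin.snoc a 1 : Fin (d + 1) → ℚ) m : ℚ) : K) * t ^ (m : ℕ) := by
  rw [mkMonic_eq, aeval_mkPoly]

lemma snoc_val {d : ℕ} {a : Fin d → ℚ} (ha : ∀ m, O.valuation (a m : K) ≤ 1) (m : Fin (d + 1)) :
    O.valuation (((Fin.snoc a 1 : Fin (d + 1) → ℚ) m : ℚ) : K) ≤ 1 := by
  refine Fin.lastCases ?_ (fun i => ?_) m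
  · rw [Fin.snoc_last]; simp
  · rw [Fin.snoc_castSucc]; exact ha i

lemma val_monic_le [CharZero K] {d : ℕ} {a : Fin d → ℚ} (ha : ∀ m, O.valuation (a m : K) ≤ 1) {t : K}
    (ht : O.valuation t ≤ 1) : O.valuation (aeval t (mkMonic a)) ≤ 1 := by
  rw [aeval_mkMonic]
  exact val_sum_le O (fun m => (((Fin.snoc a 1 : Fin (d + 1) → ℚ) m : ℚ) : K)) (snoc_val O ha) ht

lemma val_monic_gt [CharZero K] {d : ℕ} {a : Fin d → ℚ} (ha : ∀ m, O.valuation (a m : K) ≤ 1) {t : K}
    (ht : 1 < O.valuation t) : O.valuation (aeval t (mkMonic a)) = O.valuation t ^ d := by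
  have h1 : O.valuation (((Fin.snoc a 1 : Fin (d + 1) → ℚ) (Fin.last d) : ℚ) : K) = 1 := by
    rw [Fin.snoc_last]; simp
  rw [aeval_mkMonic, val_sum_lead O (fun m => (((Fin.snoc a 1 : Fin (d + 1) → ℚ) m : ℚ) : K))
    (fun m _ => snoc_val O ha m) h1.ge ht.le (Or.inr ht), h1, one_mul]

lemma val_monic_small [CharZero K] {d : ℕ} {a : Fin d → ℚ} (ha : ∀ m, O.valuation (a m : K) = 1) {t : K}
    (ht : O.valuation t < 1) : O.valuation (aeval t (mkMonic a)) = 1 := by
  have h1 : O.valuation (((Fin.snoc a 1 : Fin (d + 1) → ℚ) 0 : ℚ) : K) = 1 := by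
    rcases Nat.eq_zero_or_pos d with h | h
    · subst h
      have : (0 : Fin (0 + 1)) = Fin.last 0 := rfl
      rw [this, Fin.snoc_last]; simp
    · have : (0 : Fin (d + 1)) = Fin.castSucc ⟨0, h⟩ := rfl
      rw [this, Fin.snoc_castSucc]; exact ha _
  rw [aeval_mkMonic, val_sum_const O (fun m => (((Fin.snoc a 1 : Fin (d + 1) → ℚ) m : ℚ) : K))
    (fun m _ => snoc_val O (fun m => (ha m).le) m) h1.ge ht.le (Or.inr ht), h1]

end

/-- The valuations of the denominators. -/
structure DenFacts {K : Type*} [Field K] (O : ValuationSubring K) (t : K) (b : Fin 3 → K)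
    (deg : Fin 3 → ℕ) : Prop where
  le : O.valuation t ≤ 1 → ∀ i, O.valuation (b i) ≤ 1
  gt : 1 < O.valuation t → ∀ i, O.valuation (b i) = O.valuation t ^ deg i
  small : O.valuation t < 1 → ∀ i, i ≠ 1 → O.valuation (b i) = 1
  small1 : O.valuation t < 1 → O.valuation (b 1) < 1

section

variable {N deg : Fin 3 → ℕ} (hd0 : deg 0 < N 0) (hd1 : N 1 ≤ deg 1) (hd2 : N 2 = deg 2)
  {K : Type*} [Field K] (O : ValuationSubring K) {t : K} {b : Fin 3 → K} (hb : DenFacts O t b deg)
  (hb0 : ∀ i, b i ≠ 0) {a : ∀ i : Fin 3, Fin (N i + 1) → K} {x : Fin 3 → K}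
  (hx : ∀ i, x i = (∑ m : Fin (N i + 1), a i m * t ^ (m : ℕ)) / b i)

include hb hb0 hx

include hd0 hd1 hd2 in
/-- Coordinates with unit coefficients. -/
lemma unit_facts {i : Fin 3} (hq : ∀ m, O.valuation (a i m) = 1) :
    (1 < O.valuation t → (x i ∉ O ↔ i = 0)) ∧ (O.valuation t < 1 → (x i ∉ O ↔ i = 1)) ∧
      (O.valuation t ≤ 1 → x i ∉ O → O.valuation (b i) < 1) := by
  have hvx : O.valuation (x i) * O.valuation (b i) =
      O.valuation (∑ m : Fin (N i + 1), a i m * t ^ (m : ℕ)) := by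
    rw [← map_mul, hx, div_mul_cancel₀ _ (hb0 i)]
  have hBpos : 0 < O.valuation (b i) := zero_lt_iff.2 ((Valuation.ne_zero_iff _).2 (hb0 i))
  refine ⟨fun h => ?_, fun h => ?_, fun h hxi => ?_⟩
  · have hA : O.valuation (∑ m : Fin (N i + 1), a i m * t ^ (m : ℕ)) = O.valuation t ^ N i := by
      rw [val_sum_lead O (a i) (fun m _ => (hq m).le) (hq _).ge h.le (Or.inr h), hq, one_mul]
    have hB := hb.gt h i
    rw [hA, hB] at hvx
    have htpos : 0 < O.valuation t ^ deg i := pow_pos (lt_trans zero_lt_one h) _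
    rw [← O.valuation_le_one_iff, not_le]
    constructor
    · intro h1
      by_contra hi
      have h2 : N i ≤ deg i := by
        have : i = 1 ∨ i = 2 := by
          revert hi; fin_cases i <;> decide
        rcases this with rfl | rfl
        · exact hd1
        · exact hd2.le
      have h3 : O.valuation t ^ N i ≤ O.valuation t ^ deg i := pow_le_pow_right₀ h.le h2
      have h4 : 1 * O.valuation t ^ deg i < O.valuation (x i) * O.valuation t ^ deg i :=
        mul_lt_mul_of_pos_right h1 htpos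
      rw [hvx, one_mul] at h4
      exact absurd h4 (not_lt.2 h3)
    · rintro rfl
      by_contra hcon
      rw [not_lt] at hcon
      have h3 : O.valuation t ^ deg 0 < O.valuation t ^ N 0 := pow_lt_pow_right₀ h hd0
      have h4 : O.valuation (x 0) * O.valuation t ^ deg 0 ≤ 1 * O.valuation t ^ deg 0 :=
        mul_le_mul' hcon le_rfl
      rw [hvx, one_mul] at h4
      exact absurd h3 (not_lt.2 h4)
  · have hA : O.valuation (∑ m : Fin (N i + 1), a i m * t ^ (m : ℕ)) = 1 := by
      rw [val_sum_const O (a i) (fun m _ => (hq m).le) (hq _).ge h.le (Or.inr h), hq]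
    rw [hA] at hvx
    rw [← O.valuation_le_one_iff, not_le]
    constructor
    · intro h1
      by_contra hi
      rw [hb.small h i hi, mul_one] at hvx
      exact absurd hvx (ne_of_gt h1)
    · rintro rfl
      by_contra hcon
      rw [not_lt] at hcon
      have h3 := mul_lt_one' hcon (hb.small1 h)
      exact absurd hvx (ne_of_lt h3)
  · by_contra hcon
    rw [not_lt] at hcon
    have hA : O.valuation (∑ m : Fin (N i + 1), a i m * t ^ (m : ℕ)) ≤ 1 :=
      val_sum_le O (a i) (fun m => (hq m).le) h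
    rw [← O.valuation_le_one_iff, not_le] at hxi
    have h3 : 1 < O.valuation (x i) * O.valuation (b i) :=
      lt_of_lt_of_le hxi (le_mul_of_one_le_right' hcon)
    rw [hvx] at h3
    exact absurd h3 (not_lt.2 hA)

/-- A coordinate whose leading coefficient has a pole. -/
lemma lead_fact {i : Fin 3} (hi : deg i ≤ N i) (hq : ∀ m, m ≠ Fin.last _ → O.valuation (a i m) ≤ 1)
    (hlead : 1 < O.valuation (a i (Fin.last _))) (h : x i ∈ O) : O.valuation t < 1 := by
  by_contra hcon
  rw [not_lt] at hcon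
  have hA := val_sum_lead O (a i) hq hlead.le hcon (Or.inl hlead)
  have hvx : O.valuation (x i) * O.valuation (b i) =
      O.valuation (∑ m : Fin (N i + 1), a i m * t ^ (m : ℕ)) := by
    rw [← map_mul, hx, div_mul_cancel₀ _ (hb0 i)]
  have hB : O.valuation (b i) ≤ O.valuation t ^ N i := by
    rcases hcon.eq_or_lt with h1 | h1
    · rw [← h1, one_pow]
      exact hb.le h1.ge i
    · rw [hb.gt h1 i]
      exact pow_le_pow_right₀ hcon hi
  rw [← O.valuation_le_one_iff] at h
  have h2 : O.valuation (x i) * O.valuation (b i) ≤ 1 * O.valuation t ^ N i := mul_le_mul' h hB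
  rw [hvx, hA] at h2
  have h3 : 1 * O.valuation t ^ N i < O.valuation (a i (Fin.last _)) * O.valuation t ^ N i :=
    mul_lt_mul_of_pos_right hlead (pow_pos (lt_of_lt_of_le zero_lt_one hcon) _)
  exact absurd h3 (not_lt.2 h2)

/-- A coordinate whose constant coefficient has a pole. -/
lemma const_fact {i : Fin 3} (hq : ∀ m, m ≠ 0 → O.valuation (a i m) ≤ 1)
    (h0 : 1 < O.valuation (a i 0)) (h : x i ∈ O) : 1 < O.valuation t := by
  by_contra hcon
  rw [not_lt] at hcon
  have hA := val_sum_const O (a i) hq h0.le hcon (Or.inl h0)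
  have hvx : O.valuation (x i) * O.valuation (b i) =
      O.valuation (∑ m : Fin (N i + 1), a i m * t ^ (m : ℕ)) := by
    rw [← map_mul, hx, div_mul_cancel₀ _ (hb0 i)]
  have hB := hb.le hcon i
  rw [← O.valuation_le_one_iff] at h
  have h2 : O.valuation (x i) * O.valuation (b i) ≤ 1 := mul_le_one' h hB
  rw [hvx, hA] at h2
  exact absurd h0 (not_lt.2 h2)

include hd0 hd1 hd2 in
/-- Two coordinates with coprime denominators are not both nonintegral. -/
lemma coprime_fact {i j : Fin 3} (hij : i ≠ j) (hi : ∀ m, O.valuation (a i m) = 1)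
    (hj : ∀ m, O.valuation (a j m) = 1)
    (hcop : O.valuation t ≤ 1 → ¬ (O.valuation (b i) < 1 ∧ O.valuation (b j) < 1)) :
    x i ∈ O ∨ x j ∈ O := by
  by_contra hcon
  rw [not_or] at hcon
  have hui := unit_facts hd0 hd1 hd2 O hb hb0 hx hi
  have huj := unit_facts hd0 hd1 hd2 O hb hb0 hx hj
  rcases le_or_gt (O.valuation t) 1 with h | h
  · exact hcop h ⟨hui.2.2 h hcon.1, huj.2.2 h hcon.2⟩
  · have h1 := (hui.1 h).1 hcon.1
    have h2 := (huj.1 h).1 hcon.2
    exact hij (h1.trans h2.symm)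

end

end Pool.Agent.Helper11.ZP
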