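import Mathlib

open UpperHalfPlane ModularForm Complex Filter Function
open scoped Real MatrixGroups Topology Manifold

namespace Pool.Agent.Helper11.ZP


/-- Functions on `ℍ` that are `h`-periodic, holomorphic and bounded at `i∞`. -/
structure Good (h : ℝ) (f : ℍ → ℂ) : Prop where
  per : Periodic (f ∘ ofComplex) h
  hol : MDiff f
  bdd : IsBoundedAtImInfty f

lemma Good.analytic {h : ℝ} (hh : 0 < h) {f : ℍ → ℂ} (hf : Good h f) :
    AnalyticAt ℂ (cuspFunction h f) 0 :=
  analyticAt_cuspFunction_zero hh hf.per hf.hol hf.bdd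

/-- Uniqueness of the expansion. -/
lemma Good.coeff_unique {h : ℝ} (hh : 0 < h) {f : ℍ → ℂ} (hf : Good h f) {c : ℕ → ℂ}
    (hc : ∀ τ : ℍ, HasSum (fun m => c m • Periodic.qParam h τ ^ m) (f τ)) (m : ℕ) :
    c m = (qExpansion h f).coeff m := by
  have h1 := (hasFPowerSeriesOnBall_cuspFunction hh (hf.analytic hh) hc).hasFPowerSeriesAt
  have h2 := (hasFPowerSeriesOnBall_cuspFunction hh (hf.analytic hh)
    (c := fun m => (qExpansion h f).coeff m)
    (hasSum_qExpansion hh hf.per hf.hol hf.bdd)).hasFPowerSeriesAt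
  simpa using congr_arg (FormalMultilinearSeries.coeff · m) (h1.eq_formalMultilinearSeries h2)

lemma Good.mul {h : ℝ} {f g : ℍ → ℂ} (hf : Good h f) (hg : Good h g) : Good h (f * g) where
  per := fun w => by
    simp only [Function.comp_apply, Pi.mul_apply]
    rw [show f (ofComplex (w + h)) = f (ofComplex w) from hf.per w,
      show g (ofComplex (w + h)) = g (ofComplex w) from hg.per w]
  hol := hf.hol.mul hg.hol
  bdd := hf.bdd.mul hg.bdd

lemma Good.add {h : ℝ} {f g : ℍ → ℂ} (hf : Good h f) (hg : Good h g) : Good h (f + g) where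
  per := fun w => by
    simp only [Function.comp_apply, Pi.add_apply]
    rw [show f (ofComplex (w + h)) = f (ofComplex w) from hf.per w,
      show g (ofComplex (w + h)) = g (ofComplex w) from hg.per w]
  hol := hf.hol.add hg.hol
  bdd := hf.bdd.add hg.bdd

lemma Good.const {h : ℝ} (c : ℂ) : Good h (fun _ : ℍ => c) where
  per := fun w => rfl
  hol := mdifferentiable_const
  bdd := by
    have : (fun _ : ℍ => c) =O[atImInfty] (fun _ => (1 : ℝ)) := Asymptotics.isBigO_const_const c one_ne_zero _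
    exact this

lemma Good.neg {h : ℝ} {f : ℍ → ℂ} (hf : Good h f) : Good h (-f) := by
  have := (Good.const (h := h) (-1)).mul hf
  convert this using 1
  funext τ; simp


/-- The ring of good functions. -/
def goodRing (h : ℝ) : Subring (ℍ → ℂ) where
  carrier := {f | Good h f}
  mul_mem' := fun hf hg => Good.mul hf hg
  add_mem' := fun hf hg => Good.add hf hg
  one_mem' := Good.const 1
  zero_mem' := Good.const 0
  neg_mem' := fun hf => Good.neg hf

lemma mem_goodRing {h : ℝ} {f : ℍ → ℂ} : f ∈ goodRing h ↔ Good h f := Iff.rfl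

/-- The `q`-expansion as a ring homomorphism on good functions. -/
noncomputable def qe {h : ℝ} (hh : 0 < h) : goodRing h →+* PowerSeries ℂ where
  toFun f := qExpansion h f.1
  map_one' := qExpansion_one h
  map_zero' := qExpansion_zero h
  map_mul' := fun f g => qExpansion_mul (Good.analytic hh f.2) (Good.analytic hh g.2)
  map_add' := fun f g => qExpansion_add (Good.analytic hh f.2) (Good.analytic hh g.2)

/-- The ring of algebraic integers. -/
abbrev OO : Subalgebra ℤ ℂ := integralClosure ℤ ℂ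

/-- Power series with algebraic integer coefficients. -/
def intPS : Subring (PowerSeries ℂ) where
  carrier := {φ | ∀ n, PowerSeries.coeff n φ ∈ OO}
  mul_mem' := fun {a b} ha hb n => by
    rw [PowerSeries.coeff_mul]
    exact Subalgebra.sum_mem _ fun p _ => Subalgebra.mul_mem _ (ha _) (hb _)
  add_mem' := fun {a b} ha hb n => by
    rw [map_add]
    exact Subalgebra.add_mem _ (ha _) (hb _)
  one_mem' := fun n => by
    rw [PowerSeries.coeff_one]
    split_ifs
    · exact Subalgebra.one_mem _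
    · exact Subalgebra.zero_mem _
  zero_mem' := fun n => by
    rw [map_zero]; exact Subalgebra.zero_mem _
  neg_mem' := fun {a} ha n => by
    rw [map_neg]; exact Subalgebra.neg_mem _ (ha n)

lemma mem_intPS {φ : PowerSeries ℂ} : φ ∈ intPS ↔ ∀ n, PowerSeries.coeff n φ ∈ OO := Iff.rfl

/-- Good functions with algebraic integer `q`-expansion coefficients. -/
noncomputable def intGood {h : ℝ} (hh : 0 < h) : Subring (goodRing h) := intPS.comap (qe hh)

lemma mem_intGood {h : ℝ} (hh : 0 < h) {f : goodRing h} :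
    f ∈ intGood hh ↔ ∀ n, PowerSeries.coeff n (qExpansion h f.1) ∈ OO := Iff.rfl

/-- The lowest coefficient is a given number. -/
def Lowest (φ : PowerSeries ℂ) (n : ℕ) (u : ℂ) : Prop :=
  (∀ i < n, PowerSeries.coeff i φ = 0) ∧ PowerSeries.coeff n φ = u

lemma Lowest.mul {φ ψ : PowerSeries ℂ} {n m : ℕ} {u v : ℂ} (h1 : Lowest φ n u)
    (h2 : Lowest ψ m v) : Lowest (φ * ψ) (n + m) (u * v) := by
  constructor
  · intro i hi
    rw [PowerSeries.coeff_mul]
    refine Finset.sum_eq_zero fun p hp => ?_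
    rw [Finset.HasAntidiagonal.mem_antidiagonal] at hp
    by_cases h : p.1 < n
    · rw [h1.1 _ h, zero_mul]
    · rw [h2.1 _ (by omega), mul_zero]
  · rw [PowerSeries.coeff_mul, Finset.sum_eq_single (n, m)]
    · rw [h1.2, h2.2]
    · intro p hp hne
      rw [Finset.HasAntidiagonal.mem_antidiagonal] at hp
      by_cases h : p.1 < n
      · rw [h1.1 _ h, zero_mul]
      · have : p.2 < m := by
          by_contra hcon
          apply hne
          ext <;> simp <;> omega
        rw [h2.1 _ this, mul_zero]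
    · intro h
      exact absurd (by rw [Finset.HasAntidiagonal.mem_antidiagonal]) h

lemma Lowest.unique {φ : PowerSeries ℂ} {n m : ℕ} {u v : ℂ} (h1 : Lowest φ n u)
    (h2 : Lowest φ m v) (hu : u ≠ 0) (hv : v ≠ 0) : n = m ∧ u = v := by
  have hnm : n = m := by
    rcases lt_trichotomy n m with h | h | h
    · exact absurd (h1.2.symm.trans (h2.1 _ h)) hu
    · exact h
    · exact absurd (h2.2.symm.trans (h1.1 _ h)) hv
  subst hnm
  exact ⟨rfl, h1.2.symm.trans h2.2⟩

lemma Lowest.prod {ι : Type*} (s : Finset ι) (φ : ι → PowerSeries ℂ) (n : ι → ℕ) (u : ι → ℂ)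
    (h : ∀ i ∈ s, Lowest (φ i) (n i) (u i)) :
    Lowest (∏ i ∈ s, φ i) (∑ i ∈ s, n i) (∏ i ∈ s, u i) := by
  classical
  induction s using Finset.induction_on with
  | empty => simp [Lowest]
  | insert a s ha ih =>
    rw [Finset.prod_insert ha, Finset.sum_insert ha, Finset.prod_insert ha]
    exact (h a (Finset.mem_insert_self _ _)).mul
      (ih fun i hi => h i (Finset.mem_insert_of_mem hi))

lemma Lowest.pow {φ : PowerSeries ℂ} {n : ℕ} {u : ℂ} (h : Lowest φ n u) (k : ℕ) :
    Lowest (φ ^ k) (k * n) (u ^ k) := by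
  have := Lowest.prod (Finset.range k) (fun _ => φ) (fun _ => n) (fun _ => u) (fun _ _ => h)
  simpa using this

/-- A unit of the ring of algebraic integers. -/
def IsUnitInt (u : ℂ) : Prop := u ∈ OO ∧ u⁻¹ ∈ OO ∧ u ≠ 0

lemma IsUnitInt.prod {ι : Type*} (s : Finset ι) (u : ι → ℂ) (h : ∀ i ∈ s, IsUnitInt (u i)) :
    IsUnitInt (∏ i ∈ s, u i) := by
  refine ⟨Subalgebra.prod_mem _ fun i hi => (h i hi).1, ?_, Finset.prod_ne_zero_iff.2 fun i hi => (h i hi).2.2⟩
  rw [← Finset.prod_inv_distrib]
  exact Subalgebra.prod_mem _ fun i hi => (h i hi).2.1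

lemma isUnitInt_of_pow {u : ℂ} {n : ℕ} (hn : n ≠ 0) (h : u ^ n = 1) : IsUnitInt u := by
  have key : ∀ v : ℂ, v ^ n = 1 → v ∈ OO := fun v hv => by
    refine ⟨Polynomial.X ^ n - 1, Polynomial.monic_X_pow_sub_C 1 hn, ?_⟩
    simp [hv]
  have hu0 : u ≠ 0 := by
    rintro rfl
    rw [zero_pow hn] at h
    exact zero_ne_one h
  exact ⟨key u h, key _ (by rw [inv_pow, h, inv_one]), hu0⟩

end Pool.Agent.Helper11.ZP
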