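import Mathlib

open Finset

namespace Pool.Agent.Helper11.ZP

/-- The rational numbers of height at most `H`: the quotients `a / b` with `|a| ≤ H` and
`1 ≤ b ≤ H`. -/
noncomputable def ratBox (H : ℕ) : Finset ℚ :=
  (Icc (-(H : ℤ)) H ×ˢ Icc (1 : ℤ) H).image fun z => (z.1 : ℚ) / z.2

/-- The tuples of rational numbers of height at most `H`. -/
noncomputable def qBox (ι : Type) [Fintype ι] [DecidableEq ι] (H : ℕ) : Finset (ι → ℚ) :=
  Fintype.piFinset fun _ => ratBox H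

lemma num_den_mem {H : ℕ} {q : ℚ} (hq : q ∈ ratBox H) :
    (q.num, (q.den : ℤ)) ∈ Icc (-(H : ℤ)) H ×ˢ Icc (1 : ℤ) H := by
  rw [ratBox, mem_image] at hq
  obtain ⟨⟨a, b⟩, h, rfl⟩ := hq
  simp only [mem_product, mem_Icc] at h ⊢
  obtain ⟨⟨ha1, ha2⟩, hb1, hb2⟩ := h
  have h1 := Rat.num_dvd a (b := b) (by omega)
  have h2 := Rat.den_dvd a b
  rw [Rat.divInt_eq_div] at h1 h2
  have h3 : (((a : ℚ) / b).den : ℤ) ≤ b := Int.le_of_dvd (by omega) h2
  have h4 : 0 < ((a : ℚ) / b).den := Rat.den_pos _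
  refine ⟨?_, by omega, by omega⟩
  rcases eq_or_ne a 0 with rfl | ha
  · simp
  · have h5 : ((a : ℚ) / b).num.natAbs ≤ a.natAbs :=
      Nat.le_of_dvd (Int.natAbs_pos.2 ha) (Int.natAbs_dvd_natAbs.2 h1)
    omega

lemma sum_sq_bound (H : ℕ) (hH : 2 ≤ H) :
    ∑ g ∈ Icc 2 H, ((1 : ℝ) / (g : ℝ) ^ 2) ≤ (3 / 4 : ℝ) - 1 / (H : ℝ) := by
  induction H, hH using Nat.le_induction with
  | base => norm_num
  | succ m hm ih =>
    rw [Finset.sum_Icc_succ_top (by omega)]
    have hm' : (0 : ℝ) < m := by exact_mod_cast (show 0 < m by omega)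
    have h1 : (1 : ℝ) / ((m + 1 : ℕ) : ℝ) ^ 2 ≤ 1 / m - 1 / ((m + 1 : ℕ) : ℝ) := by
      push_cast
      rw [div_sub_div _ _ hm'.ne' (by positivity), div_le_div_iff₀ (by positivity) (by positivity)]
      nlinarith
    linarith

lemma card_ratBox_ge (H : ℕ) (hH : 2 ≤ H) : (H : ℝ) ^ 2 / 4 ≤ ((ratBox H).card : ℝ) := by
  classical
  set S := Ioc 0 H ×ˢ Ioc 0 H with hS
  set C := S.filter (fun z => Nat.Coprime z.1 z.2) with hC
  have h1 : S ⊆ C ∪ (Icc 2 H).biUnion (fun g =>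
      ((Ioc 0 H).filter (fun x => g ∣ x)) ×ˢ ((Ioc 0 H).filter (fun x => g ∣ x))) := by
    rintro ⟨a, b⟩ hab
    rw [mem_union]
    by_cases hcop : Nat.Coprime a b
    · left
      exact mem_filter.2 ⟨hab, hcop⟩
    · right
      rw [hS, mem_product, mem_Ioc, mem_Ioc] at hab
      simp only at hab
      rw [mem_biUnion]
      refine ⟨Nat.gcd a b, ?_, ?_⟩
      · rw [mem_Icc]
        have h2 : 0 < Nat.gcd a b := Nat.gcd_pos_of_pos_left _ hab.1.1
        have h3 : Nat.gcd a b ≠ 1 := hcop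
        have h4 : Nat.gcd a b ≤ a := Nat.gcd_le_left _ hab.1.1
        omega
      · rw [mem_product, mem_filter, mem_filter, mem_Ioc, mem_Ioc]
        exact ⟨⟨hab.1, Nat.gcd_dvd_left _ _⟩, hab.2, Nat.gcd_dvd_right _ _⟩
  have h2 : S.card = H ^ 2 := by
    rw [hS, card_product, Nat.card_Ioc, Nat.sub_zero]; ring
  have h3 : (H : ℝ) ^ 2 ≤ C.card + ∑ g ∈ Icc 2 H, ((H : ℝ) ^ 2 * (1 / (g : ℝ) ^ 2)) := by
    have h4 := card_le_card h1
    have h5 := h4.trans (card_union_le _ _)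
    have h6 := h5.trans (Nat.add_le_add_left card_biUnion_le _)
    rw [h2] at h6
    have h7 : ((H ^ 2 : ℕ) : ℝ) ≤ ((C.card + ∑ g ∈ Icc 2 H, (((Ioc 0 H).filter (fun x => g ∣ x)) ×ˢ
        ((Ioc 0 H).filter (fun x => g ∣ x))).card : ℕ) : ℝ) := by exact_mod_cast h6
    push_cast at h7
    refine h7.trans (add_le_add_right (sum_le_sum fun g hg => ?_) _)
    rw [mem_Icc] at hg
    rw [card_product, Nat.Ioc_filter_dvd_card_eq_div]
    push_cast
    have hg' : (0 : ℝ) < g := by exact_mod_cast (show 0 < g by omega)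
    have h8 : ((H / g : ℕ) : ℝ) ≤ H / g := Nat.cast_div_le
    calc ((H / g : ℕ) : ℝ) * ((H / g : ℕ) : ℝ) ≤ (H / g) * (H / g) :=
          mul_le_mul h8 h8 (by positivity) (by positivity)
      _ = (H : ℝ) ^ 2 * (1 / (g : ℝ) ^ 2) := by ring
  rw [← mul_sum] at h3
  have h4 := sum_sq_bound H hH
  have hH' : (0 : ℝ) < H := by exact_mod_cast (show 0 < H by omega)
  have h5 : (H : ℝ) ^ 2 / 4 ≤ C.card := by
    have : (H : ℝ) ^ 2 * ∑ g ∈ Icc 2 H, (1 / (g : ℝ) ^ 2) ≤ (H : ℝ) ^ 2 * (3 / 4) := by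
      refine mul_le_mul_of_nonneg_left ?_ (by positivity)
      have : (0 : ℝ) < 1 / H := by positivity
      linarith
    linarith
  refine h5.trans ?_
  have h6 : C.card ≤ (ratBox H).card := by
    refine card_le_card_of_injOn (fun z => ((z.1 : ℚ) / z.2)) ?_ ?_
    · rintro ⟨a, b⟩ hab
      rw [hC, coe_filter, Set.mem_ofPred_eq, hS, mem_product, mem_Ioc, mem_Ioc] at hab
      simp only at hab
      rw [mem_coe, ratBox, mem_image]
      refine ⟨((a : ℤ), (b : ℤ)), ?_, by push_cast; rfl⟩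
      rw [mem_product, mem_Icc, mem_Icc]
      simp only
      omega
    · rintro ⟨a, b⟩ hab ⟨a', b'⟩ hab' heq
      rw [hC, coe_filter, Set.mem_ofPred_eq, hS, mem_product, mem_Ioc, mem_Ioc] at hab hab'
      simp only at hab hab' heq
      have e1 : ((a : ℤ) : ℚ) / ((b : ℤ) : ℚ) = ((a' : ℤ) : ℚ) / ((b' : ℤ) : ℚ) := by
        push_cast; exact heq
      have n1 := Rat.num_div_eq_of_coprime (a := a) (b := b) (by omega) (by simpa using hab.2)
      have n2 := Rat.num_div_eq_of_coprime (a := a') (b := b') (by omega) (by simpa using hab'.2)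
      have d1 := Rat.den_div_eq_of_coprime (a := a) (b := b) (by omega) (by simpa using hab.2)
      have d2 := Rat.den_div_eq_of_coprime (a := a') (b := b') (by omega) (by simpa using hab'.2)
      rw [e1] at n1 d1
      rw [Prod.mk.injEq]
      constructor
      · exact_mod_cast n1.symm.trans n2
      · exact_mod_cast d1.symm.trans d2
  exact_mod_cast h6

end Pool.Agent.Helper11.ZP
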