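import Pool.Agent.Helper11.ZP.Curve

open Polynomial

namespace Pool.Agent.Helper11.ZP

section

variable {K : Type*} [Field K] (O : ValuationSubring K) {p : ℕ}

lemma natCast_dvd_iff {p : ℕ} (a : ℕ) : ((p : ℤ) ∣ (a : ℤ)) ↔ p ∣ a := Int.natCast_dvd_natCast

lemma val_rat_le (hp : p.Prime) (hpO : (p : K) ∈ O.nonunits) {q : ℚ} (hq : ¬ p ∣ q.den) :
    O.valuation (q : K) ≤ 1 := by
  rw [Rat.cast_def, map_div₀]
  have h1 : O.valuation ((q.den : ℕ) : K) = 1 := by
    have := val_int_eq O hp hpO (a := (q.den : ℤ)) (by rwa [natCast_dvd_iff])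
    simpa using this
  rw [h1, div_one]
  exact val_int_le O _

lemma val_rat_eq (hp : p.Prime) (hpO : (p : K) ∈ O.nonunits) {q : ℚ} (hq : ¬ p ∣ q.den)
    (hq' : ¬ (p : ℤ) ∣ q.num) : O.valuation (q : K) = 1 := by
  rw [Rat.cast_def, map_div₀]
  have h1 : O.valuation ((q.den : ℕ) : K) = 1 := by
    have := val_int_eq O hp hpO (a := (q.den : ℤ)) (by rwa [natCast_dvd_iff])
    simpa using this
  rw [h1, div_one]
  exact val_int_eq O hp hpO hq'

lemma val_rat_gt [CharZero K] (hp : p.Prime) (hpO : (p : K) ∈ O.nonunits) {q : ℚ} (hq : p ∣ q.den) :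
    1 < O.valuation (q : K) := by
  have hnum : ¬ (p : ℤ) ∣ q.num := by
    intro h
    have h1 : p ∣ q.num.natAbs := Int.natCast_dvd.1 h
    have h2 := Nat.dvd_gcd h1 hq
    rw [q.reduced] at h2
    exact hp.one_lt.ne' (Nat.dvd_one.1 h2)
  rw [Rat.cast_def, map_div₀, val_int_eq O hp hpO hnum]
  have h1 : O.valuation ((q.den : ℕ) : K) < 1 := by
    have := val_int_lt O hpO (a := (q.den : ℤ)) (by rwa [natCast_dvd_iff])
    simpa using this
  have h2 : O.valuation ((q.den : ℕ) : K) ≠ 0 := by
    rw [Valuation.ne_zero_iff]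
    exact_mod_cast q.den_ne_zero
  rw [one_div, one_lt_inv₀ (zero_lt_iff.2 h2)]
  exact h1

end

section

variable {K : Type*} [Field K] (O : ValuationSubring K)

/-- A polynomial expression with integral coefficients at an integral element. -/
lemma val_sum_le {d : ℕ} (q : Fin (d + 1) → K) (hq : ∀ m, O.valuation (q m) ≤ 1) {T : K}
    (hT : O.valuation T ≤ 1) : O.valuation (∑ m, q m * T ^ (m : ℕ)) ≤ 1 := by
  refine Valuation.map_sum_le _ fun m _ => ?_
  rw [map_mul, map_pow]
  exact mul_le_one' (hq m) (pow_le_one' hT _)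

/-- A polynomial expression whose leading term dominates. -/
lemma val_sum_gt {d : ℕ} (q : Fin (d + 1) → K) (hq : ∀ m, m ≠ Fin.last d → O.valuation (q m) ≤ 1)
    {T : K} (hlead : 1 ≤ O.valuation (q (Fin.last d))) (hT : 1 ≤ O.valuation T)
    (h : 1 < O.valuation (q (Fin.last d)) ∨ (1 < O.valuation T ∧ 1 ≤ d)) :
    1 < O.valuation (∑ m, q m * T ^ (m : ℕ)) := by
  set M := O.valuation (q (Fin.last d)) * O.valuation T ^ d with hM
  have hTpos : 0 < O.valuation T := lt_of_lt_of_le zero_lt_one hT
  have hqpos : 0 < O.valuation (q (Fin.last d)) := lt_of_lt_of_le zero_lt_one hlead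
  have hM1 : 1 < M := by
    rcases h with h | ⟨h, hd⟩
    · calc (1 : O.ValueGroup) < O.valuation (q (Fin.last d)) := h
        _ = O.valuation (q (Fin.last d)) * 1 := (mul_one _).symm
        _ ≤ M := mul_le_mul' le_rfl (one_le_pow₀ hT)
    · calc (1 : O.ValueGroup) < O.valuation T ^ d := one_lt_pow₀ h (by omega)
        _ = 1 * O.valuation T ^ d := (one_mul _).symm
        _ ≤ M := mul_le_mul' hlead le_rfl
  have hrest : ∀ m, m ≠ Fin.last d → O.valuation (q m * T ^ (m : ℕ)) < M := by
    intro m hm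
    have hmd : (m : ℕ) < d := by
      have := Fin.val_lt_last hm
      exact this
    rw [map_mul, map_pow]
    rcases h with h | ⟨h, hd⟩
    · calc O.valuation (q m) * O.valuation T ^ (m : ℕ) ≤ 1 * O.valuation T ^ d :=
            mul_le_mul' (hq m hm) (pow_le_pow_right₀ hT hmd.le)
        _ < O.valuation (q (Fin.last d)) * O.valuation T ^ d :=
            mul_lt_mul_of_pos_right h (pow_pos hTpos _)
    · calc O.valuation (q m) * O.valuation T ^ (m : ℕ) ≤ 1 * O.valuation T ^ (m : ℕ) :=
            mul_le_mul' (hq m hm) le_rfl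
        _ < 1 * O.valuation T ^ d := by
            rw [one_mul, one_mul]
            exact pow_lt_pow_right₀ h hmd
        _ ≤ O.valuation (q (Fin.last d)) * O.valuation T ^ d := mul_le_mul' hlead le_rfl
  classical
  rw [← Finset.add_sum_erase _ _ (Finset.mem_univ (Fin.last d))]
  have h1 : O.valuation (∑ m ∈ Finset.univ.erase (Fin.last d), q m * T ^ (m : ℕ)) < M := by
    refine Valuation.map_sum_lt _ (lt_trans zero_lt_one hM1).ne' fun m hm => ?_
    exact hrest m (Finset.ne_of_mem_erase hm)
  have h2 : O.valuation (q (Fin.last d) * T ^ ((Fin.last d : Fin (d + 1)) : ℕ)) = M := by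
    rw [map_mul, map_pow, Fin.val_last]
  rw [Valuation.map_add_eq_of_lt_left _ (by rw [h2]; exact h1), h2]
  exact hM1

end

section

/-- Elements with a polynomial expression in the image are integral. -/
lemma isIntegralElem_of_poly {n : ℕ} {R : Type*} [CommRing R] [Algebra ℂ R]
    (φ : MvPolynomial (Fin n) ℂ →ₐ[ℂ] R) (i : Fin n) {d : ℕ} (hd : 1 ≤ d) (q : Fin (d + 1) → ℂ)
    (hq : q (Fin.last d) ≠ 0) (T : R)
    (hT : φ (MvPolynomial.X i) = ∑ m, algebraMap ℂ R (q m) * T ^ (m : ℕ)) :
    φ.toRingHom.IsIntegralElem T := by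
  classical
  let P : (MvPolynomial (Fin n) ℂ)[X] :=
    C (MvPolynomial.C (q (Fin.last d))⁻¹) *
      (∑ m : Fin (d + 1), C (MvPolynomial.C (q m)) * X ^ (m : ℕ) - C (MvPolynomial.X i))
  refine ⟨P, ?_, ?_⟩
  · refine monic_of_natDegree_le_of_coeff_eq_one d ?_ ?_
    · refine (natDegree_C_mul_le _ _).trans ?_
      have e1 : (∑ m : Fin (d + 1), C (MvPolynomial.C (q m)) * X ^ (m : ℕ) :
          (MvPolynomial (Fin n) ℂ)[X]).natDegree ≤ d := by
        refine natDegree_sum_le_of_forall_le _ _ fun m _ => ?_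
        refine (natDegree_C_mul_X_pow_le (MvPolynomial.C (q m) : MvPolynomial (Fin n) ℂ) (m : ℕ)).trans ?_
        exact Nat.lt_succ_iff.1 m.2
      have e2 : (C (MvPolynomial.X i) : (MvPolynomial (Fin n) ℂ)[X]).natDegree ≤ d := by
        rw [natDegree_C]; omega
      exact (natDegree_sub_le_of_le e1 e2).trans (le_of_eq (max_self d))
    · rw [coeff_C_mul, coeff_sub, finsetSum_coeff, coeff_C_of_ne_zero (by omega), sub_zero]
      have h1 : ∀ m : Fin (d + 1), (C (MvPolynomial.C (q m)) * X ^ (m : ℕ) :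
          (MvPolynomial (Fin n) ℂ)[X]).coeff d =
          if m = Fin.last d then MvPolynomial.C (q (Fin.last d)) else 0 := by
        intro m
        rw [coeff_C_mul, coeff_X_pow]
        by_cases hm : m = Fin.last d
        · subst hm
          simp
        · have : d ≠ (m : ℕ) := fun h => hm (Fin.ext (by rw [Fin.val_last]; exact h.symm))
          rw [if_neg this, if_neg hm, mul_zero]
      simp only [h1]
      rw [Finset.sum_ite_eq' , if_pos (Finset.mem_univ _), ← MvPolynomial.C_mul,
        inv_mul_cancel₀ hq, MvPolynomial.C_1]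
  · rw [eval₂_mul, eval₂_sub, eval₂_finsetSum, eval₂_C, eval₂_C]
    have h2 : ∑ m : Fin (d + 1), eval₂ φ.toRingHom T (C (MvPolynomial.C (q m)) * X ^ (m : ℕ)) =
        ∑ m, algebraMap ℂ R (q m) * T ^ (m : ℕ) := by
      refine Finset.sum_congr rfl fun m _ => ?_
      rw [eval₂_mul, eval₂_C, eval₂_X_pow]
      congr 1
      exact φ.commutes (q m)
    rw [h2]
    have h3 : φ.toRingHom (MvPolynomial.X i) = φ (MvPolynomial.X i) := rfl
    rw [h3, ← hT, sub_self, mul_zero]

/-- Integrality of the whole ring of functions. -/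
lemma isIntegral_of_gens {n : ℕ} {D : ℂ[X]} (φ : MvPolynomial (Fin n) ℂ →ₐ[ℂ] Localization.Away D)
    (h1 : φ.toRingHom.IsIntegralElem (algebraMap ℂ[X] (Localization.Away D) X))
    (h2 : φ.toRingHom.IsIntegralElem (IsLocalization.Away.invSelf D : Localization.Away D)) :
    φ.toRingHom.IsIntegral := by
  have hconst : ∀ a : ℂ, φ.toRingHom.IsIntegralElem (algebraMap ℂ (Localization.Away D) a) := by
    intro a
    have : algebraMap ℂ (Localization.Away D) a = φ.toRingHom (MvPolynomial.C a) := (φ.commutes a).symm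
    rw [this]
    exact RingHom.isIntegralElem_map _
  have hpoly : ∀ f : ℂ[X], φ.toRingHom.IsIntegralElem (algebraMap ℂ[X] (Localization.Away D) f) := by
    intro f
    induction f using Polynomial.induction_on' with
    | add f g hf hg =>
      rw [map_add]
      exact RingHom.IsIntegralElem.add _ hf hg
    | monomial n a =>
      rw [← C_mul_X_pow_eq_monomial, map_mul, map_pow]
      refine RingHom.IsIntegralElem.mul _ ?_ ?_
      · have := hconst a
        rw [IsScalarTower.algebraMap_apply ℂ ℂ[X]] at this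
        exact this
      · induction n with
        | zero => rw [pow_zero]; exact RingHom.isIntegralElem_one _
        | succ n ih => rw [pow_succ]; exact RingHom.IsIntegralElem.mul _ ih h1
  intro r
  obtain ⟨k, f, hf⟩ := IsLocalization.Away.surj D r
  have hr : r = algebraMap ℂ[X] (Localization.Away D) f *
      (IsLocalization.Away.invSelf D : Localization.Away D) ^ k := by
    rw [← hf, mul_assoc, ← mul_pow, IsLocalization.Away.mul_invSelf, one_pow, mul_one]
  rw [hr]
  refine RingHom.IsIntegralElem.mul _ (hpoly f) ?_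
  clear hr hf
  induction k with
  | zero => rw [pow_zero]; exact RingHom.isIntegralElem_one _
  | succ n ih => rw [pow_succ]; exact RingHom.IsIntegralElem.mul _ ih h2

end

end Pool.Agent.Helper11.ZP
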