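import Pool.Agent.Helper11.ZP.Defs

open UpperHalfPlane

namespace Pool.Agent.Helper11.ZP

lemma toGL_smul_eq {m : ℤ} (hm : 0 < m) (A : DM m) (τ τ' : ℍ)
    (h : (τ' : ℂ) * ((A.1 1 0 : ℤ) * (τ : ℂ) + (A.1 1 1 : ℤ)) = (A.1 0 0 : ℤ) * (τ : ℂ) + (A.1 0 1 : ℤ)) :
    toGL hm A • τ = τ' := by
  have h0 := denom_ne_zero (toGL hm A) τ
  ext
  rw [coe_smul_of_det_pos (det_toGL_pos hm A), div_eq_iff h0]
  rw [denom, num, toGL_val, toGL_val, toGL_val, toGL_val]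
  push_cast
  exact h.symm

/-- Two points `j(g₁τ)`, `j(g₂τ)` satisfy a monic integral equation depending only on the
matrices. -/
theorem exists_relation (g₁ g₂ : Matrix (Fin 2) (Fin 2) ℤ) (h₁ : 0 < g₁.det) (h₂ : 0 < g₂.det) :
    ∃ P : Polynomial (Polynomial OO), P.Monic ∧
      ∀ τ τ₁ τ₂ : ℍ, (τ₁ : ℂ) * (g₁ 1 0 * (τ : ℂ) + g₁ 1 1) = g₁ 0 0 * (τ : ℂ) + g₁ 0 1 →
        (τ₂ : ℂ) * (g₂ 1 0 * (τ : ℂ) + g₂ 1 1) = g₂ 0 0 * (τ : ℂ) + g₂ 0 1 →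
        P.eval₂ (evO (jInv τ₂)) (jInv τ₁) = 0 := by
  have hdet : (g₁ * g₂.adjugate).det = g₁.det * g₂.det := by
    rw [Matrix.det_mul, Matrix.det_adjugate]
    simp
  have hm : 0 < g₁.det * g₂.det := mul_pos h₁ h₂
  obtain ⟨P, hP, hP2⟩ := exists_modular_equation hm
  refine ⟨P, hP, fun τ τ₁ τ₂ e₁ e₂ => ?_⟩
  have key := hP2 ⟨g₁ * g₂.adjugate, hdet⟩ τ₂
  rwa [toGL_smul_eq hm ⟨g₁ * g₂.adjugate, hdet⟩ τ₂ τ₁] at key
  have hd2 : (g₂ 1 0 * (τ : ℂ) + g₂ 1 1) ≠ 0 := by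
    have := denom_ne_zero (toGL h₂ (⟨g₂, rfl⟩ : DM g₂.det)) τ
    change ((((g₂ 1 0 : ℤ) : ℝ) : ℂ) * (τ : ℂ) + (((g₂ 1 1 : ℤ) : ℝ) : ℂ)) ≠ 0 at this
    simpa using this
  apply mul_left_cancel₀ hd2
  have a00 : (g₁ * g₂.adjugate) 0 0 = g₁ 0 0 * g₂ 1 1 - g₁ 0 1 * g₂ 1 0 := by
    simp [Matrix.mul_apply, Fin.sum_univ_two, Matrix.adjugate_fin_two]; ring
  have a01 : (g₁ * g₂.adjugate) 0 1 = - g₁ 0 0 * g₂ 0 1 + g₁ 0 1 * g₂ 0 0 := by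
    simp [Matrix.mul_apply, Fin.sum_univ_two, Matrix.adjugate_fin_two]
  have a10 : (g₁ * g₂.adjugate) 1 0 = g₁ 1 0 * g₂ 1 1 - g₁ 1 1 * g₂ 1 0 := by
    simp [Matrix.mul_apply, Fin.sum_univ_two, Matrix.adjugate_fin_two]; ring
  have a11 : (g₁ * g₂.adjugate) 1 1 = - g₁ 1 0 * g₂ 0 1 + g₁ 1 1 * g₂ 0 0 := by
    simp [Matrix.mul_apply, Fin.sum_univ_two, Matrix.adjugate_fin_two]
  simp only [a00, a01, a10, a11]
  push_cast
  linear_combination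
    ((g₂ 0 0 : ℂ) * (g₂ 1 1) - (g₂ 0 1) * (g₂ 1 0)) * e₁ +
    ((τ₁ : ℂ) * ((g₁ 1 0 : ℂ) * g₂ 1 1 - g₁ 1 1 * g₂ 1 0) - ((g₁ 0 0 : ℂ) * g₂ 1 1 - g₁ 0 1 * g₂ 1 0)) * e₂

/-- Special points are algebraic integers. -/
theorem IsSpecialPoint.isIntegral {x : ℂ} (hx : IsSpecialPoint x) : IsIntegral ℤ x := by
  obtain ⟨τ, a, b, c, ha, h, rfl⟩ := hx
  have hy := τ.im_pos
  have hre : (a : ℝ) * (τ.re ^ 2 - τ.im ^ 2) + b * τ.re + c = 0 := by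
    have := congrArg Complex.re h
    simpa [pow_two] using this
  have him : (2 * (a : ℝ) * τ.re + b) * τ.im = 0 := by
    have := congrArg Complex.im h
    simp [pow_two] at this
    linarith
  have hb : 2 * (a : ℝ) * τ.re + b = 0 := (mul_eq_zero.1 him).resolve_right hy.ne'
  have hE : 0 < 4 * a * c - b ^ 2 := by
    have ha' : (a : ℝ) ≠ 0 := by exact_mod_cast ha
    have : (0 : ℝ) < 4 * a * c - b ^ 2 := by
      have h1 : (4 * a * c - b ^ 2 : ℝ) = 4 * (a : ℝ) ^ 2 * τ.im ^ 2 := by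
        have hb' : (b : ℝ) = -(2 * (a : ℝ) * τ.re) := by linarith
        have hc' : (c : ℝ) = -((a : ℝ) * (τ.re ^ 2 - τ.im ^ 2) + b * τ.re) := by linarith
        rw [hc', hb']; ring
      rw [h1]; positivity
    exact_mod_cast this
  set E := 4 * a * c - b ^ 2 with hEdef
  let G : Matrix (Fin 2) (Fin 2) ℤ := !![E - b, -2 * c; 2 * a, E + b]
  have hG : G.det = E ^ 2 + E := by
    rw [Matrix.det_fin_two]
    simp only [G, Matrix.of_apply, Matrix.cons_val', Matrix.cons_val_zero, Matrix.cons_val_one,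
      Matrix.cons_val_fin_one]
    rw [hEdef]; ring
  have hm : 0 < E ^ 2 + E := by positivity
  refine isIntegral_of_fixed hm ?_ (A := ⟨G, hG⟩) (τ := τ) ?_
  · intro k hk
    have h1 : E < k := by nlinarith
    have h2 : (k : ℤ) < E + 1 := by nlinarith
    omega
  · apply toGL_smul_eq
    simp only [G, Matrix.of_apply, Matrix.cons_val', Matrix.cons_val_zero, Matrix.cons_val_one,
      Matrix.cons_val_fin_one]
    push_cast
    linear_combination 2 * h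

end Pool.Agent.Helper11.ZP
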