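import Pool.Agent.Helper11.ZP.Orbits

open UpperHalfPlane ModularForm Complex Filter Function
open scoped Real MatrixGroups Topology Manifold

namespace Pool.Agent.Helper11.ZP


section upper

variable {m : ℤ} [hm : Fact (0 < m)] (A : DM m) (h10 : A.1 1 0 = 0) (h00 : 0 < A.1 0 0)

include h10 in
lemma ad_eq : A.1 0 0 * A.1 1 1 = m := by
  have := A.2
  rw [Matrix.det_fin_two, h10] at this
  simpa using this

include h10 h00 in
lemma d_pos : 0 < A.1 1 1 := by
  have h1 := ad_eq A h10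
  have h2 := hm.out
  by_contra hcon
  push Not at hcon
  have := mul_nonpos_of_nonneg_of_nonpos h00.le hcon
  omega

include h10 in
lemma denom_upper (τ : ℍ) : denom (toGL hm.out A) τ = ((A.1 1 1 : ℤ) : ℂ) := by
  rw [denom, toGL_val, toGL_val, h10]
  simp

include h10 in
lemma coe_upper (τ : ℍ) : ((toGL hm.out A • τ : ℍ) : ℂ) =
    ((A.1 0 0 : ℤ) * (τ : ℂ) + (A.1 0 1 : ℤ)) / ((A.1 1 1 : ℤ) : ℂ) := by
  rw [coe_smul_of_det_pos (det_toGL_pos hm.out A), denom_upper A h10, num, toGL_val, toGL_val]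
  simp

/-- The root of unity attached to an upper triangular matrix. -/
noncomputable def zt : ℂ := Complex.exp (2 * π * Complex.I * (A.1 0 1 : ℤ) / (A.1 1 1 : ℤ))

include h10 h00 in
lemma isUnitInt_zt : IsUnitInt (zt A) := by
  have hd := d_pos A h10 h00
  refine isUnitInt_of_pow (n := (A.1 1 1).toNat) (by omega) ?_
  rw [zt, ← Complex.exp_nat_mul, Complex.exp_eq_one_iff]
  refine ⟨A.1 0 1, ?_⟩
  have h1 : (((A.1 1 1).toNat : ℕ) : ℂ) = ((A.1 1 1 : ℤ) : ℂ) := by
    rw [← Int.cast_natCast, Int.toNat_of_nonneg hd.le]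
  have h2 : ((A.1 1 1 : ℤ) : ℂ) ≠ 0 := by exact_mod_cast hd.ne'
  rw [h1]
  field_simp

include h10 h00 in
lemma qParam_upper (τ : ℍ) : Periodic.qParam 1 (toGL hm.out A • τ : ℍ) =
    zt A * Periodic.qParam (m : ℝ) τ ^ ((A.1 0 0).toNat ^ 2) := by
  have hd := d_pos A h10 h00
  have had := ad_eq A h10
  rw [Periodic.qParam, Periodic.qParam, coe_upper A h10, zt, ← Complex.exp_nat_mul, ← Complex.exp_add]
  congr 1
  have h1 : (((A.1 0 0).toNat : ℕ) : ℂ) = ((A.1 0 0 : ℤ) : ℂ) := by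
    rw [← Int.cast_natCast, Int.toNat_of_nonneg h00.le]
  have h2 : ((A.1 1 1 : ℤ) : ℂ) ≠ 0 := by exact_mod_cast hd.ne'
  have h3 : ((A.1 0 0 : ℤ) : ℂ) ≠ 0 := by exact_mod_cast h00.ne'
  have h4 : (((m : ℤ) : ℝ) : ℂ) = ((A.1 0 0 : ℤ) : ℂ) * ((A.1 1 1 : ℤ) : ℂ) := by
    have := congrArg (fun z : ℤ => ((z : ℝ) : ℂ)) had.symm
    simpa using this
  rw [h4]
  push_cast
  rw [h1]
  field_simp
  ring

/-- The coefficients of the composition. -/
noncomputable def upCoeff (φ : PowerSeries ℂ) (j : ℕ) : ℂ :=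
  if (A.1 0 0).toNat ^ 2 ∣ j then
    PowerSeries.coeff (j / (A.1 0 0).toNat ^ 2) φ * zt A ^ (j / (A.1 0 0).toNat ^ 2) else 0

include h10 h00 in
lemma hasSum_upper {f : ℍ → ℂ} (hf : Good 1 f) (τ : ℍ) :
    HasSum (fun j => upCoeff A (qExpansion 1 f) j • Periodic.qParam (m : ℝ) τ ^ j) (f (toGL hm.out A • τ)) := by
  have hk : 0 < (A.1 0 0).toNat ^ 2 := pow_pos (by omega) 2
  have hk0 : (A.1 0 0).toNat ^ 2 ≠ 0 := hk.ne'
  have h1 := hasSum_qExpansion one_pos hf.per hf.hol hf.bdd (toGL hm.out A • τ)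
  rw [← Function.Injective.hasSum_iff (mul_right_injective₀ hk0)]
  · have h2 : ((fun j => upCoeff A (qExpansion 1 f) j • Periodic.qParam (m : ℝ) τ ^ j) ∘
        fun x => (A.1 0 0).toNat ^ 2 * x) =
        fun n => (PowerSeries.coeff n) (qExpansion 1 f) • Periodic.qParam 1 (toGL hm.out A • τ : ℍ) ^ n := by
      funext n
      simp only [Function.comp_apply]
      rw [upCoeff, if_pos (dvd_mul_right _ _), Nat.mul_div_cancel_left _ hk, qParam_upper A h10 h00,
        mul_pow, ← pow_mul, smul_eq_mul, smul_eq_mul]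
      ring
    rw [h2]
    exact h1
  · intro x hx
    have : ¬ (A.1 0 0).toNat ^ 2 ∣ x := by
      rintro ⟨c, rfl⟩
      exact hx ⟨c, rfl⟩
    rw [upCoeff, if_neg this, zero_smul]

include h10 h00 in
lemma good_upper {f : ℍ → ℂ} (hf : Good 1 f) : Good (m : ℝ) (fun τ => f (toGL hm.out A • τ)) := by
  have hm' : (0 : ℝ) < (m : ℝ) := by exact_mod_cast hm.out
  refine ⟨?_, ?_, isBoundedAtImInfty_of_hasSum_qExpansion hm' (hasSum_upper A h10 h00 hf)⟩
  · intro w
    by_cases hw : 0 < w.im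
    · have hw2 : 0 < (w + (m : ℝ)).im := by simpa using hw
      simp only [Function.comp_apply, ofComplex_apply_of_im_pos hw, ofComplex_apply_of_im_pos hw2]
      refine (hasSum_upper A h10 h00 hf ⟨w + (m : ℝ), hw2⟩).unique ?_
      have h1 := hasSum_upper A h10 h00 hf ⟨w, hw⟩
      have h2 : Periodic.qParam (m : ℝ) (⟨w + (m : ℝ), hw2⟩ : ℍ) = Periodic.qParam (m : ℝ) (⟨w, hw⟩ : ℍ) := by
        change Periodic.qParam (m : ℝ) (w + (m : ℝ)) = Periodic.qParam (m : ℝ) w
        rw [Periodic.qParam, Periodic.qParam]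
        have hm0 : ((m : ℝ) : ℂ) ≠ 0 := by exact_mod_cast hm'.ne'
        rw [show 2 * (π : ℂ) * Complex.I * (w + ((m : ℝ) : ℂ)) / ((m : ℝ) : ℂ)
          = 2 * (π : ℂ) * Complex.I * w / ((m : ℝ) : ℂ) + 2 * (π : ℂ) * Complex.I by field_simp]
        exact Complex.exp_periodic _
      rw [h2]
      exact h1
    · have hw2 : ¬ 0 < (w + (m : ℝ)).im := by simpa using hw
      push Not at hw hw2
      simp only [Function.comp_apply, ofComplex_apply_of_im_nonpos hw,
        ofComplex_apply_of_im_nonpos hw2]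
  · exact hf.hol.comp (mdifferentiable_smul (det_toGL_pos hm.out A))

include h10 h00 in
lemma qexp_upper {f : ℍ → ℂ} (hf : Good 1 f) (j : ℕ) :
    (qExpansion (m : ℝ) (fun τ => f (toGL hm.out A • τ))).coeff j = upCoeff A (qExpansion 1 f) j := by
  have hm' : (0 : ℝ) < (m : ℝ) := by exact_mod_cast hm.out
  exact ((good_upper A h10 h00 hf).coeff_unique hm' (hasSum_upper A h10 h00 hf) j).symm

include h10 h00 in
lemma qexp_upper_mem {f : ℍ → ℂ} (hf : Good 1 f) (hi : qExpansion 1 f ∈ intPS) :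
    qExpansion (m : ℝ) (fun τ => f (toGL hm.out A • τ)) ∈ intPS := by
  intro j
  rw [qexp_upper A h10 h00 hf, upCoeff]
  split_ifs
  · exact Subalgebra.mul_mem _ (hi _) (Subalgebra.pow_mem _ (isUnitInt_zt A h10 h00).1 _)
  · exact Subalgebra.zero_mem _

include h10 h00 in
lemma qexp_upper_lowest {f : ℍ → ℂ} (hf : Good 1 f) {n : ℕ} {u : ℂ}
    (hl : Lowest (qExpansion 1 f) n u) :
    Lowest (qExpansion (m : ℝ) (fun τ => f (toGL hm.out A • τ)))
      ((A.1 0 0).toNat ^ 2 * n) (u * zt A ^ n) := by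
  have hk : 0 < (A.1 0 0).toNat ^ 2 := pow_pos (by omega) 2
  constructor
  · intro i hi
    rw [qexp_upper A h10 h00 hf, upCoeff]
    split_ifs with h
    · obtain ⟨c, rfl⟩ := h
      rw [Nat.mul_div_cancel_left _ hk, hl.1 c (lt_of_mul_lt_mul_left hi (Nat.zero_le _)), zero_mul]
    · rfl
  · rw [qexp_upper A h10 h00 hf, upCoeff, if_pos (dvd_mul_right _ _),
      Nat.mul_div_cancel_left _ hk, hl.2]

end upper

/-- Expansion of a `1`-periodic function with respect to the period `m`. -/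
lemma qexp_width {m : ℕ} (hm : 0 < m) {f : ℍ → ℂ} (hf : Good 1 f) (j : ℕ) :
    (qExpansion (m : ℝ) f).coeff j = if m ∣ j then (qExpansion 1 f).coeff (j / m) else 0 := by
  have hm' : (0 : ℝ) < (m : ℝ) := by exact_mod_cast hm
  have hgood : Good (m : ℝ) f := by
    refine ⟨?_, hf.hol, hf.bdd⟩
    have := hf.per.nat_mul m
    simpa using this
  refine (hgood.coeff_unique (c := fun j => if m ∣ j then (qExpansion 1 f).coeff (j / m) else 0)
    hm' (fun τ => ?_) j).symm
  have h1 := hasSum_qExpansion one_pos hf.per hf.hol hf.bdd τ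
  rw [← Function.Injective.hasSum_iff (mul_right_injective₀ hm.ne')]
  · have h2 : ((fun j => (if m ∣ j then (qExpansion 1 f).coeff (j / m) else 0) • Periodic.qParam (m : ℝ) τ ^ j) ∘
        fun x => m * x) = fun n => (PowerSeries.coeff n) (qExpansion 1 f) • Periodic.qParam 1 τ ^ n := by
      funext n
      simp only [Function.comp_apply]
      rw [if_pos (dvd_mul_right _ _), Nat.mul_div_cancel_left _ hm, pow_mul]
      congr 2
      rw [Periodic.qParam, Periodic.qParam, ← Complex.exp_nat_mul]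
      congr 1
      have : (m : ℂ) ≠ 0 := by exact_mod_cast hm.ne'
      push_cast
      field_simp
    rw [h2]
    exact h1
  · intro x hx
    have : ¬ m ∣ x := by
      rintro ⟨c, rfl⟩
      exact hx ⟨c, rfl⟩
    rw [if_neg this, zero_smul]

lemma Good.width {m : ℕ} {f : ℍ → ℂ} (hf : Good 1 f) : Good (m : ℝ) f := by
  refine ⟨?_, hf.hol, hf.bdd⟩
  have := hf.per.nat_mul m
  simpa using this

lemma qexp_width_lowest {m : ℕ} (hm : 0 < m) {f : ℍ → ℂ} (hf : Good 1 f) {n : ℕ} {u : ℂ}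
    (hl : Lowest (qExpansion 1 f) n u) : Lowest (qExpansion (m : ℝ) f) (m * n) u := by
  constructor
  · intro i hi
    rw [qexp_width hm hf]
    split_ifs with h
    · obtain ⟨c, rfl⟩ := h
      rw [Nat.mul_div_cancel_left _ hm, hl.1 c (lt_of_mul_lt_mul_left hi (Nat.zero_le _))]
    · rfl
  · rw [qexp_width hm hf, if_pos (dvd_mul_right _ _), Nat.mul_div_cancel_left _ hm, hl.2]

lemma qexp_of_width_mem {m : ℕ} (hm : 0 < m) {f : ℍ → ℂ} (hf : Good 1 f)
    (hi : qExpansion (m : ℝ) f ∈ intPS) : qExpansion 1 f ∈ intPS := by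
  intro n
  have := hi (m * n)
  rw [qexp_width hm hf, if_pos (dvd_mul_right _ _), Nat.mul_div_cancel_left _ hm] at this
  exact this

end Pool.Agent.Helper11.ZP
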